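import Pool.Agent.U393.LT.Cover

/-!
Images of varieties covered by affine lines.
-/

set_option autoImplicit false
set_option linter.overlappingInstances false
set_option linter.unusedSectionVars false

open FF IntermediateField Pool.Agent.W619.PQ
open Pool.Agent.W619.PL (IsA1Uniruled)

namespace Pool.Agent.U393.LT

/-- the image of an `A¹`-uniruled variety under a proper map -/
theorem a1_below {K L : Type} [Field K] [Field L] [Algebra ℂ K] [Algebra ℂ L] [Algebra K L]
    [IsScalarTower ℂ K L] {n : ℕ} {BK : Place ℂ K → Prop} {BV : Place ℂ L → Prop}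
    (h : ∀ (P : Place ℂ K) (Q : Place ℂ L) (e : ℕ), Over Q P e → BK P → BV Q)
    (hL : IsA1Uniruled ℂ L n BV) : IsA1Uniruled ℂ K n BK := by
  obtain ⟨M, i1, i2, φ, h1, h2, h3⟩ := hL
  refine ⟨M, i1, i2, φ.comp (IsScalarTower.toAlgHom ℂ K L), h1, h2, fun w hw P e he hP hB => ?_⟩
  have hP' : ∀ f : K, w.ord (φ (algebraMap K L f)) = e * P.ord f := hP
  obtain ⟨f0, -, hf0⟩ := P.surj
  obtain ⟨Q, a, ha, hQ⟩ := Pool.Agent.W619.Y.exists_restrict (k := ℂ) w (φ : L →+* RatFunc M)
    (fun c hc => by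
      change w.ord (φ (algebraMap ℂ L c)) = 0
      rw [φ.commutes, IsScalarTower.algebraMap_apply ℂ M (RatFunc M)]
      exact w.ord_const ((map_ne_zero_iff _ (algebraMap ℂ M).injective).2 hc))
    (f0 := algebraMap K L f0) (by
      change w.ord (φ (algebraMap K L f0)) ≠ 0
      rw [hP', hf0, mul_one]
      exact_mod_cast he.ne')
  have hQ' : ∀ f : L, w.ord (φ f) = a * Q.ord f := hQ
  have ha' : (0 : ℤ) < a := by exact_mod_cast ha
  have he' : (0 : ℤ) < e := by exact_mod_cast he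
  have h4 : (a : ℤ) * Q.ord (algebraMap K L f0) = e := by
    rw [← hQ', hP', hf0, mul_one]
  have h5 : 0 < Q.ord (algebraMap K L f0) := by
    rw [← h4] at he'
    exact (mul_pos_iff_of_pos_left ha').1 he'
  obtain ⟨b, hb⟩ : ∃ b : ℕ, (b : ℤ) = Q.ord (algebraMap K L f0) := ⟨_, Int.toNat_of_nonneg h5.le⟩
  refine h3 w hw Q a ha hQ' (h P Q b ⟨by omega, fun f => ?_⟩ hB)
  have h6 : (a : ℤ) * Q.ord (algebraMap K L f) = a * (b * P.ord f) := by
    rw [← hQ', hP', ← h4, ← hb]
    ring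
  exact mul_left_cancel₀ ha'.ne' h6

end Pool.Agent.U393.LT
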