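import Pool.Agent.U393.LT.Tower
import Pool.Agent.U393.UT.Up
import Pool.Agent.U393.UT.Pack
import Pool.Agent.W619.Y.LRes
import Pool.Agent.W619.PL.LDefs

/-!
`A¹`-uniruled images: affine lines on `W` are lifted to `V`, into the fibres over the base.
-/

set_option autoImplicit false
set_option linter.overlappingInstances false
set_option linter.unusedSectionVars false
set_option linter.unusedVariables false
set_option maxHeartbeats 4000000
set_option synthInstance.maxHeartbeats 400000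

open FF IntermediateField Module Pool.Agent.W619.PQ Pool.Agent.W603.LV Pool.Agent.Y172
open Pool.Agent.W602.GT (Divisorial RegAt IsPluri DerReg DerLog LogAt)
open Pool.Agent.N145.SX (HX SepX)
open Pool.Agent.W619.PL (IsA1Uniruled)

namespace Pool.Agent.U393.LT

/-- `A¹`-uniruledness in the fibres over the variety with the function field `U` -/
def A1Over {L : Type} [Field L] [Algebra ℂ L] (U : IntermediateField ℂ L) (n : ℕ)
    (Bd : Place ℂ L → Prop) : Prop :=
  ∃ (M : Type) (_ : Field M) (_ : Algebra ℂ M) (φ : L →ₐ[ℂ] RatFunc M),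
    Algebra.EssFiniteType ℂ M ∧ Algebra.trdeg ℂ M + 1 = n ∧
    (∀ z ∈ U, φ z ∈ Set.range (algebraMap M (RatFunc M))) ∧
    ∀ w : Place M (RatFunc M), w.Reg RatFunc.X → ∀ (v : Place ℂ L) (e : ℕ), 0 < e →
      (∀ f : L, w.ord (φ f) = e * v.ord f) → ¬ Bd v

theorem A1Over.uniruled {L : Type} [Field L] [Algebra ℂ L] {U : IntermediateField ℂ L} {n : ℕ}
    {Bd : Place ℂ L → Prop} (h : A1Over U n Bd) : IsA1Uniruled ℂ L n Bd := by
  obtain ⟨M, i1, i2, φ, h1, h2, -, h3⟩ := h
  exact ⟨M, i1, i2, φ, h1, h2, h3⟩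

/-- the ruled cover, with the affine lines outside the boundary -/
theorem exists_ruledA {K : Type} [Field K] [Algebra ℂ K] [Algebra.EssFiniteType ℂ K] {n : ℕ}
    (hn : Algebra.trdeg ℂ K = n) {BK : Place ℂ K → Prop} (h : IsA1Uniruled ℂ K n BK) :
    ∃ (R : Type) (_ : Field R) (_ : Algebra ℂ R) (_ : Algebra K R) (_ : IsScalarTower ℂ K R)
      (_ : FiniteDimensional K R) (M1 : IntermediateField ℂ R) (t : R),
      Transcendental M1 t ∧ IntermediateField.adjoin M1 {t} = ⊤ ∧
      ∀ w : Place ℂ R, (∀ m : M1, m ≠ 0 → w.ord (m : R) = 0) → w.Reg t →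
        ∀ (P : Place ℂ K) (e : ℕ), Over w P e → ¬ BK P := by
  obtain ⟨M, _, _, f, hM, htr, hf⟩ := h
  let _ : Algebra K (RatFunc M) := f.toRingHom.toAlgebra
  have t1 : IsScalarTower ℂ K (RatFunc M) := IsScalarTower.of_algebraMap_eq fun c => by
    change _ = f (algebraMap ℂ K c)
    rw [f.commutes]
  have hFF : IsFF M (RatFunc M) := by
    refine IsFF.of_finite (f := (RatFunc.X : RatFunc M)) RatFunc.transcendental_X ?_
    rw [RatFunc.adjoin_X]
    exact Module.Finite.of_surjective (Algebra.linearMap (⊤ : IntermediateField M (RatFunc M))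
      (RatFunc M)) fun z => ⟨⟨z, trivial⟩, rfl⟩
  have hess0 : Algebra.EssFiniteType M (RatFunc M) := hFF.ess
  have hessR : Algebra.EssFiniteType ℂ (RatFunc M) := Algebra.EssFiniteType.comp ℂ M (RatFunc M)
  have hR : Algebra.trdeg ℂ (RatFunc M) = n := by
    rw [← _root_.trdeg_add_eq ℂ M (A := RatFunc M), hFF.trdeg]
    exact htr
  obtain ⟨y, -, hy, -⟩ := exists_crd hn
  have hyR : AlgebraicIndependent ℂ (fun i => f (y i)) := hy.1.map' f.injective
  have hyb : IsTranscendenceBasis ℂ (fun i => f (y i)) := by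
    refine hyR.isTranscendenceBasis_of_lift_trdeg_le_of_finite ?_
    rw [hR]
    simp
  have halg : Algebra.IsAlgebraic K (RatFunc M) := by
    have h1 : Algebra.IsAlgebraic (IntermediateField.adjoin ℂ (Set.range fun i => f (y i)))
      (RatFunc M) := hyb.isAlgebraic_field
    refine ⟨fun z => ?_⟩
    have h2 := h1.isAlgebraic z
    have hle : IntermediateField.adjoin ℂ (Set.range fun i => f (y i)) ≤ f.fieldRange := by
      rw [adjoin_le_iff]
      rintro _ ⟨i, rfl⟩
      exact ⟨y i, rfl⟩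
    let e : K ≃ₐ[ℂ] f.fieldRange := AlgEquiv.ofInjectiveField f
    let g : IntermediateField.adjoin ℂ (Set.range fun i => f (y i)) →+* K :=
      (e.symm : f.fieldRange →+* K).comp (inclusion hle).toRingHom
    refine h2.ringHom_of_comp_eq g (RingHom.id _) g.injective ?_
    ext w
    change f (e.symm (inclusion hle w)) = (w : RatFunc M)
    have h3 : e (e.symm (inclusion hle w)) = inclusion hle w := e.apply_symm_apply _
    exact congrArg Subtype.val h3
  have hfd : FiniteDimensional K (RatFunc M) := by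
    have h1 : Algebra.EssFiniteType K (RatFunc M) := Algebra.EssFiniteType.of_comp ℂ K (RatFunc M)
    obtain ⟨s, hs⟩ := IntermediateField.fg_top K (RatFunc M)
    have h2 : FiniteDimensional K (IntermediateField.adjoin K (s : Set (RatFunc M))) :=
      IntermediateField.finiteDimensional_adjoin fun x _ => (halg.isAlgebraic x).isIntegral
    rw [hs] at h2
    exact h2.equiv IntermediateField.topEquiv.toLinearEquiv
  let φ : M →ₐ[ℂ] RatFunc M := IsScalarTower.toAlgHom ℂ M (RatFunc M)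
  let M' : IntermediateField ℂ (RatFunc M) := φ.fieldRange
  let _ : Algebra M M' := (φ.rangeRestrict : M →ₐ[ℂ] φ.range).toRingHom.toAlgebra
  have t2 : IsScalarTower M M' (RatFunc M) := IsScalarTower.of_algebraMap_eq fun c => rfl
  have hsurj : Function.Surjective (algebraMap M M') := φ.rangeRestrict_surjective
  refine ⟨RatFunc M, inferInstance, inferInstance, inferInstance, t1, hfd, M', RatFunc.X,
    ?_, ?_, ?_⟩
  · intro h
    apply RatFunc.transcendental_X (K := M)
    have h1 : Algebra.IsAlgebraic M M' := ⟨fun z => by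
      obtain ⟨y, rfl⟩ := hsurj z
      exact isAlgebraic_algebraMap y⟩
    exact h.restrictScalars M
  · rw [eq_top_iff]
    intro z _
    have h1 : z ∈ IntermediateField.adjoin M {(RatFunc.X : RatFunc M)} := by
      rw [RatFunc.adjoin_X]; trivial
    have h2 : IntermediateField.adjoin M {(RatFunc.X : RatFunc M)} ≤
        (IntermediateField.adjoin M' {(RatFunc.X : RatFunc M)}).restrictScalars M := by
      rw [adjoin_simple_le_iff, mem_restrictScalars]
      exact mem_adjoin_simple_self M' _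
    exact h2 h1
  · intro w hw hwt P e hP
    obtain ⟨u, -, hu⟩ := w.surj
    obtain ⟨v, a, ha, hv⟩ := Pool.Agent.W619.Y.exists_restrict (k := M) w
      (RingHom.id (RatFunc M)) (fun c hc => by
        change w.ord (algebraMap M (RatFunc M) c) = 0
        refine hw ⟨algebraMap M (RatFunc M) c, ⟨c, rfl⟩⟩ fun h0 => hc ?_
        have h1 := congrArg (fun z : M' => (z : RatFunc M)) h0
        have h2 : algebraMap M (RatFunc M) c = 0 := h1
        exact (map_eq_zero _).1 h2) (f0 := u) (by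
        rw [RingHom.id_apply, hu]
        exact one_ne_zero)
    have ha1 : a = 1 := by
      have h1 := hv u
      rw [RingHom.id_apply, hu] at h1
      have h2 : (a : ℤ) ∣ 1 := Dvd.intro _ h1.symm
      have h3 := Int.natAbs_dvd_natAbs.2 h2
      simpa using h3
    subst ha1
    have hv' : ∀ z, v.ord z = w.ord z := fun z => by
      have h1 := hv z
      rw [RingHom.id_apply, Nat.cast_one, one_mul] at h1
      exact h1.symm
    refine hf v ?_ P e hP.1 fun z => ?_
    · rcases hwt with h0 | h0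
      · exact Or.inl h0
      · right
        rw [hv']
        exact h0
    · rw [hv']
      exact hP.2 z

/-- dimensions -/
theorem pack_dim {L κ : Type} [Field L] [Algebra ℂ L] [Field κ] [Algebra ℂ κ] (φ : L →ₐ[ℂ] κ)
    (Λ : IntermediateField ℂ κ) (t : κ) {r : ℕ} (hr : Algebra.trdeg ℂ Λ ≤ r)
    (hL : Algebra.trdeg ℂ L = (r + 1 : ℕ)) (ht : Transcendental Λ t)
    (h : ∀ a, φ a ∈ Λ⟮t⟯) : Algebra.trdeg ℂ Λ + 1 = ((r + 1 : ℕ) : Cardinal) := by
  let ψ : L →ₐ[ℂ] Λ⟮t⟯ :=
    { toFun := fun a => ⟨φ a, h a⟩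
      map_one' := Subtype.ext (map_one φ)
      map_mul' := fun a b => Subtype.ext (map_mul φ a b)
      map_zero' := Subtype.ext (map_zero φ)
      map_add' := fun a b => Subtype.ext (map_add φ a b)
      commutes' := fun c => Subtype.ext (φ.commutes c) }
  have h1 : Algebra.trdeg ℂ L ≤ Algebra.trdeg ℂ Λ⟮t⟯ :=
    _root_.trdeg_le_of_injective ψ ψ.injective
  have h2 := _root_.trdeg_add_eq ℂ Λ (A := Λ⟮t⟯)
  have h3 : Algebra.trdeg Λ Λ⟮t⟯ = 1 := by
    have e := RatFunc.algEquivOfTranscendental t ht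
    rw [← e.trdeg_eq]
    refine trdeg_simple (t := (RatFunc.X : RatFunc Λ)) RatFunc.transcendental_X ?_
    rw [RatFunc.adjoin_X]
  rw [h3] at h2
  apply le_antisymm
  · push_cast
    gcongr
  · rw [h2, ← hL]
    exact h1

section

variable {K L : Type} [Field K] [Field L] [Algebra ℂ K] [Algebra ℂ L] [Algebra K L]
  [IsScalarTower ℂ K L] [FiniteDimensional K L] [Algebra.EssFiniteType ℂ K]

/-- **Lifting the affine lines**, when the functions on the base are known to be constant along all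
the lifts. -/
theorem cover_core {n : ℕ} (hn : Algebra.trdeg ℂ K = n) {BK : Place ℂ K → Prop}
    {G : Set L} (hG : IntermediateField.adjoin K G = ⊤) {U : IntermediateField ℂ L}
    (hU : IntermediateField.adjoin ℂ G = U)
    (h : IsA1Uniruled ℂ K n BK)
    (hconst : ∀ (R Ω : Type) [Field R] [Field Ω] [Algebra ℂ R] [Algebra ℂ Ω] [Algebra K R]
      [Algebra K Ω] [Algebra L Ω] [Algebra R Ω] [IsScalarTower ℂ K R] [IsScalarTower ℂ K Ω]
      [IsScalarTower ℂ L Ω] [IsScalarTower ℂ R Ω] [IsScalarTower K L Ω] [IsScalarTower K R Ω]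
      [FiniteDimensional K Ω] [IsGalois K Ω] (M : IntermediateField ℂ R) (t : R),
      Transcendental M t → IntermediateField.adjoin M {t} = ⊤ →
      (∀ w : Place ℂ R, (∀ m : M, m ≠ 0 → w.ord (m : R) = 0) → w.Reg t →
        ∀ (P : Place ℂ K) (e : ℕ), Over w P e → ¬ BK P) →
      ∀ D0 : Derivation ℂ R R, D0 t = 1 → (∀ μ : M, D0 (μ : R) = 0) →
      ∀ DΩ : Derivation ℂ Ω Ω, (∀ z, DΩ (algebraMap R Ω z) = algebraMap R Ω (D0 z)) →
      ∀ u ∈ G, DΩ (algebraMap L Ω u) = 0) :
    A1Over U n (fun Q => ∃ (P : Place ℂ K) (e : ℕ), Over Q P e ∧ BK P) := by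
  classical
  obtain ⟨R, _, _, _, _, _, M1, t, ht, htop, hA⟩ := exists_ruledA hn h
  obtain ⟨Ω, _, _, _, _, _, t1, t2, t3, t4, t5, hfin, hgal⟩ :=
    Pool.Agent.U393.UT.exists_common (K := K) (L := L) (R := R)
  have hnR : Algebra.trdeg ℂ R = n := trdeg_up (K := K) hn
  have hfR : FiniteDimensional R Ω := FiniteDimensional.right K R Ω
  obtain ⟨-, E, i0, -, -, -, -, hE0M, hEt, -⟩ := Pool.Agent.R882.UA.frame (k := ℂ) hnR ht htop
  obtain ⟨DΩ, hDΩ⟩ := exists_lift (K := R) (L := Ω) hnR (E i0)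
  have hGC : ∀ u ∈ G, algebraMap L Ω u ∈ Cf DΩ :=
    hconst R Ω M1 t ht htop hA (E i0) hEt hE0M DΩ hDΩ
  have hUC : ∀ u ∈ U, algebraMap L Ω u ∈ Cf DΩ := by
    intro u hu
    have h1 : IntermediateField.adjoin ℂ G ≤
        (Cf DΩ).comap (IsScalarTower.toAlgHom ℂ L Ω) := by
      rw [IntermediateField.adjoin_le_iff]
      exact hGC
    rw [hU] at h1
    exact h1 hu
  obtain ⟨t', ht'⟩ : ∃ t', t' = algebraMap R Ω t := ⟨_, rfl⟩
  have hDt : DΩ t' = 1 := by rw [ht', hDΩ, hEt, map_one]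
  have htr : Transcendental (Cf DΩ) t' := trans_Cf hDt
  have hnΩ : Algebra.trdeg ℂ Ω = n := trdeg_up (K := K) hn
  have hΩe : Algebra.EssFiniteType ℂ Ω := by
    have h1 : Algebra.EssFiniteType K Ω := inferInstance
    exact Algebra.EssFiniteType.comp ℂ K Ω
  have hess : Algebra.EssFiniteType ℂ (Cf DΩ) := Pool.Agent.N999.SX.ess_any (Cf DΩ)
  obtain ⟨r, rfl⟩ : ∃ r, n = r + 1 := by
    obtain ⟨M, _, _, -, -, h2, -⟩ := h
    cases n with
    | zero =>
      exfalso
      rw [Nat.cast_zero] at h2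
      have h3 : (1 : Cardinal) ≤ 0 := by
        rw [← h2]
        exact le_add_self
      exact absurd h3 (by simp)
    | succ r => exact ⟨r, rfl⟩
  have hr : Algebra.trdeg ℂ (Cf DΩ) ≤ r := by
    have h1 := _root_.trdeg_add_eq ℂ (Cf DΩ) (A := Ω)
    have h2 : (1 : Cardinal) ≤ Algebra.trdeg (Cf DΩ) Ω := by
      have h3 : AlgebraicIndependent (Cf DΩ) (fun _ : Unit => t') := by
        rw [algebraicIndependent_unique_type_iff]
        exact htr
      have h4 := h3.cardinalMk_le_trdeg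
      simpa using h4
    rw [hnΩ] at h1
    obtain ⟨a, ha⟩ := Cardinal.lt_aleph0.1 (lt_of_le_of_lt (le_self_add.trans h1.le)
      (Cardinal.natCast_lt_aleph0 (n := r + 1)))
    obtain ⟨b, hb⟩ := Cardinal.lt_aleph0.1 (lt_of_le_of_lt (le_add_self.trans h1.le)
      (Cardinal.natCast_lt_aleph0 (n := r + 1)))
    rw [ha, hb] at h1
    rw [hb] at h2
    have h5 : a + b = r + 1 := by exact_mod_cast h1
    have h6 : 1 ≤ b := by exact_mod_cast h2
    rw [ha]
    have : a ≤ r := by omega
    exact_mod_cast this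
  have hL : Algebra.trdeg ℂ L = (r + 1 : ℕ) := trdeg_up (K := K) hn
  have hKC : ∀ z : R, algebraMap R Ω z ∈ (Cf DΩ)⟮t'⟯ := by
    intro z
    rw [ht']
    exact mem_ruled htop (fun m => by rw [mem_Cf, hDΩ, hE0M, map_zero]) z
  have hmem : ∀ a : L, algebraMap L Ω a ∈ (Cf DΩ)⟮t'⟯ := by
    have h1 : ∀ a ∈ IntermediateField.adjoin K G, algebraMap L Ω a ∈ (Cf DΩ)⟮t'⟯ := by
      intro a ha
      refine IntermediateField.adjoin_induction K
        (p := fun z _ => algebraMap L Ω z ∈ (Cf DΩ)⟮t'⟯) ?_ ?_ ?_ ?_ ?_ ha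
      · intro u hu
        exact (Cf DΩ)⟮t'⟯.algebraMap_mem ⟨_, hGC u hu⟩
      · intro c
        rw [← IsScalarTower.algebraMap_apply K L Ω, IsScalarTower.algebraMap_apply K R Ω]
        exact hKC _
      · intro a b _ _ ha hb
        rw [map_add]
        exact add_mem ha hb
      · intro a _ ha
        rw [map_inv₀]
        exact inv_mem ha
      · intro a b _ _ ha hb
        rw [map_mul]
        exact mul_mem ha hb
    rw [hG] at h1
    exact fun a => h1 a trivial
  have hdim := pack_dim (IsScalarTower.toAlgHom ℂ L Ω) (Cf DΩ) t' hr hL htr hmem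
  let e := RatFunc.algEquivOfTranscendental t' htr
  let ψL : L →ₐ[ℂ] (Cf DΩ)⟮t'⟯ :=
    { toFun := fun a => ⟨algebraMap L Ω a, hmem a⟩
      map_one' := Subtype.ext (map_one (algebraMap L Ω))
      map_mul' := fun a b => Subtype.ext (map_mul (algebraMap L Ω) a b)
      map_zero' := Subtype.ext (map_zero (algebraMap L Ω))
      map_add' := fun a b => Subtype.ext (map_add (algebraMap L Ω) a b)
      commutes' := fun c => Subtype.ext (by
        change algebraMap L Ω (algebraMap ℂ L c) = algebraMap ℂ Ω c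
        rw [← IsScalarTower.algebraMap_apply ℂ L Ω]) }
  let ψR : R →+* (Cf DΩ)⟮t'⟯ :=
    { toFun := fun a => ⟨algebraMap R Ω a, hKC a⟩
      map_one' := Subtype.ext (map_one (algebraMap R Ω))
      map_mul' := fun a b => Subtype.ext (map_mul (algebraMap R Ω) a b)
      map_zero' := Subtype.ext (map_zero (algebraMap R Ω))
      map_add' := fun a b => Subtype.ext (map_add (algebraMap R Ω) a b) }
  let φL : L →ₐ[ℂ] RatFunc (Cf DΩ) :=
    ((e.symm.restrictScalars ℂ : (Cf DΩ)⟮t'⟯ ≃ₐ[ℂ] RatFunc (Cf DΩ)) :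
      (Cf DΩ)⟮t'⟯ →ₐ[ℂ] RatFunc (Cf DΩ)).comp ψL
  let φR : R →+* RatFunc (Cf DΩ) :=
    ((e.symm : (Cf DΩ)⟮t'⟯ ≃+* RatFunc (Cf DΩ)) : (Cf DΩ)⟮t'⟯ →+* RatFunc (Cf DΩ)).comp ψR
  have hcompat : ∀ z : K, φR (algebraMap K R z) = φL (algebraMap K L z) := by
    intro z
    change e.symm (ψR (algebraMap K R z)) = e.symm (ψL (algebraMap K L z))
    congr 1
    apply Subtype.ext
    change algebraMap R Ω (algebraMap K R z) = algebraMap L Ω (algebraMap K L z)
    rw [← IsScalarTower.algebraMap_apply K R Ω, ← IsScalarTower.algebraMap_apply K L Ω]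
  have hφM : ∀ (m : R) (hm : algebraMap R Ω m ∈ Cf DΩ), φR m =
      algebraMap (Cf DΩ) (RatFunc (Cf DΩ)) ⟨_, hm⟩ := by
    intro m hm
    change e.symm (ψR m) = _
    rw [← e.symm.commutes]
    rfl
  have hφt : φR t = RatFunc.X := by
    change e.symm (ψR t) = _
    rw [AlgEquiv.symm_apply_eq]
    apply Subtype.ext
    change algebraMap R Ω t = _
    rw [← ht']
    exact (RatFunc.algEquivOfTranscendental_X t' htr).symm
  refine ⟨Cf DΩ, inferInstance, inferInstance, φL, hess, hdim, fun z hz => ⟨⟨_, hUC z hz⟩, ?_⟩,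
    ?_⟩
  · change _ = e.symm (ψL z)
    rw [← e.symm.commutes]
    rfl
  · rintro w hwX Q c hc hwQ ⟨P, c', hQP, hBP⟩
    have hKw : ∀ z : K, w.ord (φR (algebraMap K R z)) = (c * c' : ℕ) * P.ord z := by
      intro z
      rw [hcompat, hwQ, hQP.2]
      push_cast
      ring
    obtain ⟨u, -, hu⟩ := P.surj
    have hpos : 0 < c * c' := Nat.mul_pos hc hQP.1
    obtain ⟨wR, a, ha, hwR⟩ := Pool.Agent.W619.Y.exists_restrict (k := ℂ) w φR
      (fun z hz => by
        have h1 : algebraMap R Ω (algebraMap ℂ R z) ∈ Cf DΩ := by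
          rw [← IsScalarTower.algebraMap_apply ℂ R Ω]
          exact (Cf DΩ).algebraMap_mem z
        rw [hφM _ h1]
        refine w.ord_const fun h2 => hz ?_
        have h3 : algebraMap R Ω (algebraMap ℂ R z) = 0 := congrArg Subtype.val h2
        exact (map_eq_zero _).1 ((map_eq_zero _).1 h3)) (f0 := algebraMap K R u) (by
        rw [hKw, hu, mul_one]
        exact_mod_cast hpos.ne')
    -- the place of `R`
    have ha' : (0 : ℤ) < a := by exact_mod_cast ha
    have hRP : ∀ z : K, (a : ℤ) * wR.ord (algebraMap K R z) = (c * c' : ℕ) * P.ord z := by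
      intro z
      rw [← hwR, hKw]
    have h4 := hRP u
    rw [hu, mul_one] at h4
    have h5 : 0 < wR.ord (algebraMap K R u) := by
      have h6 : (0 : ℤ) < (c * c' : ℕ) := by exact_mod_cast hpos
      rw [← h4] at h6
      exact (mul_pos_iff_of_pos_left ha').1 h6
    obtain ⟨e', he'⟩ : ∃ e' : ℕ, (e' : ℤ) = wR.ord (algebraMap K R u) :=
      ⟨_, Int.toNat_of_nonneg h5.le⟩
    refine hA wR (fun m hm => ?_) ?_ P e' ⟨by omega, fun z => ?_⟩ hBP
    · have h1 : algebraMap R Ω (m : R) ∈ Cf DΩ := by rw [mem_Cf, hDΩ, hE0M, map_zero]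
      have h2 := hwR (m : R)
      rw [hφM _ h1, w.ord_const (fun h2 => hm (Subtype.ext ((map_eq_zero _).1
        (congrArg Subtype.val h2 : algebraMap R Ω (m : R) = 0))))] at h2
      rcases mul_eq_zero.1 h2.symm with h3 | h3
      · exact absurd h3 ha'.ne'
      · exact h3
    · right
      have h1 := hwR t
      rw [hφt] at h1
      rcases hwX with h2 | h2
      · exact absurd h2 RatFunc.X_ne_zero
      · rw [h1] at h2
        exact nonneg_of_mul_nonneg_right h2 ha'
    · have h6 := hRP z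
      rw [← h4, ← he', mul_assoc] at h6
      exact mul_left_cancel₀ ha'.ne' h6

/-- **Lifting the affine lines.** -/
theorem cover_a1 {k n : ℕ} (hn : Algebra.trdeg ℂ K = n)
    {F : Fin k → IntermediateField ℂ L} {m g : Fin k → ℕ}
    [∀ i, Algebra.EssFiniteType ℂ (F i)] (hm : ∀ i, Algebra.trdeg ℂ (F i) = m i)
    {x : ∀ i, Fin (m i) → F i} (hx : ∀ i, IsTranscendenceBasis ℂ (x i))
    {BX : ∀ i, Place ℂ (F i) → Prop} (hsep : ∀ i, SepX (x i) (BX i) (g i))
    (hdeg : ∀ i, degF F K i < g i) {BK : Place ℂ K → Prop}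
    (hcomp : ∀ (P : Place ℂ K) (Q : Place ℂ L) (e : ℕ), Over Q P e →
      ∀ i (S : Place ℂ (F i)) (e' : ℕ), BX i S → Over Q S e' → BK P)
    (hgen : IntermediateField.adjoin K (⋃ i, (F i : Set L)) = ⊤) (h : IsA1Uniruled ℂ K n BK) :
    A1Over (⨆ i, F i) n (fun Q => ∃ (P : Place ℂ K) (e : ℕ), Over Q P e ∧ BK P) := by
  refine cover_core hn (G := ⋃ i, (F i : Set L)) hgen ?_ h ?_
  · apply le_antisymm
    · rw [IntermediateField.adjoin_le_iff]
      intro z hz
      obtain ⟨i, hi⟩ := Set.mem_iUnion.1 hz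
      exact le_iSup F i hi
    · refine iSup_le fun i z hz => ?_
      exact IntermediateField.subset_adjoin _ _ (Set.mem_iUnion.2 ⟨i, hz⟩)
  · intro R Ω _ _ _ _ _ _ _ _ _ _ _ _ _ _ _ _ M t ht htop hA D0 hDt hDM DΩ hDΩ u hu
    obtain ⟨i, hi⟩ := Set.mem_iUnion.1 hu
    exact tower_const hn hm hx hsep hdeg hcomp ht htop hA hDt hDM hDΩ i u hi

end

end Pool.Agent.U393.LT
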