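import Pool.Agent.U393.UT.Cut
import Pool.Agent.U393.LT.Cover

/-!
Specialisation: an open variety over `ℂ` which is covered by affine lines after an extension of the
ground field is covered by affine lines.
-/

set_option autoImplicit false
set_option linter.overlappingInstances false
set_option linter.unusedSectionVars false
set_option maxHeartbeats 4000000
set_option synthInstance.maxHeartbeats 400000

open IntermediateField

namespace Pool.Agent.U393.LT

open Pool.Agent.U393.UT (dominate mem_of_int mem_of_smul trdeg_le_of_alg)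

open scoped Classical in
/-- the coefficients of a polynomial over a subfield -/
noncomputable def cf {E : Type} [Field E] [Algebra ℂ E] {C0 : IntermediateField ℂ E} (P : Polynomial C0) :
    Finset E :=
  P.support.image fun i => ((P.coeff i : C0) : E)

theorem mem_cf {E : Type} [Field E] [Algebra ℂ E] {C0 : IntermediateField ℂ E} {P : Polynomial C0}
    {z : E} : z ∈ cf P ↔ ∃ i, P.coeff i ≠ 0 ∧ ((P.coeff i : C0) : E) = z := by
  classical
  unfold cf
  rw [Finset.mem_image]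
  constructor
  · rintro ⟨i, hi, rfl⟩
    exact ⟨i, Polynomial.mem_support_iff.1 hi, rfl⟩
  · rintro ⟨i, hi, rfl⟩
    exact ⟨i, Polynomial.mem_support_iff.2 hi, rfl⟩

/-- **Specialisation.** -/
theorem cutA {E : Type} [Field E] [Algebra ℂ E] (T C0 : IntermediateField ℂ E) (t : E) {d r s : ℕ}
    (u : Fin d → E) (v : Fin r → E) [Algebra.EssFiniteType ℂ T]
    (hT : Algebra.trdeg ℂ T = (r + 1 : ℕ))
    (hC : ∀ z ∈ C0, IsAlgebraic (Algebra.adjoin ℂ (Set.range u ∪ Set.range v)) z)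
    (hTC : ∀ z ∈ T, z ∈ C0⟮t⟯) (hu : AlgebraicIndependent T u)
    (hE : ∀ z : E, IsAlgebraic (Algebra.adjoin T (Set.range u)) z)
    (A : Fin s → Finset T) (Q R : Fin s → Polynomial C0) (N : Fin s → T → Polynomial C0)
    (hQ : ∀ j, Polynomial.aeval t (Q j) ≠ 0)
    (hN : ∀ j, ∀ a ∈ A j, (a : E) * Polynomial.aeval t (Q j) = Polynomial.aeval t (N j a))
    (hR : ∑ j, R j * Q j = 1) :
    ∃ (M : Type) (_ : Field M) (_ : Algebra ℂ M), Algebra.EssFiniteType ℂ M ∧
      Algebra.trdeg ℂ M + 1 = ((r + 1 : ℕ) : Cardinal) ∧ ∃ φ : T →ₐ[ℂ] RatFunc M,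
      ∀ w : FF.Place M (RatFunc M), w.Reg RatFunc.X → ∃ j, ∀ a ∈ A j, w.Reg (φ a) := by
  classical
  -- generators of `T`
  obtain ⟨S, hS⟩ := IntermediateField.fg_top ℂ T
  have hpq : ∀ y : T, ∃ p q : Polynomial C0, (y : E) = Polynomial.aeval t p / Polynomial.aeval t q :=
    fun y => (mem_adjoin_simple_iff (F := C0) (y : E)).1 (hTC y y.2)
  choose p q hpq using hpq
  let X0 : Finset E := (S.biUnion fun y => cf (p y) ∪ cf (q y)) ∪
    (Finset.univ.biUnion fun j => (cf (Q j) ∪ cf (R j)) ∪ (A j).biUnion fun a => cf (N j a))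
  have hcfC : ∀ (P : Polynomial C0) (z : E), z ∈ cf P → z ∈ C0 := by
    intro P z hz
    obtain ⟨i, -, rfl⟩ := mem_cf.1 hz
    exact (P.coeff i).2
  have hX0 : ∀ z ∈ X0, z ∈ C0 := by
    intro z hz
    rw [Finset.mem_union, Finset.mem_biUnion, Finset.mem_biUnion] at hz
    rcases hz with ⟨y, -, hz⟩ | ⟨j, -, hz⟩
    · rw [Finset.mem_union] at hz
      rcases hz with hz | hz
      · exact hcfC _ _ hz
      · exact hcfC _ _ hz
    · rw [Finset.mem_union, Finset.mem_union, Finset.mem_biUnion] at hz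
      rcases hz with (hz | hz) | ⟨a, -, hz⟩
      · exact hcfC _ _ hz
      · exact hcfC _ _ hz
      · exact hcfC _ _ hz
  have hpX : ∀ y ∈ S, cf (p y) ⊆ X0 := fun y hy z hz => Finset.mem_union_left _
    (Finset.mem_biUnion.2 ⟨y, hy, Finset.mem_union_left _ hz⟩)
  have hqX : ∀ y ∈ S, cf (q y) ⊆ X0 := fun y hy z hz => Finset.mem_union_left _
    (Finset.mem_biUnion.2 ⟨y, hy, Finset.mem_union_right _ hz⟩)
  have hQX : ∀ j, cf (Q j) ⊆ X0 := fun j z hz => Finset.mem_union_right _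
    (Finset.mem_biUnion.2 ⟨j, Finset.mem_univ j, Finset.mem_union_left _
      (Finset.mem_union_left _ hz)⟩)
  have hRX : ∀ j, cf (R j) ⊆ X0 := fun j z hz => Finset.mem_union_right _
    (Finset.mem_biUnion.2 ⟨j, Finset.mem_univ j, Finset.mem_union_left _
      (Finset.mem_union_right _ hz)⟩)
  have hNX : ∀ j, ∀ a ∈ A j, cf (N j a) ⊆ X0 := fun j a ha z hz => Finset.mem_union_right _
    (Finset.mem_biUnion.2 ⟨j, Finset.mem_univ j, Finset.mem_union_right _
      (Finset.mem_biUnion.2 ⟨a, ha, hz⟩)⟩)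
  let R1 : Subalgebra ℂ E := Algebra.adjoin ℂ (Set.range u ∪ Set.range v)
  have hb : ∀ z : E, ∃ b : R1, z ∈ X0 → (b ≠ 0 ∧ IsIntegral R1 (b • z)) := by
    intro z
    by_cases hz : z ∈ X0
    · obtain ⟨b, h1, h2⟩ := (hC z (hX0 z hz)).exists_integral_multiple
      exact ⟨b, fun _ => ⟨h1, h2⟩⟩
    · exact ⟨0, fun h => absurd h hz⟩
  choose b hb using hb
  let X1 : Finset E := X0 ∪ (Finset.univ.image v) ∪ (X0.image fun z => ((b z : E))⁻¹) ∪ {t} ∪
    ((S.image fun y => (Polynomial.aeval t (q y))⁻¹) ∪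
      (Finset.univ.image fun j => (Polynomial.aeval t (Q j))⁻¹))
  let R2 : Subalgebra T E := Algebra.adjoin T (Set.range u)
  have hR2 : Algebra.IsAlgebraic R2 E := ⟨hE⟩
  obtain ⟨g, hg0, hg⟩ := Algebra.IsAlgebraic.exists_integral_multiples R2 X1
  have hg0' : (g : E) ≠ 0 := fun h => hg0 (Subtype.ext h)
  -- the polynomial
  obtain ⟨G, hG⟩ : ∃ G : MvPolynomial (Fin d) T, MvPolynomial.aeval u G = (g : E) := by
    have h1 : (g : E) ∈ (MvPolynomial.aeval u : MvPolynomial (Fin d) T →ₐ[T] E).range := by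
      rw [← Algebra.adjoin_range_eq_range_aeval]
      exact g.2
    exact h1
  have hG0 : G ≠ 0 := by
    rintro rfl
    rw [map_zero] at hG
    exact hg0' hG.symm
  obtain ⟨c, hc⟩ : ∃ c : Fin d → ℂ, MvPolynomial.eval (fun i => algebraMap ℂ T (c i)) G ≠ 0 := by
    by_contra hcon
    push Not at hcon
    apply hG0
    refine MvPolynomial.funext_set (fun _ : Fin d => Set.range (algebraMap ℂ T)) (fun i => ?_)
      (p := G) (q := 0) fun x hx => ?_
    · exact Set.infinite_range_of_injective (algebraMap ℂ T).injective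
    · have h1 : ∀ i, ∃ c, algebraMap ℂ T c = x i := fun i => hx i trivial
      choose c hc using h1
      have h2 : x = fun i => algebraMap ℂ T (c i) := funext fun i => (hc i).symm
      rw [h2, hcon c, map_zero]
  -- the valuation ring
  let J : Ideal (MvPolynomial (Fin d) T) :=
    RingHom.ker (MvPolynomial.eval (fun i => algebraMap ℂ T (c i)))
  obtain ⟨V, hV1, hV2⟩ := dominate
    (MvPolynomial.aeval u : MvPolynomial (Fin d) T →ₐ[T] E).toRingHom hu J
    (RingHom.ker_ne_top _)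
  have hV1 : ∀ P : MvPolynomial (Fin d) T, MvPolynomial.aeval u P ∈ V := hV1
  have hV2 : ∀ P : MvPolynomial (Fin d) T,
      MvPolynomial.eval (fun i => algebraMap ℂ T (c i)) P = 0 →
      MvPolynomial.aeval u P ∈ V.nonunits := fun P hP => hV2 P hP
  have hTV : ∀ z : T, (z : E) ∈ V := by
    intro z
    have h1 := hV1 (MvPolynomial.C z)
    rw [MvPolynomial.aeval_C] at h1
    exact h1
  have hkV : ∀ z : ℂ, algebraMap ℂ E z ∈ V := fun z => hTV (algebraMap ℂ T z)
  have huV : ∀ i, u i ∈ V := by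
    intro i
    have h1 := hV1 (MvPolynomial.X i)
    rwa [MvPolynomial.aeval_X] at h1
  have hR2V : ∀ x ∈ R2, x ∈ V := by
    intro x hx
    have h1 : x ∈ (MvPolynomial.aeval u : MvPolynomial (Fin d) T →ₐ[T] E).range := by
      rw [← Algebra.adjoin_range_eq_range_aeval]
      exact hx
    obtain ⟨P, rfl⟩ := h1
    exact hV1 P
  have hgV : ((g : E))⁻¹ ∈ V := by
    let a : T := MvPolynomial.eval (fun i => algebraMap ℂ T (c i)) G
    have ha : a ≠ 0 := hc
    have h1 : MvPolynomial.aeval u (G - MvPolynomial.C a) ∈ V.nonunits := by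
      apply hV2
      rw [map_sub, MvPolynomial.eval_C, sub_self]
    rw [map_sub, hG, MvPolynomial.aeval_C] at h1
    change (g : E) - (a : E) ∈ V.nonunits at h1
    have ha0 : (a : E) ≠ 0 := fun h => ha (Subtype.ext h)
    have h2 : V.valuation (a : E) = 1 := by
      have h3 : V.valuation (a : E) ≤ 1 := (V.valuation_le_one_iff _).2 (hTV a)
      have h4 : V.valuation ((a : E))⁻¹ ≤ 1 := by
        refine (V.valuation_le_one_iff _).2 ?_
        exact hTV (a⁻¹)
      rw [map_inv₀] at h4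
      refine le_antisymm h3 ?_
      have h5 : V.valuation (a : E) ≠ 0 := (Valuation.ne_zero_iff _).2 ha0
      exact (inv_le_one₀ (zero_lt_iff.2 h5)).1 h4
    rw [ValuationSubring.mem_nonunits_iff] at h1
    have h3 : V.valuation (g : E) = 1 := by
      have h4 : (g : E) = ((g : E) - (a : E)) + (a : E) := by ring
      rw [h4, Valuation.map_add_eq_of_lt_right, h2]
      rw [h2]
      exact h1
    rw [← V.valuation_le_one_iff, map_inv₀, h3, inv_one]
  have hX1V : ∀ z ∈ X1, z ∈ V := fun z hz => mem_of_smul V R2 hR2V hgV (hg z hz) hg0'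
  have hX0V : ∀ z ∈ X0, z ∈ V := fun z hz => hX1V z (by
    simp only [X1, Finset.mem_union]
    exact Or.inl (Or.inl (Or.inl (Or.inl hz))))
  have hvV : ∀ i, v i ∈ V := fun i => hX1V _ (by
    simp only [X1, Finset.mem_union]
    exact Or.inl (Or.inl (Or.inl (Or.inr (Finset.mem_image_of_mem v (Finset.mem_univ i))))))
  have hbV : ∀ z ∈ X0, ((b z : E))⁻¹ ∈ V := fun z hz => hX1V _ (by
    simp only [X1, Finset.mem_union]
    exact Or.inl (Or.inl (Or.inr (Finset.mem_image_of_mem _ hz))))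
  have htV : t ∈ V := hX1V _ (by
    simp only [X1, Finset.mem_union]
    exact Or.inl (Or.inr (Finset.mem_singleton_self t)))
  have hqV : ∀ y ∈ S, (Polynomial.aeval t (q y))⁻¹ ∈ V := fun y hy => hX1V _ (by
    simp only [X1, Finset.mem_union]
    exact Or.inr (Or.inl (Finset.mem_image_of_mem _ hy)))
  have hQV : ∀ j, (Polynomial.aeval t (Q j))⁻¹ ∈ V := fun j => hX1V _ (by
    simp only [X1, Finset.mem_union]
    exact Or.inr (Or.inr (Finset.mem_image_of_mem (fun j => (Polynomial.aeval t (Q j))⁻¹)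
      (Finset.mem_univ j))))
  have hR1V : ∀ x ∈ R1, x ∈ V := by
    let V' : Subalgebra ℂ E :=
      { V.toSubring with
        algebraMap_mem' := fun z => hkV z }
    have h1 : R1 ≤ V' := by
      refine Algebra.adjoin_le ?_
      rintro x (⟨i, rfl⟩ | ⟨i, rfl⟩)
      · exact huV i
      · exact hvV i
    exact h1
  -- the residue field
  let κ := IsLocalRing.ResidueField V
  let ρ : V →+* κ := IsLocalRing.residue V
  let ik : ℂ →+* V :=
    { toFun := fun z => ⟨algebraMap ℂ E z, hkV z⟩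
      map_one' := Subtype.ext (map_one _)
      map_mul' := fun a b => Subtype.ext (map_mul _ a b)
      map_zero' := Subtype.ext (map_zero _)
      map_add' := fun a b => Subtype.ext (map_add _ a b) }
  let iκ : Algebra ℂ κ := (ρ.comp ik).toAlgebra
  let τ : T →ₐ[ℂ] κ :=
    { toFun := fun z => ρ ⟨z, hTV z⟩
      map_one' := (congrArg ρ (Subtype.ext rfl)).trans (map_one ρ)
      map_mul' := fun a b => (congrArg ρ (Subtype.ext rfl)).trans (map_mul ρ ⟨a, hTV a⟩ ⟨b, hTV b⟩)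
      map_zero' := (congrArg ρ (Subtype.ext rfl)).trans (map_zero ρ)
      map_add' := fun a b => (congrArg ρ (Subtype.ext rfl)).trans (map_add ρ ⟨a, hTV a⟩ ⟨b, hTV b⟩)
      commutes' := fun z => rfl }
  have hρ0 : ∀ (x : E) (h : x ∈ V), x ∈ V.nonunits → ρ ⟨x, h⟩ = 0 := by
    intro x h hx
    rw [IsLocalRing.residue_eq_zero_iff]
    exact ValuationSubring.coe_mem_nonunits_iff.1 hx
  have hρu : ∀ i, ρ ⟨u i, huV i⟩ = algebraMap ℂ κ (c i) := by
    intro i
    have h1 : u i - algebraMap ℂ E (c i) ∈ V.nonunits := by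
      have h2 := hV2 (MvPolynomial.X i - MvPolynomial.C (algebraMap ℂ T (c i))) (by
        rw [map_sub, MvPolynomial.eval_C, MvPolynomial.eval_X, sub_self])
      rw [map_sub, MvPolynomial.aeval_X, MvPolynomial.aeval_C] at h2
      exact h2
    have h2 := hρ0 _ (V.nonunits_subset h1) h1
    have h3 : (⟨u i - algebraMap ℂ E (c i), V.nonunits_subset h1⟩ : V) = ⟨u i, huV i⟩ - ik (c i) :=
      Subtype.ext rfl
    rw [h3, map_sub, sub_eq_zero] at h2
    exact h2
  let v' : Fin r → κ := fun i => ρ ⟨v i, hvV i⟩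
  let Λ0 : IntermediateField ℂ κ := IntermediateField.adjoin ℂ (Set.range v')
  let Y : Finset κ := (X0.attach.image fun z : {x // x ∈ X0} => ρ ⟨z.1, hX0V z.1 z.2⟩) ∪ (Finset.univ.image v')
  let Λ : IntermediateField ℂ κ := IntermediateField.adjoin ℂ (Y : Set κ)
  have hYmem : ∀ z (h : z ∈ X0), ρ ⟨z, hX0V z h⟩ ∈ Λ := by
    intro z h
    apply IntermediateField.subset_adjoin
    rw [Finset.mem_coe, Finset.mem_union, Finset.mem_image]
    exact Or.inl ⟨⟨z, h⟩, Finset.mem_attach _ _, rfl⟩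
  have hess : Algebra.EssFiniteType ℂ Λ := by
    rw [IntermediateField.essFiniteType_iff]
    exact ⟨Y, rfl⟩
  -- `R1` is mapped to `Λ0`
  let W0 : IntermediateField ℂ κ → Subalgebra ℂ E := fun F =>
    { carrier := {x | ∃ h : x ∈ V, ρ ⟨x, h⟩ ∈ F}
      mul_mem' := by
        rintro a b ⟨ha, ha'⟩ ⟨hb, hb'⟩
        refine ⟨V.mul_mem _ _ ha hb, ?_⟩
        have h1 : (⟨a * b, V.mul_mem _ _ ha hb⟩ : V) = ⟨a, ha⟩ * ⟨b, hb⟩ := rfl
        rw [h1, map_mul]
        exact mul_mem ha' hb'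
      add_mem' := by
        rintro a b ⟨ha, ha'⟩ ⟨hb, hb'⟩
        refine ⟨V.add_mem _ _ ha hb, ?_⟩
        have h1 : (⟨a + b, V.add_mem _ _ ha hb⟩ : V) = ⟨a, ha⟩ + ⟨b, hb⟩ := rfl
        rw [h1, map_add]
        exact add_mem ha' hb'
      algebraMap_mem' := fun z => ⟨hkV z, F.algebraMap_mem z⟩ }
  have hR1W : R1 ≤ W0 Λ0 := by
    refine Algebra.adjoin_le ?_
    rintro x (⟨i, rfl⟩ | ⟨i, rfl⟩)
    · refine ⟨huV i, ?_⟩
      rw [hρu]
      exact Λ0.algebraMap_mem _
    · exact ⟨hvV i, IntermediateField.subset_adjoin _ _ ⟨i, rfl⟩⟩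
  have hR1m : ∀ x : R1, ρ ⟨(x : E), hR1V x x.2⟩ ∈ Λ0 := fun x => (hR1W x.2).2
  let G1 : R1 →+* Λ0 :=
    { toFun := fun x => ⟨ρ ⟨(x : E), hR1V x x.2⟩, hR1m x⟩
      map_one' := Subtype.ext (map_one ρ)
      map_mul' := fun a b => Subtype.ext (map_mul ρ ⟨a, hR1V a a.2⟩ ⟨b, hR1V b b.2⟩)
      map_zero' := Subtype.ext (map_zero ρ)
      map_add' := fun a b => Subtype.ext (map_add ρ ⟨a, hR1V a a.2⟩ ⟨b, hR1V b b.2⟩) }
  let G2 : R1 →+* V :=
    { toFun := fun x => ⟨(x : E), hR1V x x.2⟩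
      map_one' := rfl
      map_mul' := fun _ _ => rfl
      map_zero' := rfl
      map_add' := fun _ _ => rfl }
  have hint : ∀ (w : E) (hw : w ∈ V), IsIntegral R1 w → IsIntegral Λ0 (ρ ⟨w, hw⟩) := by
    rintro w hw ⟨P, hP, hP0⟩
    refine ⟨P.map G1, hP.map G1, ?_⟩
    have h1 : Polynomial.eval₂ G2 ⟨w, hw⟩ P = 0 := by
      apply Subtype.ext
      change V.subtype (Polynomial.eval₂ G2 ⟨w, hw⟩ P) = 0
      rw [Polynomial.hom_eval₂]
      exact hP0
    rw [Polynomial.eval₂_map]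
    have h2 := congrArg ρ h1
    rw [Polynomial.hom_eval₂, map_zero] at h2
    exact h2
  have hmul : ∀ (x y : E) (hx : x ∈ V) (hy : y ∈ V), ρ ⟨x * y, V.mul_mem _ _ hx hy⟩ =
      ρ ⟨x, hx⟩ * ρ ⟨y, hy⟩ := fun x y hx hy => map_mul ρ ⟨x, hx⟩ ⟨y, hy⟩
  have hinv : ∀ (x : E) (hx : x ∈ V) (hy : x⁻¹ ∈ V), ρ ⟨x⁻¹, hy⟩ = (ρ ⟨x, hx⟩)⁻¹ := by
    intro x hx hy
    by_cases h0 : x = 0
    · subst h0
      have h1 : (⟨(0 : E), hx⟩ : V) = 0 := rfl
      have h2 : (⟨(0 : E)⁻¹, hy⟩ : V) = 0 := Subtype.ext inv_zero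
      rw [h1, h2, map_zero, inv_zero]
    · have h1 := hmul x x⁻¹ hx hy
      have h2 : (⟨x * x⁻¹, V.mul_mem _ _ hx hy⟩ : V) = 1 := Subtype.ext (mul_inv_cancel₀ h0)
      rw [h2, map_one] at h1
      exact (eq_inv_of_mul_eq_one_right h1.symm)
  have halg : ∀ z ∈ Λ, IsAlgebraic Λ0 z := by
    have h1 : Λ ≤ (algebraicClosure Λ0 κ).restrictScalars ℂ := by
      rw [adjoin_le_iff]
      intro z hz
      rw [Finset.mem_coe, Finset.mem_union, Finset.mem_image, Finset.mem_image] at hz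
      rw [SetLike.mem_coe, mem_restrictScalars, mem_algebraicClosure_iff]
      rcases hz with ⟨⟨z, hz⟩, -, rfl⟩ | ⟨i, -, rfl⟩
      · obtain ⟨hb0, hbi⟩ := hb z hz
        have hbV' : ((b z : R1) : E) ∈ V := hR1V _ (b z).2
        have hsm : (b z • z) = (b z : E) * z := by
          rw [Algebra.smul_def]
          rfl
        rw [hsm] at hbi
        have h2 := hint _ (V.mul_mem _ _ hbV' (hX0V z hz)) hbi
        rw [hmul _ _ hbV' (hX0V z hz)] at h2
        have h3 : ρ ⟨((b z : R1) : E), hbV'⟩ ≠ 0 := by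
          intro h
          have h4 := hmul _ _ hbV' (hbV z hz)
          have h5 : (⟨((b z : R1) : E) * ((b z : R1) : E)⁻¹, V.mul_mem _ _ hbV' (hbV z hz)⟩ : V) =
              1 := Subtype.ext (mul_inv_cancel₀ (fun h => hb0 (Subtype.ext h)))
          rw [h5, map_one, h, zero_mul] at h4
          exact one_ne_zero h4
        have h4 : IsAlgebraic Λ0 (ρ ⟨((b z : R1) : E), hbV'⟩) :=
          isAlgebraic_algebraMap (⟨_, hR1m (b z)⟩ : Λ0)
        have h5 := h4.inv.mul h2.isAlgebraic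
        rwa [← mul_assoc, inv_mul_cancel₀ h3, one_mul] at h5
      · exact isAlgebraic_algebraMap
          (⟨v' i, IntermediateField.subset_adjoin _ _ ⟨i, rfl⟩⟩ : Λ0)
    exact fun z hz => mem_algebraicClosure_iff.1 (h1 hz)
  have hr := trdeg_le_of_alg Λ v' halg
  -- the reduction of polynomials
  let t' : κ := ρ ⟨t, htV⟩
  let B0 : Subring C0 := ((W0 Λ).comap C0.val).toSubring
  have hB0 : ∀ c : C0, c ∈ B0 → (c : E) ∈ V := fun c hc => hc.1
  have hB0' : ∀ (c : C0) (hc : c ∈ B0), ρ ⟨c, hB0 c hc⟩ ∈ Λ := fun c hc => hc.2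
  let θ : B0 →+* Λ :=
    { toFun := fun c => ⟨ρ ⟨((c : C0) : E), hB0 c c.2⟩, hB0' c c.2⟩
      map_one' := Subtype.ext (map_one ρ)
      map_mul' := fun a b => Subtype.ext (map_mul ρ ⟨_, hB0 a a.2⟩ ⟨_, hB0 b b.2⟩)
      map_zero' := Subtype.ext (map_zero ρ)
      map_add' := fun a b => Subtype.ext (map_add ρ ⟨_, hB0 a a.2⟩ ⟨_, hB0 b b.2⟩) }
  let gB : B0 →+* V :=
    { toFun := fun c => ⟨((c : C0) : E), hB0 c c.2⟩
      map_one' := rfl
      map_mul' := fun _ _ => rfl
      map_zero' := rfl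
      map_add' := fun _ _ => rfl }
  have hlift : ∀ P : Polynomial C0, cf P ⊆ X0 → ∃ P' : Polynomial B0, P'.map B0.subtype = P := by
    intro P hP
    have h1 : P ∈ Polynomial.lifts B0.subtype := by
      rw [Polynomial.lifts_iff_coeff_lifts]
      intro i
      by_cases h0 : P.coeff i = 0
      · exact ⟨0, by rw [h0, map_zero]⟩
      · have h2 := hP (mem_cf.2 ⟨i, h0, rfl⟩)
        exact ⟨⟨P.coeff i, ⟨hX0V _ h2, hYmem _ h2⟩⟩, rfl⟩
    exact (Polynomial.mem_lifts _).1 h1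
  have hred : ∀ (P' : Polynomial B0) (P : Polynomial C0), P'.map B0.subtype = P →
      ∃ h : Polynomial.aeval t P ∈ V,
        ρ ⟨Polynomial.aeval t P, h⟩ = Polynomial.aeval t' (P'.map θ) := by
    rintro P' _ rfl
    have h1 : V.subtype (Polynomial.eval₂ gB ⟨t, htV⟩ P') =
        Polynomial.aeval t (P'.map B0.subtype) := by
      rw [Polynomial.hom_eval₂, Polynomial.aeval_def, Polynomial.eval₂_map]
      rfl
    have h2 : Polynomial.aeval t (P'.map B0.subtype) ∈ V := by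
      rw [← h1]
      exact (Polynomial.eval₂ gB ⟨t, htV⟩ P').2
    refine ⟨h2, ?_⟩
    have h3 : (⟨Polynomial.aeval t (P'.map B0.subtype), h2⟩ : V) =
        Polynomial.eval₂ gB ⟨t, htV⟩ P' := Subtype.ext h1.symm
    rw [h3, Polynomial.hom_eval₂, Polynomial.aeval_def, Polynomial.eval₂_map]
    rfl
  -- the image of `T`
  have hτ : ∀ a, τ a ∈ Λ⟮t'⟯ := by
    have h1 : (⊤ : IntermediateField ℂ T) ≤ (Λ⟮t'⟯.restrictScalars ℂ).comap τ := by
      rw [← hS, adjoin_le_iff]
      intro y hy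
      change τ y ∈ Λ⟮t'⟯
      obtain ⟨p', hp'⟩ := hlift (p y) (hpX y hy)
      obtain ⟨q', hq'⟩ := hlift (q y) (hqX y hy)
      obtain ⟨h2, h3⟩ := hred p' _ hp'
      obtain ⟨h4, h5⟩ := hred q' _ hq'
      have h6 := hqV y hy
      have h7 : (⟨(y : E), hTV y⟩ : V) = ⟨Polynomial.aeval t (p y) * (Polynomial.aeval t (q y))⁻¹,
          V.mul_mem _ _ h2 h6⟩ := Subtype.ext (by rw [hpq y, div_eq_mul_inv])
      change ρ ⟨(y : E), hTV y⟩ ∈ Λ⟮t'⟯
      rw [h7, hmul _ _ h2 h6, hinv _ h4 h6, h3, h5]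
      have h8 : ∀ P : Polynomial Λ, Polynomial.aeval t' P ∈ Λ⟮t'⟯ := by
        intro P
        rw [Polynomial.aeval_eq_sum_range]
        refine sum_mem fun i _ => ?_
        rw [Algebra.smul_def]
        exact mul_mem (Λ⟮t'⟯.algebraMap_mem _) (pow_mem (mem_adjoin_simple_self Λ t') i)
      exact mul_mem (h8 _) (inv_mem (h8 _))
    exact fun a => h1 (by trivial : a ∈ (⊤ : IntermediateField ℂ T))
  have ht' : Transcendental Λ t' := by
    intro hcon
    let ψ : T →ₐ[ℂ] Λ⟮t'⟯ :=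
      { toFun := fun a => ⟨τ a, hτ a⟩
        map_one' := Subtype.ext (map_one τ)
        map_mul' := fun a b => Subtype.ext (map_mul τ a b)
        map_zero' := Subtype.ext (map_zero τ)
        map_add' := fun a b => Subtype.ext (map_add τ a b)
        commutes' := fun c => Subtype.ext (τ.commutes c) }
    have h1 : Algebra.trdeg ℂ T ≤ Algebra.trdeg ℂ Λ⟮t'⟯ :=
      _root_.trdeg_le_of_injective ψ ψ.injective
    have h2 := _root_.trdeg_add_eq ℂ Λ (A := Λ⟮t'⟯)
    have h3 : Algebra.IsAlgebraic Λ Λ⟮t'⟯ :=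
      IntermediateField.isAlgebraic_adjoin_simple hcon.isIntegral
    rw [_root_.trdeg_eq_zero (R := Λ) (A := Λ⟮t'⟯), add_zero] at h2
    rw [hT, ← h2] at h1
    have h4 := h1.trans hr
    rw [Nat.cast_le] at h4
    omega
  have hdim := pack_dim τ Λ t' hr hT ht' hτ
  choose Q' hQ' using fun j => hlift (Q j) (hQX j)
  choose R' hR' using fun j => hlift (R j) (hRX j)
  have hRQ : ∑ j, (R' j).map θ * (Q' j).map θ = 1 := by
    have h1 : ∑ j, R' j * Q' j = 1 := by
      apply Polynomial.map_injective B0.subtype B0.subtype_injective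
      rw [Polynomial.map_sum, Polynomial.map_one, ← hR]
      refine Finset.sum_congr rfl fun j _ => ?_
      rw [Polynomial.map_mul, hR', hQ']
    have h2 := congrArg (Polynomial.map θ) h1
    rw [Polynomial.map_sum, Polynomial.map_one] at h2
    rw [← h2]
    exact Finset.sum_congr rfl fun j _ => (Polynomial.map_mul _).symm
  let e := RatFunc.algEquivOfTranscendental t' ht'
  let ψ : T →ₐ[ℂ] Λ⟮t'⟯ :=
    { toFun := fun a => ⟨τ a, hτ a⟩
      map_one' := Subtype.ext (map_one τ)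
      map_mul' := fun a b => Subtype.ext (map_mul τ a b)
      map_zero' := Subtype.ext (map_zero τ)
      map_add' := fun a b => Subtype.ext (map_add τ a b)
      commutes' := fun c => Subtype.ext (τ.commutes c) }
  let φ : T →ₐ[ℂ] RatFunc Λ :=
    ((e.symm.restrictScalars ℂ : Λ⟮t'⟯ ≃ₐ[ℂ] RatFunc Λ) : Λ⟮t'⟯ →ₐ[ℂ] RatFunc Λ).comp ψ
  have he : ∀ P : Polynomial Λ, ((e (algebraMap (Polynomial Λ) (RatFunc Λ) P) : Λ⟮t'⟯) : κ) =
      Polynomial.aeval t' P := by
    intro P
    have h1 : e (algebraMap (Polynomial Λ) (RatFunc Λ) P) =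
        Polynomial.aeval (AdjoinSimple.gen Λ t') P :=
      RatFunc.algEquivOfTranscendental_algebraMap t' ht' P
    rw [h1]
    have h2 := Polynomial.aeval_algHom_apply (Λ⟮t'⟯).val (AdjoinSimple.gen Λ t') P
    exact h2.symm
  have heφ : ∀ a, ((e (φ a) : Λ⟮t'⟯) : κ) = τ a := by
    intro a
    change ((e (e.symm (ψ a)) : Λ⟮t'⟯) : κ) = τ a
    rw [AlgEquiv.apply_symm_apply]
    rfl
  refine ⟨Λ, inferInstance, inferInstance, hess, hdim, φ, fun w hw => ?_⟩
  have hpoly : ∀ P : Polynomial Λ, w.Reg (algebraMap (Polynomial Λ) (RatFunc Λ) P) := by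
    intro P
    induction P using Polynomial.induction_on' with
    | add P Q hP hQ =>
      rw [map_add]
      exact w.reg_add hP hQ
    | monomial n a =>
      rw [← Polynomial.C_mul_X_pow_eq_monomial, map_mul, map_pow, RatFunc.algebraMap_X]
      refine w.reg_mul ?_ (w.O.pow_mem hw n)
      exact w.reg_const a
  have hnz : ∀ j, (Q' j).map θ ≠ 0 := by
    intro j h0
    obtain ⟨h1, h2⟩ := hred (Q' j) _ (hQ' j)
    rw [h0, map_zero] at h2
    have h3 := hmul _ _ h1 (hQV j)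
    have h4 : (⟨Polynomial.aeval t (Q j) * (Polynomial.aeval t (Q j))⁻¹,
        V.mul_mem _ _ h1 (hQV j)⟩ : V) = 1 := Subtype.ext (mul_inv_cancel₀ (hQ j))
    rw [h4, map_one, h2, zero_mul] at h3
    exact one_ne_zero h3
  obtain ⟨j, hj⟩ : ∃ j, w.ord (algebraMap (Polynomial Λ) (RatFunc Λ) ((Q' j).map θ)) = 0 := by
    by_contra hcon
    push Not at hcon
    have hp : ∀ f g : RatFunc Λ, (f = 0 ∨ 0 < w.ord f) → (g = 0 ∨ 0 < w.ord g) →
        (f + g = 0 ∨ 0 < w.ord (f + g)) := by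
      intro f g hf hg
      by_cases h1 : f = 0
      · rwa [h1, zero_add]
      by_cases h2 : g = 0
      · rwa [h2, add_zero]
      by_cases h3 : f + g = 0
      · exact Or.inl h3
      · right
        exact lt_of_lt_of_le (lt_min (hf.resolve_left h1) (hg.resolve_left h2))
          (w.ord_add h1 h2 h3)
    have h1 : (∑ j, algebraMap (Polynomial Λ) (RatFunc Λ) ((R' j).map θ * (Q' j).map θ) = 0) ∨
        0 < w.ord (∑ j, algebraMap (Polynomial Λ) (RatFunc Λ) ((R' j).map θ * (Q' j).map θ)) := by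
      refine Finset.sum_induction _ (fun f => f = 0 ∨ 0 < w.ord f) hp (Or.inl rfl) fun j _ => ?_
      rw [map_mul]
      by_cases h2 : algebraMap (Polynomial Λ) (RatFunc Λ) ((R' j).map θ) = 0
      · left
        rw [h2, zero_mul]
      have h3 : algebraMap (Polynomial Λ) (RatFunc Λ) ((Q' j).map θ) ≠ 0 :=
        (map_ne_zero_iff _ (RatFunc.algebraMap_injective Λ)).2 (hnz j)
      right
      rw [w.ord_mul h2 h3]
      have h4 := (w.reg_iff h2).1 (hpoly _)
      have h5 := (w.reg_iff h3).1 (hpoly _)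
      have h6 := hcon j
      omega
    rw [← map_sum, hRQ, map_one, w.ord_one] at h1
    rcases h1 with h1 | h1
    · exact one_ne_zero h1
    · exact lt_irrefl _ h1
  refine ⟨j, fun a ha => ?_⟩
  obtain ⟨n', hn'⟩ := hlift (N j a) (hNX j a ha)
  have hq0 : algebraMap (Polynomial Λ) (RatFunc Λ) ((Q' j).map θ) ≠ 0 :=
    (map_ne_zero_iff _ (RatFunc.algebraMap_injective Λ)).2 (hnz j)
  have hφa : φ a * algebraMap (Polynomial Λ) (RatFunc Λ) ((Q' j).map θ) =
      algebraMap (Polynomial Λ) (RatFunc Λ) (n'.map θ) := by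
    apply e.injective
    apply Subtype.ext
    rw [map_mul]
    change ((e (φ a) : Λ⟮t'⟯) : κ) * ((e (algebraMap (Polynomial Λ) (RatFunc Λ)
      ((Q' j).map θ)) : Λ⟮t'⟯) : κ) = _
    rw [heφ, he, he]
    obtain ⟨h1, h2⟩ := hred (Q' j) _ (hQ' j)
    obtain ⟨h3, h4⟩ := hred n' _ hn'
    rw [← h2, ← h4]
    change ρ ⟨(a : E), hTV a⟩ * ρ ⟨_, h1⟩ = _
    rw [← hmul _ _ (hTV a) h1]
    congr 1
    exact Subtype.ext (hN j a ha)
  by_cases ha0 : φ a = 0
  · exact Or.inl ha0
  · right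
    have h1 := congrArg w.ord hφa
    rw [w.ord_mul ha0 hq0, hj, add_zero] at h1
    rw [h1]
    have h2 : algebraMap (Polynomial Λ) (RatFunc Λ) (n'.map θ) ≠ 0 := by
      rw [← hφa]
      exact mul_ne_zero ha0 hq0
    exact (w.reg_iff h2).1 (hpoly _)

end Pool.Agent.U393.LT
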