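import Pool.Agent.U393.UT.Down
import Pool.Agent.U393.LT.CutA
import Pool.Agent.Helper386.D5V.Helper386_FF_Fund

/-!
The open factor of a product which is covered by affine lines in the fibres.
-/

set_option autoImplicit false
set_option linter.overlappingInstances false
set_option linter.unusedSectionVars false
set_option maxHeartbeats 4000000
set_option synthInstance.maxHeartbeats 400000

open FF IntermediateField Pool.Agent.W619.PQ IsDedekindDomain
open Pool.Agent.W619.PL (IsA1Uniruled)

namespace Pool.Agent.U393.LT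

open Pool.Agent.U393.UT (complete trdeg_total' alg_of_trdeg fg_map alg_push)

/-- common denominators -/
theorem denoms {M : Type} [Field M] {T : Type} {s : ℕ} (f : T → RatFunc M) (A : Fin (s + 1) → Finset T)
    (h : ∀ w : Place M (RatFunc M), w.Reg RatFunc.X → ∃ j, ∀ a ∈ A j, w.Reg (f a)) :
    ∃ (Q R : Fin (s + 1) → Polynomial M), (∀ j, Q j ≠ 0) ∧ (∑ j, R j * Q j = 1) ∧
      ∀ j, ∀ a ∈ A j, ∃ N : Polynomial M, f a * algebraMap (Polynomial M) (RatFunc M) (Q j) =
        algebraMap (Polynomial M) (RatFunc M) N := by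
  classical
  let I : Fin (s + 1) → Ideal (Polynomial M) := fun j =>
    { carrier := {q | ∀ a ∈ A j, ∃ N : Polynomial M,
        f a * algebraMap (Polynomial M) (RatFunc M) q = algebraMap (Polynomial M) (RatFunc M) N}
      add_mem' := by
        intro p q hp hq a ha
        obtain ⟨n1, h1⟩ := hp a ha
        obtain ⟨n2, h2⟩ := hq a ha
        exact ⟨n1 + n2, by rw [map_add, map_add, mul_add, h1, h2]⟩
      zero_mem' := fun a _ => ⟨0, by rw [map_zero, mul_zero]⟩
      smul_mem' := by
        intro c q hq a ha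
        obtain ⟨n1, h1⟩ := hq a ha
        exact ⟨c * n1, by rw [smul_eq_mul, map_mul, map_mul, ← h1]; ring⟩ }
  have hI : ∀ j q, q ∈ I j ↔ ∀ a ∈ A j, ∃ N : Polynomial M,
        f a * algebraMap (Polynomial M) (RatFunc M) q = algebraMap (Polynomial M) (RatFunc M) N :=
    fun _ _ => Iff.rfl
  have hbot : ∀ j, ∃ q ∈ I j, q ≠ 0 := by
    intro j
    refine ⟨∏ a ∈ A j, (f a).denom, ?_, Finset.prod_ne_zero_iff.2 fun a _ => (f a).denom_ne_zero⟩
    intro a ha
    refine ⟨(f a).num * ∏ b ∈ (A j).erase a, (f b).denom, ?_⟩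
    rw [← Finset.mul_prod_erase _ _ ha, map_mul, map_mul, ← mul_assoc]
    congr 1
    have h1 := (f a).num_div_denom
    have h2 : algebraMap (Polynomial M) (RatFunc M) (f a).denom ≠ 0 :=
      RatFunc.algebraMap_ne_zero (f a).denom_ne_zero
    rw [div_eq_iff h2] at h1
    exact h1.symm
  have hpid : ∀ j, ∃ q, I j = Ideal.span {q} := fun j =>
    (IsPrincipalIdealRing.principal (I j)).principal
  choose Q hQ using hpid
  have hQI : ∀ j, Q j ∈ I j := fun j => by
    rw [hQ j]
    exact Ideal.mem_span_singleton_self _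
  have hQ0 : ∀ j, Q j ≠ 0 := by
    intro j h0
    obtain ⟨q, hq, hq0⟩ := hbot j
    rw [hQ j, h0, Ideal.mem_span_singleton, zero_dvd_iff] at hq
    exact hq0 hq
  have htop : Ideal.span (Set.range Q) = ⊤ := by
    by_contra hne
    obtain ⟨m, hm, hle⟩ := Ideal.exists_le_maximal _ hne
    have hm0 : m ≠ ⊥ := by
      rintro rfl
      have h1 : Q 0 ∈ (⊥ : Ideal (Polynomial M)) := hle (Ideal.subset_span ⟨0, rfl⟩)
      exact hQ0 0 (Ideal.mem_bot.1 h1)
    let P : HeightOneSpectrum (Polynomial M) := ⟨m, hm.isPrime, hm0⟩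
    let w : Place M (RatFunc M) := placeOf P
    have hwX : w.Reg RatFunc.X := by
      have h1 := placeOf_reg (k := M) (L := RatFunc M) P Polynomial.X
      rwa [RatFunc.algebraMap_X] at h1
    obtain ⟨j, hj⟩ := h w hwX
    have hd : ∀ a : T, ∃ d : Polynomial M, a ∈ A j → d ∉ m ∧ ∃ n : Polynomial M,
        f a * algebraMap (Polynomial M) (RatFunc M) d = algebraMap (Polynomial M) (RatFunc M) n := by
      intro a
      by_cases ha : a ∈ A j
      · by_cases h0 : f a = 0
        · exact ⟨1, fun _ => ⟨(Ideal.ne_top_iff_one m).1 hm.ne_top, 0, by rw [h0, zero_mul, map_zero]⟩⟩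
        · obtain ⟨n, d, hnd⟩ := P.exists_primeCompl_mul_eq_of_integer (f a)
            ((placeOf_nonneg P h0).1 ((Place.reg_iff _ h0).1 (hj a ha)))
          exact ⟨d, fun _ => ⟨d.2, n, hnd⟩⟩
      · exact ⟨0, fun h => absurd h ha⟩
    choose d hd using hd
    have h1 : ∏ a ∈ A j, d a ∈ I j := by
      intro a ha
      obtain ⟨n, hn⟩ := (hd a ha).2
      refine ⟨n * ∏ b ∈ (A j).erase a, d b, ?_⟩
      rw [← Finset.mul_prod_erase _ _ ha, map_mul, map_mul, ← mul_assoc, hn]
    have h2 : I j ≤ m := by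
      rw [hQ j, Ideal.span_singleton_le_iff_mem]
      exact hle (Ideal.subset_span ⟨j, rfl⟩)
    obtain ⟨a, ha, ha'⟩ := (Ideal.IsPrime.prod_mem_iff (hp := hm.isPrime)).1 (h2 h1)
    exact (hd a ha).1 ha'
  have h1 : (1 : Polynomial M) ∈ Ideal.span (Set.range Q) := by
    rw [htop]
    trivial
  obtain ⟨R, hR⟩ := (Submodule.mem_span_range_iff_exists_fun (Polynomial M)).1 h1
  exact ⟨Q, R, hQ0, hR, fun j => hQI j⟩

/-- **The open factor of a product which is covered by affine lines in the fibres.** -/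
theorem product_downA {L : Type} [Field L] [Algebra ℂ L] (U T : IntermediateField ℂ L)
    [Algebra.EssFiniteType ℂ T] {d r s : ℕ} (hUT : U ⊔ T = ⊤) (hU : Algebra.trdeg ℂ U = d)
    (hT : Algebra.trdeg ℂ T = (r + 1 : ℕ)) (hL : Algebra.trdeg ℂ L = (d + r + 1 : ℕ))
    (A : Fin (s + 1) → Finset T) {BY : Place ℂ T → Prop}
    (hA : ∀ S : Place ℂ T, ¬ BY S ↔ ∃ j, ∀ a ∈ A j, S.Reg a) {Bd : Place ℂ L → Prop}
    (hBd : ∀ (Q : Place ℂ L) (S : Place ℂ T) (e : ℕ), Over Q S e → BY S → Bd Q)
    (h : A1Over U (d + r + 1) Bd) : IsA1Uniruled ℂ T (r + 1) BY := by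
  classical
  obtain ⟨M, _, _, φ, hM, htr, hφ, hA1⟩ := h
  have htr' : Algebra.trdeg ℂ M = (d + r : ℕ) := by
    have h1 : Algebra.trdeg ℂ M ≤ ((d + r + 1 : ℕ) : Cardinal) := by
      rw [← htr]
      exact le_self_add
    obtain ⟨k, hk⟩ := Cardinal.lt_aleph0.1 (lt_of_le_of_lt h1 Cardinal.natCast_lt_aleph0)
    rw [hk] at htr ⊢
    have h2 : k + 1 = d + r + 1 := by exact_mod_cast htr
    have : k = d + r := by omega
    rw [this]
  let E := RatFunc M
  let iL : Algebra L E := φ.toRingHom.toAlgebra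
  have t1 : IsScalarTower ℂ L E := IsScalarTower.of_algebraMap_eq fun c => by
    change _ = φ (algebraMap ℂ L c)
    rw [φ.commutes]
  have hE : Algebra.trdeg ℂ E = (d + r + 1 : ℕ) := trdeg_total' htr
  have halg : Algebra.IsAlgebraic L E := alg_of_trdeg hL hE
  let f : T →ₐ[ℂ] E := φ.comp T.val
  let T' : IntermediateField ℂ E := f.fieldRange
  let eT : T ≃ₐ[ℂ] T' := AlgEquiv.ofInjectiveField f
  have hTess : Algebra.EssFiniteType ℂ T' := by
    obtain ⟨s, hs⟩ := fg_map f
    rw [IntermediateField.essFiniteType_iff]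
    exact ⟨s, hs⟩
  have hT' : Algebra.trdeg ℂ T' = (r + 1 : ℕ) := by
    rw [← hT]
    exact eT.symm.trdeg_eq
  -- the constants
  let ι : M →ₐ[ℂ] E := IsScalarTower.toAlgHom ℂ M E
  let C0 : IntermediateField ℂ E := ι.fieldRange
  -- a transcendence basis of `U`
  obtain ⟨x, hxU, hx⟩ : ∃ x : Fin d → U, AlgebraicIndependent ℂ x ∧
      ∀ z : U, IsAlgebraic (IntermediateField.adjoin ℂ (Set.range x)) z := by
    obtain ⟨s, hs⟩ := exists_isTranscendenceBasis ℂ U
    have h1 := hs.cardinalMk_eq_trdeg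
    rw [hU] at h1
    obtain ⟨e⟩ : Nonempty (s ≃ Fin d) := by
      rw [← Cardinal.eq, h1, Cardinal.mk_fin]
    refine ⟨fun i => e.symm i, hs.1.comp _ e.symm.injective, fun z => ?_⟩
    have h2 := hs.isAlgebraic_field.isAlgebraic z
    have h3 : Set.range ((↑) : s → U) = Set.range fun i => ((e.symm i : s) : U) := by
      ext z
      constructor
      · rintro ⟨i, rfl⟩
        exact ⟨e i, by simp⟩
      · rintro ⟨i, rfl⟩
        exact ⟨e.symm i, rfl⟩
    rw [h3] at h2
    exact h2
  let g : U →ₐ[ℂ] E := φ.comp U.val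
  let u : Fin d → E := fun i => g (x i)
  have huM : ∀ i, ∃ z : M, ι z = u i := fun i => hφ (x i) (x i).2
  choose uM huM using huM
  have huE : AlgebraicIndependent ℂ u := hxU.map' (f := g) g.injective
  have huMi : AlgebraicIndependent ℂ uM := by
    refine AlgebraicIndependent.of_comp ι ?_
    have h1 : ι ∘ uM = u := funext huM
    rw [h1]
    exact huE
  obtain ⟨vM, hvM⟩ := complete huMi htr'
  let v : Fin r → E := fun i => ι (vM i)
  have hC : ∀ z ∈ C0, IsAlgebraic (Algebra.adjoin ℂ (Set.range u ∪ Set.range v)) z := by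
    rintro _ ⟨z, rfl⟩
    have h1 : Set.range (Sum.elim uM vM) = Set.range uM ∪ Set.range vM := Set.Sum.elim_range _ _
    have h2 := hvM z
    rw [← h1] at h2
    have h3 := alg_push ι (Sum.elim uM vM) h2
    have h4 : Set.range (ι ∘ Sum.elim uM vM) = Set.range u ∪ Set.range v := by
      have h5 : ι ∘ Sum.elim uM vM = Sum.elim u v := by
        funext i
        rcases i with i | i
        · exact huM i
        · rfl
      rw [h5, Set.Sum.elim_range]
    rw [h4, IntermediateField.isAlgebraic_adjoin_iff] at h3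
    exact h3
  have hTC : ∀ z ∈ T', z ∈ C0⟮(RatFunc.X : E)⟯ := by
    intro z _
    have h3 : z ∈ IntermediateField.adjoin M {(RatFunc.X : RatFunc M)} := by
      rw [RatFunc.adjoin_X]
      trivial
    obtain ⟨p, q, hpq⟩ := (mem_adjoin_simple_iff (F := M) _).1 h3
    have h4 : ∀ P : Polynomial M, (Polynomial.aeval (RatFunc.X : RatFunc M) P : E) ∈
        C0⟮(RatFunc.X : E)⟯ := by
      intro P
      rw [Polynomial.aeval_eq_sum_range]
      refine sum_mem fun i _ => ?_
      rw [Algebra.smul_def]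
      refine mul_mem ?_ (pow_mem (mem_adjoin_simple_self C0 (RatFunc.X : E)) i)
      exact C0⟮(RatFunc.X : E)⟯.algebraMap_mem ⟨_, ⟨P.coeff i, rfl⟩⟩
    rw [hpq]
    exact div_mem (h4 p) (h4 q)
  -- everything is algebraic over `T'(u)`
  have hTu : Algebra.IsAlgebraic (Algebra.adjoin T' (Set.range u)) E := by
    let A0 : IntermediateField T' E := IntermediateField.adjoin T' (Set.range u)
    let A1 : IntermediateField A0 E := algebraicClosure A0 E
    have h1 : ∀ z : L, φ z ∈ A1 := by
      have h2 : (⊤ : IntermediateField ℂ L) ≤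
          ((A1.restrictScalars T').restrictScalars ℂ).comap φ := by
        rw [← hUT]
        refine sup_le (fun z hz => ?_) fun z hz => ?_
        · change φ z ∈ A1
          rw [mem_algebraicClosure_iff]
          have h3 := alg_push g x (hx ⟨z, hz⟩)
          have h4 : ∀ w ∈ IntermediateField.adjoin ℂ (Set.range (g ∘ x)), w ∈ A0 := by
            intro w hw
            have h5 : IntermediateField.adjoin ℂ (Set.range (g ∘ x)) ≤ A0.restrictScalars ℂ := by
              rw [adjoin_le_iff]
              exact IntermediateField.subset_adjoin T' _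
            exact h5 hw
          let G : IntermediateField.adjoin ℂ (Set.range (g ∘ x)) →+* A0 :=
            { toFun := fun w => ⟨w, h4 w w.2⟩
              map_one' := rfl
              map_mul' := fun _ _ => rfl
              map_zero' := rfl
              map_add' := fun _ _ => rfl }
          obtain ⟨p, hp0, hp⟩ := h3
          refine ⟨p.map G, (Polynomial.map_ne_zero_iff G.injective).2 hp0, ?_⟩
          rw [Polynomial.aeval_def, Polynomial.eval₂_map]
          rw [Polynomial.aeval_def] at hp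
          exact hp
        · change φ z ∈ A1
          refine A1.algebraMap_mem ⟨_, ?_⟩
          exact A0.algebraMap_mem ⟨_, ⟨⟨z, hz⟩, rfl⟩⟩
      exact fun z => h2 (by trivial : z ∈ (⊤ : IntermediateField ℂ L))
    have h2 : Algebra.IsAlgebraic A0 E := by
      have h3 : Algebra.IsAlgebraic A1 E := by
        refine ⟨fun z => ?_⟩
        obtain ⟨p, hp0, hp⟩ := halg.isAlgebraic z
        let G : L →+* A1 :=
          { toFun := fun w => ⟨φ w, h1 w⟩
            map_one' := Subtype.ext (map_one φ)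
            map_mul' := fun a b => Subtype.ext (map_mul φ a b)
            map_zero' := Subtype.ext (map_zero φ)
            map_add' := fun a b => Subtype.ext (map_add φ a b) }
        refine ⟨p.map G, (Polynomial.map_ne_zero_iff G.injective).2 hp0, ?_⟩
        rw [Polynomial.aeval_def, Polynomial.eval₂_map]
        rw [Polynomial.aeval_def] at hp
        exact hp
      have h4 : Algebra.IsAlgebraic A0 A1 := algebraicClosure.isAlgebraic A0 E
      exact Algebra.IsAlgebraic.trans A0 A1 E
    rwa [IntermediateField.isAlgebraic_adjoin_iff_top] at h2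
  have hTE : Algebra.trdeg T' E = d := by
    have h1 := _root_.trdeg_add_eq ℂ T' (A := E)
    rw [hT', hE] at h1
    have h2 : Algebra.trdeg T' E ≤ ((d + r + 1 : ℕ) : Cardinal) := by
      rw [← h1]
      exact le_add_self
    obtain ⟨k, hk⟩ := Cardinal.lt_aleph0.1 (lt_of_le_of_lt h2 Cardinal.natCast_lt_aleph0)
    rw [hk] at h1 ⊢
    have h3 : r + 1 + k = d + r + 1 := by exact_mod_cast h1
    have : k = d := by omega
    rw [this]
  have hu : AlgebraicIndependent T' u := by
    have h1 := Algebra.IsAlgebraic.isTranscendenceBasis_of_lift_le_trdeg_of_finite T' u (by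
      rw [hTE]
      simp)
    exact h1.1
  -- the charts
  have hreg : ∀ w : Place M E, w.Reg RatFunc.X → ∃ j, ∀ a ∈ A j, w.Reg (φ (a : L)) := by
    intro w hw
    have hc : ∀ c : ℂ, c ≠ 0 → w.ord (φ (algebraMap ℂ L c)) = 0 := by
      intro c hc
      rw [φ.commutes, IsScalarTower.algebraMap_apply ℂ M E]
      exact w.ord_const ((map_ne_zero_iff _ (algebraMap ℂ M).injective).2 hc)
    by_cases htriv : ∀ f : T, w.ord (φ (f : L)) = 0
    · exact ⟨0, fun a _ => Or.inr (htriv a).ge⟩
    push Not at htriv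
    obtain ⟨f0, hf0⟩ := htriv
    obtain ⟨S, a, ha, hS⟩ := Pool.Agent.W619.Y.exists_restrict (k := ℂ) w
      ((φ.comp T.val : T →ₐ[ℂ] E) : T →+* E) (fun c hc' => hc c hc') (f0 := f0) hf0
    obtain ⟨v', e, he, hv'⟩ := Pool.Agent.W619.Y.exists_restrict (k := ℂ) w
      (φ : L →+* E) hc (f0 := (f0 : L)) hf0
    have hS' : ∀ f : T, w.ord (φ (f : L)) = a * S.ord f := hS
    have hv'' : ∀ f : L, w.ord (φ f) = e * v'.ord f := hv'
    have h1 : ¬ BY S := by
      intro hB
      refine hA1 w hw v' e he hv'' ?_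
      obtain ⟨g0, -, hg0⟩ := S.surj
      have h2 : (e : ℤ) * v'.ord (g0 : L) = a := by
        rw [← hv'', hS', hg0, mul_one]
      have he' : (0 : ℤ) < e := by exact_mod_cast he
      have ha' : (0 : ℤ) < a := by exact_mod_cast ha
      have h3 : 0 < v'.ord (g0 : L) := by
        rw [← h2] at ha'
        exact (mul_pos_iff_of_pos_left he').1 ha'
      obtain ⟨e', he''⟩ : ∃ e' : ℕ, (e' : ℤ) = v'.ord (g0 : L) := ⟨_, Int.toNat_of_nonneg h3.le⟩
      refine hBd v' S e' ⟨by omega, fun f => ?_⟩ hB
      have h4 : (e : ℤ) * v'.ord (f : L) = e * (e' * S.ord f) := by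
        rw [← hv'', hS', ← h2, ← he'']
        ring
      exact mul_left_cancel₀ he'.ne' h4
    obtain ⟨j, hj⟩ := (hA S).1 h1
    refine ⟨j, fun b hb => ?_⟩
    rcases hj b hb with h2 | h2
    · left
      rw [h2]
      exact map_zero φ
    · right
      rw [hS']
      exact mul_nonneg (by exact_mod_cast ha.le) h2
  obtain ⟨Q, R, hQ0, hRQ, hQN⟩ := denoms (fun a : T => φ (a : L)) A hreg
  let ιC : M →+* C0 :=
    { toFun := fun z => ⟨ι z, ⟨z, rfl⟩⟩
      map_one' := Subtype.ext (map_one ι)
      map_mul' := fun a b => Subtype.ext (map_mul ι a b)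
      map_zero' := Subtype.ext (map_zero ι)
      map_add' := fun a b => Subtype.ext (map_add ι a b) }
  have hev : ∀ P : Polynomial M, Polynomial.aeval (RatFunc.X : E) (P.map ιC) =
      algebraMap (Polynomial M) E P := by
    intro P
    rw [Polynomial.aeval_def, Polynomial.eval₂_map, ← RatFunc.aeval_X_left_eq_algebraMap,
      Polynomial.aeval_def]
    rfl
  have hN : ∀ (j : Fin (s + 1)) (a : T'), ∃ N : Polynomial M, a ∈ (A j).image eT →
      (a : E) * algebraMap (Polynomial M) E (Q j) = algebraMap (Polynomial M) E N := by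
    intro j a
    by_cases ha : a ∈ (A j).image eT
    · obtain ⟨b, hb, rfl⟩ := Finset.mem_image.1 ha
      obtain ⟨N, hN⟩ := hQN j b hb
      exact ⟨N, fun _ => hN⟩
    · exact ⟨0, fun h => absurd h ha⟩
  choose N hN using hN
  obtain ⟨M', i1, i2, h1, h2, ψ, hψ⟩ := cutA T' C0 (RatFunc.X : E) u v hT' hC hTC hu
    (fun z => hTu.isAlgebraic z) (fun j => (A j).image eT) (fun j => (Q j).map ιC)
    (fun j => (R j).map ιC) (fun j a => (N j a).map ιC)
    (fun j => by
      rw [hev]
      exact (map_ne_zero_iff _ (RatFunc.algebraMap_injective M)).2 (hQ0 j))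
    (fun j a ha => by
      rw [hev, hev]
      exact hN j a ha)
    (by
      have h3 := congrArg (Polynomial.map ιC) hRQ
      rw [Polynomial.map_sum, Polynomial.map_one] at h3
      rw [← h3]
      exact Finset.sum_congr rfl fun j _ => (Polynomial.map_mul _).symm)
  refine ⟨M', i1, i2, ψ.comp (eT : T →ₐ[ℂ] T'), h1, h2, fun w hw S e he hS => ?_⟩
  rw [hA]
  obtain ⟨j, hj⟩ := hψ w hw
  refine ⟨j, fun a ha => ?_⟩
  have h3 := hj (eT a) (Finset.mem_image_of_mem _ ha)
  have h4 := hS a
  rcases h3 with h3 | h3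
  · left
    exact (map_eq_zero (ψ.comp (eT : T →ₐ[ℂ] T'))).1 h3
  · right
    change w.ord (ψ (eT a)) = _ at h4
    rw [h4] at h3
    exact nonneg_of_mul_nonneg_right h3 (by exact_mod_cast he)

end Pool.Agent.U393.LT
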