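import Pool.Agent.U192.TF.Kod
import Pool.Agent.U192.PT.Trans
import Pool.Agent.W619.PL.LDefs

/-!
Logarithmic Kodaira dimension `-∞` of the images of products.
-/

set_option autoImplicit false
set_option linter.overlappingInstances false
set_option linter.unusedSectionVars false

open FF Pool.Agent.W619.PQ Pool.Agent.W603.LV Pool.Agent.Y172
open Pool.Agent.W602.GT (Divisorial DerReg DerLog IsPluri LogSec)
open Pool.Agent.Y174 (PairSec PairKod IsPull)
open Pool.Agent.U192.PN (IsProd)
open Pool.Agent.U192.PE (BdGe)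
open Pool.Agent.W619.PL (LogKodairaNeg)

namespace Pool.Agent.U393.LT

open scoped Classical in
/-- the reduced boundary -/
noncomputable def ind {K : Type} [Field K] [Algebra ℂ K] (Bd : Place ℂ K → Prop) (P : Place ℂ K) : ℝ :=
  if Bd P then 1 else 0

theorem ind_of {K : Type} [Field K] [Algebra ℂ K] {Bd : Place ℂ K → Prop} {P : Place ℂ K}
    (h : Bd P) : ind Bd P = 1 := if_pos h

theorem ind_not {K : Type} [Field K] [Algebra ℂ K] {Bd : Place ℂ K → Prop} {P : Place ℂ K}
    (h : ¬ Bd P) : ind Bd P = 0 := if_neg h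

theorem ind_nonneg {K : Type} [Field K] [Algebra ℂ K] (Bd : Place ℂ K → Prop) (P : Place ℂ K) :
    0 ≤ ind Bd P := by
  by_cases h : Bd P
  · rw [ind_of h]; exact zero_le_one
  · rw [ind_not h]

theorem ind_le {K : Type} [Field K] [Algebra ℂ K] (Bd : Place ℂ K → Prop) (P : Place ℂ K) :
    ind Bd P ≤ 1 := by
  by_cases h : Bd P
  · rw [ind_of h]
  · rw [ind_not h]; exact zero_le_one

/-- logarithmic Kodaira dimension `-∞` -/
theorem logneg_iff {K : Type} [Field K] [Algebra ℂ K] [Algebra.EssFiniteType ℂ K] {n : ℕ}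
    (hn : Algebra.trdeg ℂ K = n) {Bd : Place ℂ K → Prop} :
    LogKodairaNeg ℂ K n Bd ↔ ¬ PairKod ℂ K n (ind Bd) 0 := by
  classical
  constructor
  · rintro h ⟨m, hm, ω, hω, D, hD, -⟩
    have h1 : PairSec ℂ K n (fun P => if Bd P then 1 else 0) {1} m 0 (ω 0) := by
      refine ⟨(hω 0).1, fun v hv G hG => ?_⟩
      have h2 := (hω 0).2 v hv G hG
      unfold ind at h2
      convert h2
    have h2 := Pool.Agent.U192.TF.logSec_of_pair hn h1
    refine hD 0 (h m hm (ω 0) (hω 0).1 (fun v hv hB => ?_) (fun v hv _ => ?_) D)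
    · exact h2.2.2 v hv hB
    · exact h2.2.1 v hv
  · intro h m hm ω hω hreg hlog D
    by_contra hD
    apply h
    refine ⟨m, hm, fun _ => ω, fun _ => ⟨hω, fun v hv G hG => ?_⟩, D, fun _ => hD, ?_⟩
    · by_cases hB : Bd v
      · obtain ⟨y, E, i0, hl⟩ := exists_loc hn hv
        by_cases hG0 : ω G = 0
        · exact Or.inl hG0
        right
        have h1 := pluri_coord hl.bas hl.dual hω G
        have h2 : Ge v 0 (ω (fun i => lc y i0 i • E i)) := hlog v hv hB _ fun i => hl.log i
        rw [pluri_diag hω, prod_lc] at h2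
        have hE0 : ω E ≠ 0 := by
          intro h3
          rw [h3, mul_zero] at h1
          exact hG0 h1
        have hdet0 : (Matrix.of fun i j => G i (y j) : Matrix (Fin n) (Fin n) K).det ^ m ≠ 0 := by
          intro h3
          rw [h3, zero_mul] at h1
          exact hG0 h1
        have h3 : 0 ≤ v.ord (y i0 ^ m * ω E) :=
          h2.resolve_left (mul_ne_zero (pow_ne_zero _ hl.ne) hE0)
        rw [v.ord_mul (pow_ne_zero _ hl.ne) hE0, v.ord_pow, hl.unif, mul_one] at h3
        have h4 : Ge v 0 (Matrix.of fun i j => G i (y j) : Matrix (Fin n) (Fin n) K).det := by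
          have h5 := Pool.Agent.U192.PB.ge_det_col v
            (Matrix.of fun i j => G i (y j) : Matrix (Fin n) (Fin n) K) (fun _ => 0) (fun i j => by
            rw [Matrix.of_apply]
            exact hG i _ (hl.reg j))
          rwa [Finset.sum_const_zero] at h5
        have h6 : 0 ≤ v.ord ((Matrix.of fun i j => G i (y j) : Matrix (Fin n) (Fin n) K).det ^ m) := by
          have h7 := (h4.pow m).resolve_left hdet0
          rwa [mul_zero] at h7
        refine ⟨1, Finset.mem_singleton_self _, one_ne_zero, ?_⟩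
        beta_reduce
        rw [Nat.cast_zero, zero_mul, ind_of hB, mul_one, zero_sub, h1, v.ord_mul hdet0 hE0]
        have h7 : -(m : ℤ) ≤ v.ord ((Matrix.of fun i j => G i (y j) :
            Matrix (Fin n) (Fin n) K).det ^ m) + v.ord (ω E) := by linarith
        exact_mod_cast h7
      · rcases hreg v hv hB G hG with h0 | h0
        · exact Or.inl h0
        · refine Or.inr ⟨1, Finset.mem_singleton_self _, one_ne_zero, ?_⟩
          rw [Nat.cast_zero, zero_mul, ind_not hB, mul_zero, sub_zero]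
          exact_mod_cast h0
    · exact (algebraicIndependent_empty_type_iff).2 (algebraMap ℂ K).injective

theorem pull_ind {K L : Type} [Field K] [Field L] [Algebra ℂ K] [Algebra ℂ L] [Algebra K L]
    {BK : Place ℂ K → Prop} {BV : Place ℂ L → Prop}
    (h : ∀ (P : Place ℂ K) (Q : Place ℂ L) (e : ℕ), Over Q P e → (BK P ↔ BV Q)) :
    IsPull (K := K) (L := L) (ind BK) (ind BV) := by
  intro v w e he
  have h1 : (1 : ℝ) ≤ e := by exact_mod_cast he.1
  by_cases hB : BK v
  · rw [ind_of hB, ind_of ((h v w e he).1 hB), sub_self, mul_zero, sub_zero,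
      max_eq_right zero_le_one]
  · rw [ind_not hB, ind_not (fun h2 => hB ((h v w e he).2 h2)), sub_zero, mul_one,
      max_eq_left (by linarith)]

theorem prod_ind {L : Type} [Field L] [Algebra ℂ L] (U T : IntermediateField ℂ L) {n : ℕ}
    {BV : Place ℂ L → Prop} {BY : Place ℂ T → Prop}
    (h : ∀ Q : Place ℂ L, BV Q ↔ ∃ (S : Place ℂ T) (e : ℕ), Over Q S e ∧ BY S) :
    IsProd U T n (ind BV) (ind BY) := by
  intro Q _ _
  refine ⟨fun htriv => ?_, fun v e hv => ?_⟩
  · rw [ind_not]
    rw [h]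
    rintro ⟨S, e, hS, -⟩
    obtain ⟨f, -, hf⟩ := S.surj
    have h1 := hS.2 f
    have h2 : Q.ord (f : L) = 0 := htriv f f.2
    change Q.ord (f : L) = _ at h1
    rw [h2, hf, mul_one] at h1
    have h3 := hS.1
    omega
  · by_cases hB : BV Q
    · obtain ⟨S, e', hS, hBS⟩ := (h Q).1 hB
      obtain ⟨rfl, rfl⟩ := Pool.Agent.Y172.over_unique' hv hS
      rw [ind_of hB, ind_of hBS, sub_self, mul_zero, sub_zero]
      exact le_max_right _ _
    · rw [ind_not hB]
      exact le_max_left _ _

theorem ge_ind {K L : Type} [Field K] [Field L] [Algebra ℂ K] [Algebra ℂ L] [Algebra K L]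
    (U T : IntermediateField ℂ L) {n : ℕ} {BK : Place ℂ K → Prop} {BY : Place ℂ T → Prop}
    (h : ∀ (P : Place ℂ K) (Q : Place ℂ L) (e : ℕ), Over Q P e →
      (BK P ↔ ∃ (S : Place ℂ T) (e : ℕ), Over Q S e ∧ BY S)) :
    BdGe U T n (ind BK) (ind BY) := by
  intro P Q v e e' hP hv _ _
  have h1 : (1 : ℝ) ≤ e := by exact_mod_cast hP.1
  have h2 : (1 : ℝ) ≤ e' := by exact_mod_cast hv.1
  by_cases hB : BY v
  · rw [ind_of hB, ind_of ((h P Q e hP).2 ⟨v, e', hv, hB⟩)]
    linarith
  · rw [ind_not hB]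
    have h3 := mul_nonneg (by linarith : (0 : ℝ) ≤ e) (ind_nonneg BK P)
    linarith

end Pool.Agent.U393.LT
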