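import Pool.Agent.U393.UT.Conv
import Pool.Agent.U393.LT.Cover

/-!
Products with an open factor covered by affine lines.
-/

set_option autoImplicit false
set_option linter.overlappingInstances false
set_option linter.unusedSectionVars false
set_option maxHeartbeats 4000000
set_option synthInstance.maxHeartbeats 400000

open FF IntermediateField Pool.Agent.W619.PQ
open Pool.Agent.W619.PL (IsA1Uniruled)

namespace Pool.Agent.U393.LT

open Pool.Agent.U393.UT (trdeg_total' alg_of_trdeg fg_map alg_push alg_basis trdeg_le_of_alg)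

/-- the coordinate of a ruled cover is transcendental over the constants -/
theorem trans_of_dim {L κ : Type} [Field L] [Algebra ℂ L] [Field κ] [Algebra ℂ κ] (φ : L →ₐ[ℂ] κ)
    (Λ : IntermediateField ℂ κ) (t : κ) {r : ℕ} (hr : Algebra.trdeg ℂ Λ ≤ r)
    (hL : Algebra.trdeg ℂ L = (r + 1 : ℕ)) (h : ∀ a, φ a ∈ Λ⟮t⟯) : Transcendental Λ t := by
  intro hcon
  let ψ : L →ₐ[ℂ] Λ⟮t⟯ :=
    { toFun := fun a => ⟨φ a, h a⟩
      map_one' := Subtype.ext (map_one φ)
      map_mul' := fun a b => Subtype.ext (map_mul φ a b)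
      map_zero' := Subtype.ext (map_zero φ)
      map_add' := fun a b => Subtype.ext (map_add φ a b)
      commutes' := fun c => Subtype.ext (φ.commutes c) }
  have h1 : Algebra.trdeg ℂ L ≤ Algebra.trdeg ℂ Λ⟮t⟯ :=
    _root_.trdeg_le_of_injective ψ ψ.injective
  have h2 := _root_.trdeg_add_eq ℂ Λ (A := Λ⟮t⟯)
  have h3 : Algebra.IsAlgebraic Λ Λ⟮t⟯ :=
    IntermediateField.isAlgebraic_adjoin_simple hcon.isIntegral
  rw [_root_.trdeg_eq_zero (R := Λ) (A := Λ⟮t⟯), add_zero] at h2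
  rw [hL, ← h2] at h1
  have h4 := h1.trans hr
  rw [Nat.cast_le] at h4
  omega

/-- **Products with an open factor covered by affine lines.** -/
theorem prod_a1 {L : Type} [Field L] [Algebra ℂ L] (U T : IntermediateField ℂ L)
    [Algebra.EssFiniteType ℂ U] {d r : ℕ} (hUT : U ⊔ T = ⊤) (hU : Algebra.trdeg ℂ U = d)
    (hT : Algebra.trdeg ℂ T = (r + 1 : ℕ)) (hL : Algebra.trdeg ℂ L = (d + r + 1 : ℕ))
    {BY : Place ℂ T → Prop} {Bd : Place ℂ L → Prop}
    (hBd : ∀ Q : Place ℂ L, Bd Q → ∃ (S : Place ℂ T) (e : ℕ), Over Q S e ∧ BY S)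
    (h : IsA1Uniruled ℂ T (r + 1) BY) : A1Over U (d + r + 1) Bd := by
  classical
  obtain ⟨M, _, _, φ, hM, htr, hφ⟩ := h
  have htr' : Algebra.trdeg ℂ M = r := by
    have h1 : Algebra.trdeg ℂ M ≤ ((r + 1 : ℕ) : Cardinal) := by
      rw [← htr]
      exact le_self_add
    obtain ⟨k, hk⟩ := Cardinal.lt_aleph0.1 (lt_of_le_of_lt h1 Cardinal.natCast_lt_aleph0)
    rw [hk] at htr ⊢
    have h2 : k + 1 = r + 1 := by exact_mod_cast htr
    have : k = r := by omega
    rw [this]
  let iT : Algebra T (RatFunc M) := φ.toRingHom.toAlgebra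
  have t1 : IsScalarTower ℂ T (RatFunc M) := IsScalarTower.of_algebraMap_eq fun c => by
    change _ = φ (algebraMap ℂ T c)
    rw [φ.commutes]
  have halg : Algebra.IsAlgebraic T (RatFunc M) := alg_of_trdeg hT (trdeg_total' htr)
  let κ := AlgebraicClosure L
  have t2 : IsScalarTower ℂ T κ := inferInstance
  let τ : RatFunc M →ₐ[T] κ := IsAlgClosed.lift
  let τ' : RatFunc M →ₐ[ℂ] κ := τ.restrictScalars ℂ
  let α : M →ₐ[ℂ] κ := τ'.comp (IsScalarTower.toAlgHom ℂ M (RatFunc M))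
  let φ0 : L →ₐ[ℂ] κ := IsScalarTower.toAlgHom ℂ L κ
  let β : U →ₐ[ℂ] κ := φ0.comp U.val
  let Λ : IntermediateField ℂ κ := β.fieldRange ⊔ α.fieldRange
  let t : κ := τ' RatFunc.X
  have hess : Algebra.EssFiniteType ℂ Λ := by
    obtain ⟨s1, h1⟩ := fg_map β
    obtain ⟨s2, h2⟩ := fg_map α
    rw [IntermediateField.essFiniteType_iff]
    refine ⟨s1 ∪ s2, ?_⟩
    rw [Finset.coe_union, IntermediateField.adjoin_union, h1, h2]
  obtain ⟨x, -, hx⟩ := alg_basis hU β
  obtain ⟨y, -, hy⟩ := alg_basis htr' α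
  have hr : Algebra.trdeg ℂ Λ ≤ (d + r : ℕ) := by
    refine trdeg_le_of_alg Λ (Fin.append x y) ?_
    have hxs : Set.range x ⊆ Set.range (Fin.append x y) := by
      rintro _ ⟨i, rfl⟩
      exact ⟨Fin.castAdd r i, Fin.append_left _ _ _⟩
    have hys : Set.range y ⊆ Set.range (Fin.append x y) := by
      rintro _ ⟨i, rfl⟩
      exact ⟨Fin.natAdd d i, Fin.append_right _ _ _⟩
    have hmono : ∀ {s s' : Set κ} (_ : s ⊆ s') {z : κ},
        IsAlgebraic (IntermediateField.adjoin ℂ s) z →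
        IsAlgebraic (IntermediateField.adjoin ℂ s') z := by
      intro s s' hs z hz
      have hle : IntermediateField.adjoin ℂ s ≤ IntermediateField.adjoin ℂ s' :=
        IntermediateField.adjoin.mono ℂ s s' hs
      let G : IntermediateField.adjoin ℂ s →+* IntermediateField.adjoin ℂ s' :=
        (IntermediateField.inclusion hle).toRingHom
      obtain ⟨p, hp0, hp⟩ := hz
      refine ⟨p.map G, (Polynomial.map_ne_zero_iff G.injective).2 hp0, ?_⟩
      rw [Polynomial.aeval_def, Polynomial.eval₂_map]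
      rw [Polynomial.aeval_def] at hp
      exact hp
    have hle : Λ ≤ (algebraicClosure (IntermediateField.adjoin ℂ
        (Set.range (Fin.append x y))) κ).restrictScalars ℂ := by
      refine sup_le (fun z hz => ?_) fun z hz => ?_
      · rw [mem_restrictScalars, mem_algebraicClosure_iff]
        exact hmono hxs (hx z hz)
      · rw [mem_restrictScalars, mem_algebraicClosure_iff]
        exact hmono hys (hy z hz)
    exact fun z hz => mem_algebraicClosure_iff.1 (hle hz)
  have hMmem : ∀ z : RatFunc M, τ' z ∈ Λ⟮t⟯ := by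
    intro z
    have h3 : z ∈ IntermediateField.adjoin M {(RatFunc.X : RatFunc M)} := by
      rw [RatFunc.adjoin_X]
      trivial
    obtain ⟨p, q, hpq⟩ := (mem_adjoin_simple_iff (F := M) _).1 h3
    have h4 : ∀ P : Polynomial M, τ' (Polynomial.aeval RatFunc.X P) ∈ Λ⟮t⟯ := by
      intro P
      rw [Polynomial.aeval_eq_sum_range, map_sum]
      refine sum_mem fun i _ => ?_
      rw [Algebra.smul_def, map_mul, map_pow]
      refine mul_mem ?_ (pow_mem (mem_adjoin_simple_self Λ t) i)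
      refine Λ⟮t⟯.algebraMap_mem ⟨_, ?_⟩
      exact (le_sup_right : α.fieldRange ≤ Λ) ⟨P.coeff i, rfl⟩
    rw [hpq, map_div₀]
    exact div_mem (h4 p) (h4 q)
  have hmem : ∀ a : L, φ0 a ∈ Λ⟮t⟯ := by
    have h1 : (⊤ : IntermediateField ℂ L) ≤ (Λ⟮t⟯.restrictScalars ℂ).comap φ0 := by
      rw [← hUT]
      refine sup_le (fun z hz => ?_) fun z hz => ?_
      · change φ0 z ∈ Λ⟮t⟯
        refine Λ⟮t⟯.algebraMap_mem ⟨_, ?_⟩
        exact (le_sup_left : β.fieldRange ≤ Λ) ⟨⟨z, hz⟩, rfl⟩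
      · change φ0 z ∈ Λ⟮t⟯
        have h2 : φ0 z = τ' (φ ⟨z, hz⟩) := (τ.commutes ⟨z, hz⟩).symm
        rw [h2]
        exact hMmem _
    exact fun a => h1 (by trivial : a ∈ (⊤ : IntermediateField ℂ L))
  have htt : Transcendental Λ t := trans_of_dim φ0 Λ t hr hL hmem
  have hdim := pack_dim φ0 Λ t hr hL htt hmem
  let e := RatFunc.algEquivOfTranscendental t htt
  let ψL : L →ₐ[ℂ] Λ⟮t⟯ :=
    { toFun := fun a => ⟨φ0 a, hmem a⟩
      map_one' := Subtype.ext (map_one φ0)
      map_mul' := fun a b => Subtype.ext (map_mul φ0 a b)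
      map_zero' := Subtype.ext (map_zero φ0)
      map_add' := fun a b => Subtype.ext (map_add φ0 a b)
      commutes' := fun c => Subtype.ext (φ0.commutes c) }
  let ψM : RatFunc M →+* Λ⟮t⟯ :=
    { toFun := fun a => ⟨τ' a, hMmem a⟩
      map_one' := Subtype.ext (map_one τ')
      map_mul' := fun a b => Subtype.ext (map_mul τ' a b)
      map_zero' := Subtype.ext (map_zero τ')
      map_add' := fun a b => Subtype.ext (map_add τ' a b) }
  let φL : L →ₐ[ℂ] RatFunc Λ :=
    ((e.symm.restrictScalars ℂ : Λ⟮t⟯ ≃ₐ[ℂ] RatFunc Λ) : Λ⟮t⟯ →ₐ[ℂ] RatFunc Λ).comp ψL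
  let φM : RatFunc M →+* RatFunc Λ :=
    ((e.symm : Λ⟮t⟯ ≃+* RatFunc Λ) : Λ⟮t⟯ →+* RatFunc Λ).comp ψM
  have hTM : ∀ z : T, φM (φ z) = φL (z : L) := by
    intro z
    change e.symm (ψM (φ z)) = e.symm (ψL z)
    congr 1
    exact Subtype.ext (τ.commutes z)
  have hφX : φM RatFunc.X = RatFunc.X := by
    change e.symm (ψM RatFunc.X) = _
    rw [AlgEquiv.symm_apply_eq]
    apply Subtype.ext
    exact (RatFunc.algEquivOfTranscendental_X t htt).symm
  refine ⟨Λ, inferInstance, inferInstance, φL, hess, hdim, fun z hz => ?_, ?_⟩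
  · refine ⟨⟨φ0 z, (le_sup_left : β.fieldRange ≤ Λ) ⟨⟨z, hz⟩, rfl⟩⟩, ?_⟩
    change _ = e.symm (ψL z)
    rw [← e.symm.commutes]
    rfl
  · intro w hwX Q c hc hwQ hB
    obtain ⟨S, e', hQS, hBS⟩ := hBd Q hB
    have hTw : ∀ f : T, w.ord (φM (φ f)) = (c * e' : ℕ) * S.ord f := by
      intro f
      rw [hTM, hwQ]
      have h1 := hQS.2 f
      change Q.ord (f : L) = _ at h1
      rw [h1]
      push_cast
      ring
    obtain ⟨f0, -, hf0⟩ := S.surj
    have hpos : 0 < c * e' := Nat.mul_pos hc hQS.1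
    obtain ⟨w', a, ha, hw'⟩ := Pool.Agent.W619.Y.exists_restrict (k := M) w φM
      (fun z hz => by
        have h1 : φM (algebraMap M (RatFunc M) z) = algebraMap Λ (RatFunc Λ)
            ⟨α z, (le_sup_right : α.fieldRange ≤ Λ) ⟨z, rfl⟩⟩ := by
          change e.symm (ψM (algebraMap M (RatFunc M) z)) = _
          rw [← e.symm.commutes]
          rfl
        rw [h1]
        refine w.ord_const fun h2 => hz ?_
        have h3 : α z = 0 := congrArg Subtype.val h2
        exact (map_eq_zero α).1 h3) (f0 := φ f0) (by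
        rw [hTw, hf0, mul_one]
        exact_mod_cast hpos.ne')
    have ha' : (0 : ℤ) < a := by exact_mod_cast ha
    have hRP : ∀ z : T, (a : ℤ) * w'.ord (φ z) = (c * e' : ℕ) * S.ord z := by
      intro z
      rw [← hw', hTw]
    have h4 := hRP f0
    rw [hf0, mul_one] at h4
    have h5 : 0 < w'.ord (φ f0) := by
      have h6 : (0 : ℤ) < (c * e' : ℕ) := by exact_mod_cast hpos
      rw [← h4] at h6
      exact (mul_pos_iff_of_pos_left ha').1 h6
    obtain ⟨e'', he'⟩ : ∃ e'' : ℕ, (e'' : ℤ) = w'.ord (φ f0) := ⟨_, Int.toNat_of_nonneg h5.le⟩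
    refine hφ w' ?_ S e'' (by omega) (fun z => ?_) hBS
    · right
      have h1 := hw' RatFunc.X
      rw [hφX] at h1
      rcases hwX with h2 | h2
      · exact absurd h2 RatFunc.X_ne_zero
      · rw [h1] at h2
        exact nonneg_of_mul_nonneg_right h2 ha'
    · have h6 := hRP z
      rw [← h4, ← he', mul_assoc] at h6
      exact mul_left_cancel₀ ha'.ne' h6

end Pool.Agent.U393.LT
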