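import Pool.Agent.U393.LT.MainB
import Pool.Agent.U393.LT.DownA
import Pool.Agent.U393.LT.UpA
import Pool.Agent.U393.LT.Below
import Pool.Agent.U393.LT.NegLog

/-!
Open varieties dominated by the product of open varieties whose logarithmic canonical forms separate
points and an arbitrary open variety.
-/

set_option autoImplicit false
set_option linter.overlappingInstances false
set_option linter.unusedSectionVars false
set_option linter.unusedVariables false
set_option maxHeartbeats 4000000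
set_option synthInstance.maxHeartbeats 400000

open FF IntermediateField Module Pool.Agent.W603.LV
open Pool.Agent.W602.GT (Divisorial RegAt IsPluri DerReg DerLog LogAt LogSec KodGe Psef)
open Pool.Agent.Y184.NT (trForm trForm_pluri)
open Pool.Agent.Y172 (exists_crd exists_lift lift_dual pluri_coord)
open Pool.Agent.R882.LT (SecAt LogGenusZero)
open Pool.Agent.N145.SX (HX SepX basis_zS trdeg_basis)
open Pool.Agent.W619.PL (IsA1Uniruled LogKodairaNeg)

namespace Pool.Agent.U393.LT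

/-- fewer boundary places -/
theorem A1Over.mono {L : Type} [Field L] [Algebra ℂ L] {U : IntermediateField ℂ L} {n : ℕ}
    {Bd Bd' : Place ℂ L → Prop} (h : A1Over U n Bd')
    (hB : ∀ Q : Place ℂ L, (∀ z ∈ U, Q.ord z = 0) → Bd Q → Bd' Q) : A1Over U n Bd := by
  obtain ⟨M, i1, i2, φ, h1, h2, hφ, h3⟩ := h
  refine ⟨M, i1, i2, φ, h1, h2, hφ, fun w hw v e he hv hBv => ?_⟩
  refine h3 w hw v e he hv (hB v (fun z hz => ?_) hBv)
  obtain ⟨c, hc⟩ := hφ z hz
  have h4 := hv z
  rw [← hc] at h4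
  have h5 : w.ord (algebraMap M (RatFunc M) c) = 0 := by
    by_cases h0 : c = 0
    · rw [h0, map_zero, w.ord_zero]
    · exact w.ord_const h0
  rw [h5] at h4
  rcases mul_eq_zero.1 h4.symm with h6 | h6
  · exact absurd h6 (by exact_mod_cast he.ne')
  · exact h6

section

variable {V : Type} [Field V] [Algebra ℂ V] {k : ℕ}

/-- logarithmic canonical forms -/
theorem hx_of_log {n : ℕ} {Bd : Place ℂ V → Prop} {ω : (Fin n → Derivation ℂ V V) → V}
    (hω : LogSec ℂ V n 1 Bd ω) {x : Fin n → V} {E : Fin n → Derivation ℂ V V}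
    (hx : IsTranscendenceBasis ℂ x) (hE : ∀ i j, E i (x j) = if i = j then 1 else 0) :
    ω E ∈ HX x Bd := by
  have h1 : trForm x (ω E) = ω := by
    funext D
    have h2 := pluri_coord hx hE hω.1 D
    rw [h2, pow_one, trForm]
  intro P hP
  rw [h1]
  exact ⟨hω.2.1 P hP, fun hB => hω.2.2 P hP hB⟩

/-- logarithmic Kodaira dimension `-∞` and sections -/
theorem kodGe_iff {K : Type} [Field K] [Algebra ℂ K] {n : ℕ} {Bd : Place ℂ K → Prop} :
    ¬ KodGe ℂ K n Bd 0 ↔ LogKodairaNeg ℂ K n Bd := by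
  constructor
  · intro h m hm ω hω hreg hlog D
    by_contra hne
    refine h ⟨m, hm, fun _ => ω, fun _ => ⟨hω, fun P hP => ?_, hreg⟩, D, hne,
      algebraicIndependent_empty_type⟩
    by_cases hB : Bd P
    · exact hlog P hP hB
    · exact fun D hD => hreg P hP hB D fun j => Pool.Agent.TH466.QG.derReg_of_log (hD j)
  · rintro h ⟨m, hm, ω, hω, D, hD, -⟩
    exact hD (h m hm (ω 0) (hω 0).1 (fun P hP hB => (hω 0).2.2 P hP hB)
      (fun P hP _ => (hω 0).2.1 P hP) D)

/-- **Open varieties dominated by products with an arbitrary open variety.** -/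
theorem prodvar_log [Algebra.EssFiniteType ℂ V] {n g : Fin k → ℕ}
    {F : Fin (k + 1) → IntermediateField ℂ V} {r s : ℕ}
    {BX : ∀ i, Place ℂ (F i) → Prop}
    (hn : ∀ i : Fin k, Algebra.trdeg ℂ (F i.castSucc) = n i)
    (hE : ∀ i : Fin k, ∃ x : Fin (n i) → F i.castSucc, IsTranscendenceBasis ℂ x ∧
      SepX x (BX i.castSucc) (g i))
    (hY : Algebra.trdeg ℂ (F (Fin.last k)) = (r + 1 : ℕ)) (hF : ⨆ i, F i = ⊤)
    (hV : Algebra.trdeg ℂ V = ((∑ i, n i) + (r + 1) : ℕ))
    (A : Fin (s + 1) → Finset (F (Fin.last k)))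
    (hA : ∀ S : Place ℂ (F (Fin.last k)), ¬ BX (Fin.last k) S ↔ ∃ j, ∀ a ∈ A j, S.Reg a)
    {W : Type} [Field W] [Algebra ℂ W]
    [Algebra W V] [IsScalarTower ℂ W V] [FiniteDimensional W V] {BW : Place ℂ W → Prop}
    (hB : ∀ (P : Place ℂ W) (Q : Place ℂ V) (e : ℕ), Over Q P e → (BW P ↔
      ∃ (i : Fin (k + 1)) (S : Place ℂ (F i)) (e' : ℕ), BX i S ∧ Over Q S e'))
    (hgen : IntermediateField.adjoin W (⋃ i : Fin k, (F i.castSucc : Set V)) = ⊤)
    (hdeg : ∀ i : Fin k, degF (fun i : Fin k => F i.castSucc) W i < g i) :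
    (IsA1Uniruled ℂ W ((∑ i, n i) + (r + 1)) BW ↔
      IsA1Uniruled ℂ (F (Fin.last k)) (r + 1) (BX (Fin.last k))) ∧
    (LogKodairaNeg ℂ (F (Fin.last k)) (r + 1) (BX (Fin.last k)) →
      LogKodairaNeg ℂ W ((∑ i, n i) + (r + 1)) BW) ∧
    ((IsA1Uniruled ℂ (F (Fin.last k)) (r + 1) (BX (Fin.last k)) ∨
      ∃ ω : (Fin (r + 1) → Derivation ℂ (F (Fin.last k)) (F (Fin.last k))) → F (Fin.last k),
        LogSec ℂ (F (Fin.last k)) (r + 1) 1 (BX (Fin.last k)) ω ∧ ω ≠ 0) →
      [LogGenusZero W ((∑ i, n i) + (r + 1)) BW,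
        LogKodairaNeg ℂ W ((∑ i, n i) + (r + 1)) BW,
        ¬ Psef ℂ W ((∑ i, n i) + (r + 1)) BW,
        IsA1Uniruled ℂ W ((∑ i, n i) + (r + 1)) BW].TFAE) := by
  classical
  have hFe : ∀ i, Algebra.EssFiniteType ℂ (F i) := fun i => Pool.Agent.N999.SX.ess_any (F i)
  have hUe : Algebra.EssFiniteType ℂ (⨆ i : Fin k, F i.castSucc : IntermediateField ℂ V) :=
    Pool.Agent.N999.SX.ess_any _
  have hWe : Algebra.EssFiniteType ℂ W := Pool.Agent.TH466.QG.ess_below (K := V)
  have hW : Algebra.trdeg ℂ W = ((∑ i, n i) + (r + 1) : ℕ) :=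
    Pool.Agent.Y184.NT.trdeg_below (K := V) hV
  obtain ⟨m, hm1, hm2⟩ : ∃ m : Fin (k + 1) → ℕ, (∀ i : Fin k, m i.castSucc = n i) ∧
      m (Fin.last k) = r + 1 :=
    ⟨fun i => Fin.lastCases (motive := fun _ => ℕ) (r + 1) n i,
      fun i => Fin.lastCases_castSucc (motive := fun _ => ℕ) i,
      Fin.lastCases_last (motive := fun _ => ℕ)⟩
  have hm : ∀ i, Algebra.trdeg ℂ (F i) = m i := by
    intro i
    induction i using Fin.lastCases with
    | last => rw [hm2, hY]
    | cast i => rw [hm1, hn i]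
  have hsum : ∑ i, m i = (∑ i, n i) + (r + 1) := by
    rw [Fin.sum_univ_castSucc, hm2]
    congr 1
    exact Finset.sum_congr rfl fun i _ => hm1 i
  have hV' : Algebra.trdeg ℂ V = (∑ i, m i : ℕ) := by rw [hsum, hV]
  have hall : ∀ i : Fin (k + 1), ∃ (x : Fin (m i) → F i) (E : Fin (m i) → Derivation ℂ (F i) (F i)),
      IsTranscendenceBasis ℂ x ∧ (∀ a b, E a (x b) = if a = b then 1 else 0) ∧
      ∀ j : Fin k, j.castSucc = i → SepX x (BX i) (g j) := by
    intro i
    induction i using Fin.lastCases with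
    | last =>
      obtain ⟨x, E, hx, hEx⟩ := exists_crd (hm (Fin.last k))
      exact ⟨x, E, hx, hEx, fun j hj => absurd hj (Fin.castSucc_ne_last _)⟩
    | cast i =>
      have h1 : ∃ x : Fin (m i.castSucc) → F i.castSucc, IsTranscendenceBasis ℂ x ∧
          SepX x (BX i.castSucc) (g i) := by
        rw [hm1]
        exact hE i
      obtain ⟨x, hx, hs⟩ := h1
      choose E hEx using fun a => Pool.Agent.W602.GT.exists_der x hx
        fun b => if a = b then (1 : F i.castSucc) else 0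
      refine ⟨x, E, hx, hEx, fun j hj => ?_⟩
      rw [Fin.castSucc_inj.1 hj]
      exact hs
  choose x Ex hx hEx hsep0 using hall
  have hU := trdeg_sup hF hV' hx
  obtain ⟨U, hUdef⟩ : ∃ U, U = (⨆ i : Fin k, F i.castSucc : IntermediateField ℂ V) := ⟨_, rfl⟩
  rw [← hUdef] at hU hUe
  have hUn : Algebra.trdeg ℂ U = (∑ i, n i : ℕ) := by
    rw [hU]
    congr 1
    exact Finset.sum_congr rfl fun i _ => hm1 i
  have hsup : U ⊔ F (Fin.last k) = ⊤ := by
    rw [hUdef]
    exact sup_last F hF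
  have hFU : ∀ i : Fin k, F i.castSucc ≤ U := fun i => by
    rw [hUdef]
    exact le_iSup (fun i : Fin k => F i.castSucc) i
  have hsep : ∀ i : Fin k, SepX (x i.castSucc) (BX i.castSucc) (g i) := fun i =>
    hsep0 _ i rfl
  -- the boundaries
  obtain ⟨BV, hBV⟩ : ∃ BV : Place ℂ V → Prop, ∀ Q, BV Q ↔
      ∃ (i : Fin (k + 1)) (S : Place ℂ (F i)) (e' : ℕ), BX i S ∧ Over Q S e' :=
    ⟨_, fun _ => Iff.rfl⟩
  have hBWV : ∀ (P : Place ℂ W) (Q : Place ℂ V) (e : ℕ), Over Q P e → (BW P ↔ BV Q) := by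
    intro P Q e h
    rw [hB P Q e h, hBV]
  have htrivS : ∀ (E : IntermediateField ℂ V) (Q : Place ℂ V) (S : Place ℂ E) (e : ℕ),
      Over Q S e → ¬ ∀ z ∈ E, Q.ord z = 0 := by
    intro E Q S e h hz
    obtain ⟨f, -, hf⟩ := S.surj
    have h1 := h.2 f
    have h2 : Q.ord (f : V) = 0 := hz f f.2
    change Q.ord (f : V) = _ at h1
    rw [h2, hf, mul_one] at h1
    have h3 := h.1
    omega
  have hBU : ∀ Q : Place ℂ V, (∀ z ∈ U, Q.ord z = 0) → BV Q →
      ∃ (S : Place ℂ (F (Fin.last k))) (e : ℕ), Over Q S e ∧ BX (Fin.last k) S := by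
    intro Q hQ hQB
    obtain ⟨i, S, e, hS, hQS⟩ := (hBV Q).1 hQB
    induction i using Fin.lastCases with
    | last => exact ⟨S, e, hQS, hS⟩
    | cast i => exact absurd (fun z hz => hQ z (hFU i hz)) (htrivS _ Q S e hQS)
  have h1 : IsA1Uniruled ℂ W ((∑ i, n i) + (r + 1)) BW →
      IsA1Uniruled ℂ (F (Fin.last k)) (r + 1) (BX (Fin.last k)) := by
    intro h
    have h2 := cover_a1 hW (F := fun i : Fin k => F i.castSucc)
      (fun i => hm i.castSucc) (fun i => hx i.castSucc) (BX := fun i => BX i.castSucc) hsep hdeg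
      (BK := BW) (fun P Q e hPQ i S e' hS hQS => (hB P Q e hPQ).2 ⟨i.castSucc, S, e', hS, hQS⟩)
      hgen h
    rw [← hUdef] at h2
    refine product_downA U (F (Fin.last k)) hsup hUn hY hV A hA (fun Q S e hQS hS => ?_) h2
    obtain ⟨P, e1, hP⟩ := Pool.Agent.Y172.exists_below (K := W) Q
    exact ⟨P, e1, hP, (hB P Q e1 hP).2 ⟨_, S, e, hS, hQS⟩⟩
  have h2 : IsA1Uniruled ℂ (F (Fin.last k)) (r + 1) (BX (Fin.last k)) →
      IsA1Uniruled ℂ W ((∑ i, n i) + (r + 1)) BW := by
    intro h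
    have h3 := prod_a1 U (F (Fin.last k)) hsup hUn hY hV
      (Bd := fun Q => ∃ (S : Place ℂ (F (Fin.last k))) (e : ℕ), Over Q S e ∧
        BX (Fin.last k) S) (fun Q hQ => hQ) h
    exact a1_below (fun P Q e h hP => (hBWV P Q e h).1 hP)
      (h3.mono (Bd := BV) hBU).uniruled
  refine ⟨⟨h1, h2⟩, ?_, ?_⟩
  · rw [logneg_iff hY, logneg_iff hW]
    intro h3 h4
    apply h3
    obtain ⟨N, hN, hi⟩ := Pool.Agent.U192.PT.kod_zero.1 h4
    have hprod : Pool.Agent.U192.PN.IsProd U (F (Fin.last k)) ((∑ i, n i) + (r + 1)) (ind BV)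
        (ind (BX (Fin.last k))) := by
      intro Q hQ hQU
      refine ⟨fun htriv => ?_, fun v e hv => ?_⟩
      · rw [ind_not]
        intro hQB
        obtain ⟨S, e, hS, -⟩ := hBU Q hQU hQB
        exact htrivS _ Q S e hS htriv
      · by_cases hQB : BV Q
        · obtain ⟨S, e', hS, hBS⟩ := hBU Q hQU hQB
          obtain ⟨rfl, rfl⟩ := Pool.Agent.Y172.over_unique' hv hS
          rw [ind_of hQB, ind_of hBS, sub_self, mul_zero, sub_zero]
          exact le_max_right _ _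
        · rw [ind_not hQB]
          exact le_max_left _ _
    obtain ⟨ST, h5, hST⟩ := Pool.Agent.U192.PT.sec_down (K := W) hsup hUn hY hV
      (δ := ind BW) (δV := ind BV) (pull_ind hBWV) (δT := ind (BX (Fin.last k)))
      (ind_nonneg _) hprod {1}
    rw [h5 rfl] at hST
    exact Pool.Agent.U192.PT.kod_zero.2 ⟨N, hN, hST N hi⟩
  · intro h3
    have h4 : LogGenusZero W ((∑ i, n i) + (r + 1)) BW →
        IsA1Uniruled ℂ W ((∑ i, n i) + (r + 1)) BW := by
      intro hz
      rcases h3 with h3 | ⟨ω, hω, hne⟩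
      · exact h2 h3
      exfalso
      have hωm : ∃ ω' : (Fin (m (Fin.last k)) → Derivation ℂ (F (Fin.last k)) (F (Fin.last k))) →
          F (Fin.last k), LogSec ℂ (F (Fin.last k)) (m (Fin.last k)) 1 (BX (Fin.last k)) ω' ∧
          ω' ≠ 0 := by
        rw [hm2]
        exact ⟨ω, hω, hne⟩
      obtain ⟨ω', hω', hne'⟩ := hωm
      have hψ := hx_of_log hω' (hx (Fin.last k)) (hEx (Fin.last k))
      refine genus_core (K := W) hF hm hV' hx (BX := BX) (BK := BW)
        (fun P Q e h hQ => (hB P Q e h).2 hQ) hsep hdeg hgen hψ ?_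
        (by rw [hsum]; exact hz)
      intro h0
      apply hne'
      funext D
      rw [pluri_coord (hx (Fin.last k)) (hEx (Fin.last k)) hω'.1 D, h0, mul_zero]
      rfl
    have h5 := Pool.Agent.N145.PL.tfaeL hW h4
    rw [kodGe_iff] at h5
    exact h5

end

end Pool.Agent.U393.LT
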