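import Mathlib

/-!
Completing a transcendence basis with elements of a field of codimension one.
-/

set_option autoImplicit false
set_option linter.overlappingInstances false
set_option linter.unusedSectionVars false
set_option maxHeartbeats 4000000
set_option synthInstance.maxHeartbeats 400000

open IntermediateField

namespace Pool.Agent.U393.LT

theorem trdeg_simple {M R : Type} [Field M] [Field R] [Algebra M R] {t : R}
    (ht : Transcendental M t) (htop : IntermediateField.adjoin M {t} = ⊤) :
    Algebra.trdeg M R = 1 := by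
  have hi : AlgebraicIndependent M (fun _ : Unit => t) := by
    rw [algebraicIndependent_unique_type_iff]
    exact ht
  have h5 : IsTranscendenceBasis M (fun _ : Unit => t) := by
    rw [hi.isTranscendenceBasis_iff_isAlgebraic, ← IntermediateField.isAlgebraic_adjoin_iff_top,
      Set.range_const, htop]
    exact ⟨fun z => isAlgebraic_algebraMap (⟨z, trivial⟩ : (⊤ : IntermediateField M R))⟩
  have h6 := h5.cardinalMk_eq_trdeg
  rw [← h6]
  simp

theorem exists_compl {R Ω : Type} [Field R] [Field Ω] [Algebra ℂ R] [Algebra ℂ Ω] [Algebra R Ω]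
    [IsScalarTower ℂ R Ω] [FiniteDimensional R Ω] {M : IntermediateField ℂ R} {t : R} {n : ℕ}
    (hn : Algebra.trdeg ℂ Ω = n) (ht : Transcendental M t)
    (htop : IntermediateField.adjoin M {t} = ⊤) {d : ℕ} {x : Fin d → Ω}
    (hx : AlgebraicIndependent ℂ x) {l : Fin d} (hl : Transcendental M (x l)) :
    ∃ (r : ℕ) (b : Fin r → M), n = d + r ∧
      IsTranscendenceBasis ℂ (Fin.append x (fun j => algebraMap R Ω (b j : R))) := by
  classical
  have h1 : Algebra.trdeg M Ω = 1 := by
    have h2 := _root_.trdeg_add_eq M R (A := Ω)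
    rw [trdeg_simple ht htop, _root_.trdeg_eq_zero (R := R) (A := Ω), add_zero] at h2
    exact h2.symm
  have hb1 : IsTranscendenceBasis M (fun _ : Unit => x l) := by
    have h2 : AlgebraicIndependent M (fun _ : Unit => x l) := by
      rw [algebraicIndependent_unique_type_iff]
      exact hl
    refine h2.isTranscendenceBasis_of_lift_trdeg_le_of_finite ?_
    rw [h1]
    simp
  have hb2 := hb1.isAlgebraic_field
  rw [Set.range_const] at hb2
  obtain ⟨S0, hS0⟩ : ∃ S0 : Set Ω, S0 = Set.range x ∪ Set.range fun m : M => algebraMap R Ω m :=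
    ⟨_, rfl⟩
  obtain ⟨A0, hA0⟩ : ∃ A0 : IntermediateField ℂ Ω, A0 = IntermediateField.adjoin ℂ S0 := ⟨_, rfl⟩
  have hsub : ∀ z ∈ IntermediateField.adjoin M ({x l} : Set Ω), z ∈ A0 := by
    intro z hz
    refine IntermediateField.adjoin_induction M (p := fun z _ => z ∈ A0) ?_ ?_ ?_ ?_ ?_ hz
    · rintro _ rfl
      rw [hA0, hS0]
      exact IntermediateField.subset_adjoin _ _ (Or.inl ⟨l, rfl⟩)
    · intro m
      rw [hA0, hS0]
      exact IntermediateField.subset_adjoin _ _ (Or.inr ⟨m, rfl⟩)
    · intro a b _ _ ha hb
      exact add_mem ha hb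
    · intro a _ ha
      exact inv_mem ha
    · intro a b _ _ ha hb
      exact mul_mem ha hb
  have halg : Algebra.IsAlgebraic (Algebra.adjoin ℂ S0) Ω := by
    refine ⟨fun z => ?_⟩
    have h2 := hb2.isAlgebraic z
    have h3 : IsAlgebraic A0 z :=
      h2.ringHom_of_comp_eq ({ toFun := fun w => ⟨w, hsub w w.2⟩
                               map_one' := rfl
                               map_mul' := fun _ _ => rfl
                               map_zero' := rfl
                               map_add' := fun _ _ => rfl } :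
          IntermediateField.adjoin M ({x l} : Set Ω) →+* A0) (RingHom.id Ω)
        (fun a b hab => Subtype.ext (congrArg (fun z : A0 => (z : Ω)) hab)) (by ext w; rfl)
    rw [hA0, IntermediateField.isAlgebraic_adjoin_iff] at h3
    exact h3
  obtain ⟨u, hu1, hu2, hu⟩ := exists_isTranscendenceBasis_between (R := ℂ) (Set.range x) S0
    (by rw [hS0]; exact Set.subset_union_left) hx.to_subtype_range
  have hcu := hu.cardinalMk_eq_trdeg
  rw [hn] at hcu
  have hfin : u.Finite := by
    apply Cardinal.lt_aleph0_iff_set_finite.1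
    rw [hcu]
    exact Cardinal.natCast_lt_aleph0
  have hcard : u.ncard = n := by
    rw [← Set.cast_ncard hfin] at hcu
    exact_mod_cast hcu
  have hcx : (Set.range x).ncard = d := by
    rw [← Set.image_univ, Set.ncard_image_of_injective _ hx.injective, Set.ncard_univ,
      Nat.card_eq_fintype_card, Fintype.card_fin]
  have hle : (Set.range x).ncard ≤ u.ncard := Set.ncard_le_ncard hu1 hfin
  obtain ⟨r, hr⟩ : ∃ r, r = (u \ Set.range x).ncard := ⟨_, rfl⟩
  have hdr : n = d + r := by
    have h2 := Set.ncard_sdiff hu1 (Set.finite_range x)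
    rw [hcard, hcx] at h2
    rw [hcard, hcx] at hle
    omega
  have hfd : (u \ Set.range x).Finite := hfin.subset Set.sdiff_subset
  obtain ⟨e⟩ : Nonempty (Fin r ≃ (u \ Set.range x : Set Ω)) := by
    have : Finite (u \ Set.range x : Set Ω) := hfd
    exact ⟨(Finite.equivFinOfCardEq hr.symm).symm⟩
  have hbM : ∀ j : Fin r, ∃ m : M, algebraMap R Ω m = (e j : Ω) := by
    intro j
    have h2 := hu2 (e j).2.1
    rw [hS0] at h2
    rcases h2 with h2 | h2
    · exact absurd h2 (e j).2.2
    · exact h2
  choose b hb using hbM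
  refine ⟨r, b, hdr, ?_⟩
  have hmem : ∀ i, Fin.append x (fun j => algebraMap R Ω (b j : R)) i ∈ u := by
    intro i
    refine Fin.addCases (fun i => ?_) (fun j => ?_) i
    · rw [Fin.append_left]
      exact hu1 ⟨i, rfl⟩
    · rw [Fin.append_right, hb]
      exact (e j).2.1
  have hinj : Function.Injective (Fin.append x (fun j => algebraMap R Ω (b j : R))) := by
    rw [Fin.append_injective_iff]
    refine ⟨hx.injective, ?_, ?_⟩
    · intro j j' h
      beta_reduce at h
      rw [hb, hb] at h
      exact e.injective (Subtype.ext h)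
    · intro i j h
      beta_reduce at h
      rw [hb] at h
      exact (e j).2.2 ⟨i, h⟩
  have hind : AlgebraicIndependent ℂ (Fin.append x (fun j => algebraMap R Ω (b j : R))) :=
    hu.1.comp (fun i => (⟨_, hmem i⟩ : u)) fun a b hab => hinj (congrArg Subtype.val hab)
  refine hind.isTranscendenceBasis_of_lift_trdeg_le_of_finite ?_
  rw [hn, hdr]
  simp

end Pool.Agent.U393.LT
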