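import Pool.Agent.U393.UT.Cover
import Pool.Agent.U393.LT.Cover

/-!
`A¹`-uniruled images of a family over a positive base: norms.
-/

set_option autoImplicit false
set_option linter.overlappingInstances false
set_option linter.unusedSectionVars false
set_option maxHeartbeats 400000
set_option synthInstance.maxHeartbeats 400000

open FF IntermediateField Pool.Agent.W602.GT Pool.Agent.W603.LV Pool.Agent.W619.PQ
  Pool.Agent.Y172
open Pool.Agent.U192.NM (dg pol)
open Pool.Agent.U192.PB (up)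
open Pool.Agent.W619.PL (IsA1Uniruled)

namespace Pool.Agent.U393.LT

/-- **`A¹`-uniruled images.** -/
theorem cover_a1n {L : Type} [Field L] [Algebra ℂ L] [Algebra.EssFiniteType ℂ L]
    (U : IntermediateField ℂ L) {K : Type} [Field K] [Algebra ℂ K] [Algebra K L]
    [IsScalarTower ℂ K L] [FiniteDimensional K L]
    (hKU : IntermediateField.adjoin K (U : Set L) = ⊤) {κ d n m : ℕ}
    (X : Fin κ → Finset U) (hX : IntermediateField.adjoin ℂ (⋃ i, (X i : Set U)) = ⊤)
    (hU : Algebra.trdeg ℂ U = d) (hn : Algebra.trdeg ℂ K = n) (hm : 1 ≤ m)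
    {α : (Fin d → Derivation ℂ U U) → U} (hα : IsPluri m α) (hα0 : α ≠ 0)
    (hpos : ∀ v : Place ℂ U, Divisorial d v → ∀ G : Fin d → Derivation ℂ U U,
      (∀ i, DerReg v (G i)) → α G = 0 ∨
      ∑ i, 2 * (m : ℤ) * ((dg K (up U X) i : ℤ) - 1) * pol (X i) v ≤
        v.ord (α G)) {BK : Place ℂ K → Prop}
    (h : IsA1Uniruled ℂ K n BK) :
    A1Over U n (fun Q => ∃ (P : Place ℂ K) (e : ℕ), Over Q P e ∧ BK P) := by
  classical
  have hKe : Algebra.EssFiniteType ℂ K := Pool.Agent.TH466.QG.ess_below (K := L)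
  refine cover_core hn (G := (U : Set L)) hKU ?_ h ?_
  · apply le_antisymm
    · rw [IntermediateField.adjoin_le_iff]
    · exact fun z hz => IntermediateField.subset_adjoin _ _ hz
  · intro R Ω _ _ _ _ _ _ _ _ _ _ _ _ _ _ _ _ M t ht htop hA D0 hDt hDM DΩ hDΩ u hu
    have hft : Fintype (Ω ≃ₐ[K] Ω) := Fintype.ofFinite _
    have hfR : FiniteDimensional K R := FiniteDimensional.left K R Ω
    obtain ⟨x, Ex, hx, hEx⟩ := exists_crd (k := ℂ) (K := U) hU
    have ha : α Ex ≠ 0 := by
      intro h0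
      apply hα0
      funext D
      have h1 := pluri_coord hx hEx (m := m) (ω := α) hα D
      rw [h1, h0, mul_zero]
      rfl
    obtain ⟨s, hs0, hs⟩ := Pool.Agent.U192.TD.tensor_reg (K := K) (L := L) Ω U X hX hU hn hα hpos
      hx hEx
    have hxL : AlgebraicIndependent ℂ (fun l => (x l : L)) :=
      hx.1.map' (f := U.val) U.val.toRingHom.injective
    have hxΩ : AlgebraicIndependent ℂ (fun l => algebraMap L Ω (x l)) :=
      hxL.map' (f := IsScalarTower.toAlgHom ℂ L Ω) (algebraMap L Ω).injective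
    have ha' : algebraMap L Ω (α Ex : U) ≠ 0 := by
      rw [Ne, map_eq_zero]
      exact fun h0 => ha (Subtype.ext h0)
    have hDx : ∀ l, DΩ (algebraMap L Ω (x l)) = 0 := fun l =>
      Pool.Agent.U192.TD.ruled_const (K := K) (L := R) (Ω := Ω) hn hxΩ ha' hm hs0 hs ht htop hDt
        hDM hDΩ AlgEquiv.refl l
    have tU : IsScalarTower ℂ U Ω := IsScalarTower.of_algebraMap_eq fun c => by
      change algebraMap ℂ Ω c = algebraMap L Ω (algebraMap ℂ L c)
      rw [← IsScalarTower.algebraMap_apply ℂ L Ω]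
    exact Pool.Agent.W619.TW.der_zero (DΩ.compAlgebraMap U) x hx hDx ⟨u, hu⟩

end Pool.Agent.U393.LT
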