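import Pool.Agent.U393.LT.Frame
import Pool.Agent.U393.LT.Compl
import Pool.Agent.N442.SX.SEC2
import Pool.Agent.N123.SX.PULL
import Pool.Agent.U192.TD.Ruled

/-!
The functions on a variety whose logarithmic canonical forms separate points are constant along the
affine lines on a ruled cover.
-/

set_option autoImplicit false
set_option linter.overlappingInstances false
set_option linter.unusedSectionVars false
set_option linter.unusedVariables false
set_option maxHeartbeats 4000000
set_option synthInstance.maxHeartbeats 400000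

open FF IntermediateField Module Pool.Agent.W619.PQ Pool.Agent.W603.LV Pool.Agent.Y172
open Pool.Agent.W602.GT (Divisorial RegAt IsPluri DerReg DerLog LogAt)
open Pool.Agent.Y184.NT (trForm trForm_pluri)
open Pool.Agent.N145.SX (HX SepX)
open Pool.Agent.U192.PT (der_eq_of_alg)

namespace Pool.Agent.U393.LT

section

variable {U Ω : Type} [Field U] [Field Ω] [Algebra ℂ U] [Algebra ℂ Ω] [Algebra U Ω]
  [IsScalarTower ℂ U Ω] [Algebra.EssFiniteType ℂ U]

/-- the product of a logarithmic canonical form and the differentials of regular functions -/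
theorem reg_form {d r : ℕ} (hU : Algebra.trdeg ℂ U = d) (hΩ : Algebra.trdeg ℂ Ω = (d + r : ℕ))
    {x : Fin d → U} (hx : IsTranscendenceBasis ℂ x) {BX : Place ℂ U → Prop} {φ : U}
    (hφ : φ ∈ HX x BX) {b : Fin r → Ω} {Q : Place ℂ Ω} (hQ : Divisorial (d + r) Q)
    (hb : ∀ j, Q.Reg (b j)) :
    LogAt Q (trForm (Fin.append (fun i => algebraMap U Ω (x i)) b) (algebraMap U Ω φ)) ∧
    ((¬ ∃ (P : Place ℂ U) (e : ℕ), BX P ∧ Over Q P e) →
      RegAt Q (trForm (Fin.append (fun i => algebraMap U Ω (x i)) b) (algebraMap U Ω φ))) := by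
  have hb' : ∀ D : Fin r → Derivation ℂ Ω Ω, (∀ i, DerReg Q (D i)) →
      Q.Reg ((Matrix.of fun i j => D i (b j) : Matrix (Fin r) (Fin r) Ω).det * 1) := by
    intro D hD
    rw [mul_one]
    have h9 : Ge Q 0 (Matrix.of fun i j => D i (b j) : Matrix (Fin r) (Fin r) Ω).det :=
      Pool.Agent.W603.LV.ge_det Q _ _ (fun _ _ => 0) (fun a c => hD a _ (hb c))
        fun σ => by simp
    exact h9
  refine ⟨fun D hD => ?_, fun hQB D hD => ?_⟩
  · have h1 := Pool.Agent.N442.SX.core Q (DerLog Q) (Pool.Agent.N442.SX.derLog_sub Q)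
      (fun i => algebraMap U Ω (x i)) b (algebraMap U Ω φ) 1
      (fun D' hD' => Pool.Agent.N123.SX.PULL U Ω d (d + r) hU hΩ x hx BX φ hφ Q hQ D'
        (Or.inl hD'))
      (fun D' hD' => hb' D' fun i => Pool.Agent.TH466.QG.derReg_of_log (hD' i)) D hD
    rw [mul_one] at h1
    exact h1
  · have h1 := Pool.Agent.N442.SX.core Q (DerReg Q) (Pool.Agent.N442.SX.derReg_sub Q)
      (fun i => algebraMap U Ω (x i)) b (algebraMap U Ω φ) 1
      (fun D' hD' => Pool.Agent.N123.SX.PULL U Ω d (d + r) hU hΩ x hx BX φ hφ Q hQ D'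
        (Or.inr ⟨hQB, hD'⟩))
      (fun D' hD' => hb' D' hD') D hD
    rw [mul_one] at h1
    exact h1

end

section

variable {U R Ω : Type} [Field U] [Field R] [Field Ω] [Algebra ℂ U] [Algebra ℂ R] [Algebra ℂ Ω]
  [Algebra R Ω] [Algebra U Ω] [IsScalarTower ℂ R Ω] [IsScalarTower ℂ U Ω]
  [FiniteDimensional R Ω] [IsGalois R Ω] [Algebra.EssFiniteType ℂ U] [Algebra.EssFiniteType ℂ R]

/-- **The functions on the base are constant along the lines.** -/
theorem const_of_sep {n d g : ℕ} (hnR : Algebra.trdeg ℂ R = n) (hU : Algebra.trdeg ℂ U = d)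
    {x : Fin d → U} (hx : IsTranscendenceBasis ℂ x) {BX : Place ℂ U → Prop} (hsep : SepX x BX g)
    {M : IntermediateField ℂ R} {t : R} (ht : Transcendental M t)
    (htop : IntermediateField.adjoin M {t} = ⊤)
    (hdeg : finrank R (IntermediateField.adjoin R (Set.range (algebraMap U Ω))) < g)
    (hB : ∀ w : Place ℂ R, (∀ m : M, m ≠ 0 → w.ord (m : R) = 0) → w.Reg t →
      ∀ (Q : Place ℂ Ω) (e : ℕ), Over Q w e → ¬ ∃ (P : Place ℂ U) (e' : ℕ), BX P ∧ Over Q P e')
    {D0 : Derivation ℂ R R} (hDt : D0 t = 1) (hDM : ∀ μ : M, D0 (μ : R) = 0)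
    {DΩ : Derivation ℂ Ω Ω} (hDΩ : ∀ z, DΩ (algebraMap R Ω z) = algebraMap R Ω (D0 z)) (u : U) :
    DΩ (algebraMap U Ω u) = 0 := by
  classical
  suffices hxl : ∀ l, DΩ (algebraMap U Ω (x l)) = 0 from
    Pool.Agent.W619.TW.der_zero (DΩ.compAlgebraMap U) x hx hxl u
  intro l
  by_contra hne
  have hΩe : Algebra.EssFiniteType ℂ Ω := Algebra.EssFiniteType.comp ℂ R Ω
  have hnΩ : Algebra.trdeg ℂ Ω = n := trdeg_up (K := R) hnR
  obtain ⟨y, E, i0, w, hy, hE, hyi0, hE0M, hEt, hwt, hdiv, hwM, hfin, hinf, hord⟩ :=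
    frameL (k := ℂ) hnR ht htop
  have hD0 : D0 = E i0 := Pool.Agent.U192.TD.ruling_unique ht htop hDt hEt hDM hE0M
  choose EΩ hEΩ using fun i => exists_lift (L := Ω) hnR (E i)
  have hDE : DΩ = EΩ i0 := der_eq_of_alg (K := R) hnR fun z => by rw [hDΩ, hD0, hEΩ]
  have hyΩ : IsTranscendenceBasis ℂ (fun j => algebraMap R Ω (y j)) := hy.algebraMap_comp
  have hE' : ∀ i j, E i (y j) = if i = j then 1 else 0 := by
    intro i j
    rw [hE]
    by_cases hij : i = j
    · rw [if_pos hij, if_pos hij.symm]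
    · rw [if_neg hij, if_neg (Ne.symm hij)]
  have hdual := lift_dual (L := Ω) hE' hEΩ
  -- the complementary functions
  have hxΩ : AlgebraicIndependent ℂ (fun l => algebraMap U Ω (x l)) :=
    hx.1.map' (f := IsScalarTower.toAlgHom ℂ U Ω) (algebraMap U Ω).injective
  have htr : Transcendental M (algebraMap U Ω (x l)) := by
    intro halg
    apply hne
    let C0 : IntermediateField ℂ Ω :=
      { carrier := {f | DΩ f = 0}
        mul_mem' := fun {f g} hf hg => by
          change DΩ (f * g) = 0
          rw [DΩ.leibniz, show DΩ f = 0 from hf, show DΩ g = 0 from hg]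
          simp
        add_mem' := fun {f g} hf hg => by
          change DΩ (f + g) = 0
          rw [map_add, show DΩ f = 0 from hf, show DΩ g = 0 from hg, add_zero]
        algebraMap_mem' := fun c => DΩ.map_algebraMap c
        inv_mem' := fun f hf => by
          change DΩ f⁻¹ = 0
          rw [DΩ.leibniz_inv, show DΩ f = 0 from hf, smul_zero] }
    have hMC : ∀ m : M, algebraMap R Ω m ∈ C0 := fun m => by
      change DΩ (algebraMap R Ω m) = 0
      rw [hDΩ, hDM, map_zero]
    refine Pool.Agent.R882.WR.der_alg (E := C0) DΩ (fun c hc => hc) ?_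
    exact halg.ringHom_of_comp_eq ({ toFun := fun m => ⟨algebraMap R Ω m, hMC m⟩
                                     map_one' := Subtype.ext (map_one (algebraMap R Ω))
                                     map_mul' := fun a b => Subtype.ext (map_mul (algebraMap R Ω) _ _)
                                     map_zero' := Subtype.ext (map_zero (algebraMap R Ω))
                                     map_add' := fun a b => Subtype.ext (map_add (algebraMap R Ω) _ _) } :
        M →+* C0) (RingHom.id Ω) (fun a b hab => by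
          have h1 := congrArg (fun z : C0 => (z : Ω)) hab
          exact Subtype.ext ((algebraMap R Ω).injective h1)) (by ext m; rfl)
  obtain ⟨r, b, rfl, hz⟩ := exists_compl hnΩ ht htop hxΩ htr
  obtain ⟨z, hzdef⟩ : ∃ z : Fin (d + r) → Ω, z =
    Fin.append (fun l => algebraMap U Ω (x l)) (fun j => algebraMap R Ω (b j : R)) := ⟨_, rfl⟩
  rw [← hzdef] at hz
  obtain ⟨h, hh⟩ : ∃ h, h = (Matrix.of fun i j => EΩ i (z j) :
    Matrix (Fin (d + r)) (Fin (d + r)) Ω).det := ⟨_, rfl⟩
  have hval : ∀ g : Ω, trForm z g EΩ = h * g := fun g => by rw [trForm, hh]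
  have hh0 : h ≠ 0 := by
    intro h0
    choose Z hZ using fun i : Fin (d + r) => Pool.Agent.W602.GT.exists_der _ hz
      fun j => if i = j then (1 : Ω) else 0
    have h1 := pluri_coord hyΩ hdual (trForm_pluri z (1 : Ω)) Z
    rw [hval, h0, zero_mul, mul_zero] at h1
    have h2 : (Matrix.of fun i j => Z i (z j) : Matrix (Fin (d + r)) (Fin (d + r)) Ω) = 1 := by
      ext i j
      rw [Matrix.of_apply, hZ, Matrix.one_apply]
    rw [trForm, h2, Matrix.det_one, one_mul] at h1
    exact one_ne_zero h1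
  -- the traces
  have htrace : ∀ φ ∈ HX x BX, Algebra.trace R Ω (h * algebraMap U Ω φ) = 0 := by
    intro φ hφ
    rw [← hval]
    have hregb : ∀ {P : Place ℂ R}, (∀ m : M, m ≠ 0 → P.ord (m : R) = 0) →
        ∀ {Q : Place ℂ Ω} {e : ℕ}, Over Q P e → ∀ j, Q.Reg (algebraMap R Ω (b j : R)) := by
      intro P hP Q e hQ j
      refine hQ.reg.2 ?_
      by_cases h0 : b j = 0
      · rw [h0]
        exact P.reg_zero
      · right
        rw [hP _ h0]
    refine top_zero hE ht hwt hfin hinf hord (fun w' hw' hc hr => ?_) ?_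
    · refine Pool.Agent.R882.LT.trForm_regAt hnR hy hE' hEΩ _ (trForm_pluri _ _) w' hw'
        fun Q e hQ => ?_
      rw [hzdef]
      exact (reg_form hU hnΩ hx hφ (divisorial_up hQ hw') (hregb hc hQ)).2 (hB w' hc hr Q e hQ)
    · refine Pool.Agent.R882.LT.trForm_logAt hnR hy hE' hEΩ _ (trForm_pluri _ _) w hdiv
        fun Q e hQ => ?_
      rw [hzdef]
      exact (reg_form hU hnΩ hx hφ (divisorial_up hQ hdiv) (hregb hwM hQ)).1
  -- the embeddings
  let Ωc := AlgebraicClosure Ω
  let ρ : (Ω ≃ₐ[R] Ω) → (U →ₐ[ℂ] Ωc) := fun σ =>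
    { toFun := fun u => algebraMap Ω Ωc (σ (algebraMap U Ω u))
      map_one' := by simp
      map_mul' := fun a b => by simp
      map_zero' := by simp
      map_add' := fun a b => by simp
      commutes' := fun c => by
        rw [← IsScalarTower.algebraMap_apply ℂ U Ω, IsScalarTower.algebraMap_apply ℂ R Ω,
          σ.commutes, ← IsScalarTower.algebraMap_apply ℂ R Ω,
          ← IsScalarTower.algebraMap_apply ℂ Ω Ωc] }
  obtain ⟨A, hA⟩ : ∃ A : Finset (U →ₐ[ℂ] Ωc), A = Finset.univ.image ρ := ⟨_, rfl⟩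
  have hcard : A.card < g := by
    refine lt_of_le_of_lt ?_ hdeg
    let F := IntermediateField.adjoin R (Set.range (algebraMap U Ω))
    have h1 : Fintype.card (F →ₐ[R] Ωc) = finrank R F := AlgHom.card R F Ωc
    have hcR : CharZero R := charZero_of_injective_algebraMap (algebraMap ℂ R).injective
    rw [← h1, ← Finset.card_univ]
    let res : (F →ₐ[R] Ωc) → (U →ₐ[ℂ] Ωc) := fun τ =>
      { toFun := fun u => τ ⟨algebraMap U Ω u, IntermediateField.subset_adjoin _ _ ⟨u, rfl⟩⟩
        map_one' := by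
          rw [← map_one τ]
          congr 1
          exact Subtype.ext (map_one _)
        map_mul' := fun a b => by
          rw [← map_mul]
          congr 1
          exact Subtype.ext (map_mul _ _ _)
        map_zero' := by
          rw [← map_zero τ]
          congr 1
          exact Subtype.ext (map_zero _)
        map_add' := fun a b => by
          rw [← map_add]
          congr 1
          exact Subtype.ext (map_add _ _ _)
        commutes' := fun c => by
          have h2 : (⟨algebraMap U Ω (algebraMap ℂ U c),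
              IntermediateField.subset_adjoin _ _ ⟨_, rfl⟩⟩ : F) =
              algebraMap R F (algebraMap ℂ R c) := by
            apply Subtype.ext
            change algebraMap U Ω (algebraMap ℂ U c) = algebraMap R Ω (algebraMap ℂ R c)
            rw [← IsScalarTower.algebraMap_apply ℂ U Ω, ← IsScalarTower.algebraMap_apply ℂ R Ω]
          rw [h2, τ.commutes, IsScalarTower.algebraMap_apply R Ω Ωc,
            ← IsScalarTower.algebraMap_apply ℂ R Ω, ← IsScalarTower.algebraMap_apply ℂ Ω Ωc] }
    refine le_trans ?_ (Finset.card_image_le (s := Finset.univ) (f := res))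
    apply Finset.card_le_card
    rw [hA]
    intro τ hτ
    obtain ⟨σ, -, rfl⟩ := Finset.mem_image.1 hτ
    refine Finset.mem_image.2 ⟨(IsScalarTower.toAlgHom R Ω Ωc).comp
      ((σ : Ω →ₐ[R] Ω).comp F.val), Finset.mem_univ _, ?_⟩
    ext u
    rfl
  obtain ⟨c, hc⟩ : ∃ c : (U →ₐ[ℂ] Ωc) → Ωc, ∀ τ, c τ =
    ∑ σ ∈ Finset.univ.filter (fun σ => ρ σ = τ), algebraMap Ω Ωc (σ h) := ⟨_, fun _ => rfl⟩
  have hrel : ∀ φ ∈ HX x BX, ∑ τ ∈ A, c τ * τ φ = 0 := by
    intro φ hφ
    have h1 := _root_.trace_eq_sum_automorphisms (K := R) (h * algebraMap U Ω φ)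
    rw [htrace φ hφ, map_zero] at h1
    have h2 := congrArg (algebraMap Ω Ωc) h1
    rw [map_zero, map_sum] at h2
    rw [h2, ← Finset.sum_fiberwise_of_maps_to (g := ρ) (t := A) (fun σ _ => by
      rw [hA]
      exact Finset.mem_image_of_mem _ (Finset.mem_univ _))]
    refine Finset.sum_congr rfl fun τ _ => ?_
    rw [hc, Finset.sum_mul]
    refine Finset.sum_congr rfl fun σ hσ => ?_
    have h3 := (Finset.mem_filter.1 hσ).2
    rw [map_mul, map_mul, ← h3]
    rfl
  have h1 := hsep Ωc A hcard c hrel (ρ 1) (by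
    rw [hA]
    exact Finset.mem_image_of_mem _ (Finset.mem_univ _))
  -- the functions on the base are fixed
  have hfix : ∀ σ : Ω ≃ₐ[R] Ω, ρ σ = ρ 1 → σ h = h := by
    intro σ hσ
    have hσu : ∀ u, σ (algebraMap U Ω u) = algebraMap U Ω u := by
      intro u
      have h2 := DFunLike.congr_fun hσ u
      exact (algebraMap Ω Ωc).injective h2
    have hσE : ∀ i v, σ (EΩ i v) = EΩ i (σ v) := by
      intro i v
      let σ' : Ω →ₐ[ℂ] Ω := (σ.restrictScalars ℂ : Ω ≃ₐ[ℂ] Ω)
      let D' : Derivation ℂ Ω Ω :=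
        { toFun := fun v => σ.symm (EΩ i (σ v))
          map_add' := fun a b => by rw [map_add, map_add, map_add]
          map_smul' := fun c v => by
            have h2 : σ (c • v) = c • σ v := _root_.map_smul (σ.restrictScalars ℂ) c v
            rw [h2, (EΩ i).map_smul]
            exact _root_.map_smul (σ.symm.restrictScalars ℂ) c _
          map_one_eq_zero' := by
            change σ.symm (EΩ i (σ 1)) = 0
            rw [map_one, Derivation.map_one_eq_zero, map_zero]
          leibniz' := fun a b => by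
            change σ.symm (EΩ i (σ (a * b))) = a • σ.symm (EΩ i (σ b)) + b • σ.symm (EΩ i (σ a))
            rw [map_mul, (EΩ i).leibniz, map_add, smul_eq_mul, smul_eq_mul, map_mul, map_mul,
              σ.symm_apply_apply, σ.symm_apply_apply, smul_eq_mul, smul_eq_mul] }
      have h2 : D' = EΩ i := der_eq_of_alg (K := R) hnR fun z => by
        change σ.symm (EΩ i (σ (algebraMap R Ω z))) = _
        rw [σ.commutes, hEΩ, ← σ.commutes (E i z), σ.symm_apply_apply, σ.commutes]
      have h3 : D' v = EΩ i v := by rw [h2]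
      have h4 : σ.symm (EΩ i (σ v)) = EΩ i v := h3
      rw [← h4, σ.apply_symm_apply]
    have hσz : ∀ j, σ (z j) = z j := by
      intro j
      rw [hzdef]
      refine Fin.addCases (fun i => ?_) (fun j => ?_) j
      · rw [Fin.append_left]
        exact hσu _
      · rw [Fin.append_right]
        exact σ.commutes _
    have h2 : σ h = (σ : Ω →+* Ω) h := rfl
    rw [h2, hh, RingHom.map_det]
    congr 1
    ext i j
    rw [RingHom.mapMatrix_apply, Matrix.map_apply, Matrix.of_apply]
    change σ (EΩ i (z j)) = _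
    rw [hσE, hσz]
  rw [hc] at h1
  have h2 : ∑ σ ∈ Finset.univ.filter (fun σ => ρ σ = ρ 1), algebraMap Ω Ωc (σ h) =
      ((Finset.univ.filter (fun σ => ρ σ = ρ 1)).card : Ωc) * algebraMap Ω Ωc h := by
    rw [Finset.sum_congr rfl fun σ hσ => by rw [hfix σ (Finset.mem_filter.1 hσ).2],
      Finset.sum_const, nsmul_eq_mul]
  rw [h2] at h1
  have hcΩ : CharZero Ωc := charZero_of_injective_algebraMap (algebraMap ℂ Ωc).injective
  rcases mul_eq_zero.1 h1 with h3 | h3
  · have h4 : (Finset.univ.filter (fun σ => ρ σ = ρ 1)).card = 0 := by exact_mod_cast h3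
    rw [Finset.card_eq_zero] at h4
    have h5 : (1 : Ω ≃ₐ[R] Ω) ∈ Finset.univ.filter (fun σ => ρ σ = ρ 1) :=
      Finset.mem_filter.2 ⟨Finset.mem_univ _, rfl⟩
    rw [h4] at h5
    exact absurd h5 (Finset.notMem_empty _)
  · exact hh0 ((map_eq_zero _).1 h3)

end

end Pool.Agent.U393.LT
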