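import Pool.Agent.U393.LT.MainL

/-!
Images of families: a variety with maps to varieties whose (logarithmic) canonical forms separate
points.
-/

set_option autoImplicit false
set_option linter.overlappingInstances false
set_option linter.unusedSectionVars false
set_option linter.unusedVariables false
set_option maxHeartbeats 4000000
set_option synthInstance.maxHeartbeats 400000

open FF IntermediateField Module Pool.Agent.W603.LV Pool.Agent.N145.PC
open Pool.Agent.W602.GT (Divisorial RegAt IsPluri DerReg DerLog LogAt LogSec KodGe Psef)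
open Pool.Agent.Y184.NT (trForm trForm_pluri)
open Pool.Agent.Y172 (exists_crd exists_lift lift_dual pluri_coord)
open Pool.Agent.R882.LT (SecAt LogGenusZero)
open Pool.Agent.N145.SX (HX SepX)
open Pool.Agent.W619.PL (IsA1Uniruled LogKodairaNeg)

namespace Pool.Agent.U393.LT

open scoped Classical

section

variable {L : Type} [Field L] [Algebra ℂ L] {k : ℕ}
variable {K : Type} [Field K] [Algebra ℂ K] [Algebra K L] [IsScalarTower ℂ K L]
  [FiniteDimensional K L]

/-- all coordinates are fixed -/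
theorem fin_rel {F : Fin k → IntermediateField ℂ L} {c : L}
    (τ0 : L →ₐ[K] AlgebraicClosure K)
    (hgen : IntermediateField.adjoin K (⋃ i : Fin k, (F i : Set L)) = ⊤)
    {H : ∀ i, Set (F i)}
    (h : Rl (fun i => res (K := L) (L := K) (Ω := AlgebraicClosure K) (F i))
      (ev (AlgebraicClosure K) F) H (fun τ => τ c) τ0 Finset.univ) : c = 0 := by
  have h3 := h (fun _ => 0) (fun i hi => absurd (Finset.mem_univ i) hi)
  rw [Finset.compl_univ] at h3
  have h4 : ∀ τ ∈ SJ (fun i => res (K := L) (L := K) (Ω := AlgebraicClosure K)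
      (F i)) τ0 Finset.univ, τ = τ0 := by
    intro τ hτ
    have h5 := mem_SJ.1 hτ
    apply AlgHom.ext
    intro z
    have hz : z ∈ IntermediateField.adjoin K (⋃ i : Fin k, (F i : Set L)) := by
      rw [hgen]
      exact IntermediateField.mem_top
    induction hz using IntermediateField.adjoin_induction with
    | mem z hz =>
      obtain ⟨i, hi⟩ := Set.mem_iUnion.1 hz
      exact DFunLike.congr_fun (h5 i (Finset.mem_univ i)) ⟨z, hi⟩
    | algebraMap z => rw [τ.commutes, τ0.commutes]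
    | add a b _ _ ha hb => rw [map_add, map_add, ha, hb]
    | inv a _ ha => rw [map_inv₀, map_inv₀, ha]
    | mul a b _ _ ha hb => rw [map_mul, map_mul, ha, hb]
  have h5 : SJ (fun i => res (K := L) (L := K) (Ω := AlgebraicClosure K)
      (F i)) τ0 Finset.univ = {τ0} := by
    apply Finset.eq_singleton_iff_unique_mem.2
    exact ⟨self_SJ (p := fun i : Fin k => res (K := L) (L := K)
      (Ω := AlgebraicClosure K) (F i)) (τ0 := τ0) Finset.univ, h4⟩
  rw [h5, Finset.sum_singleton, Finset.prod_empty, mul_one] at h3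
  exact (map_eq_zero τ0).1 h3

/-- **The logarithmic genus of the images of families.** -/
theorem genus_fam [Algebra.EssFiniteType ℂ L] {F : Fin k → IntermediateField ℂ L}
    {n : Fin k → ℕ} {N : ℕ} (hL : Algebra.trdeg ℂ L = N)
    {x : ∀ i, Fin (n i) → F i}
    {BX : ∀ i, Place ℂ (F i) → Prop} {BV : Place ℂ L → Prop} {BK : Place ℂ K → Prop}
    (hB : ∀ (P : Place ℂ K) (Q : Place ℂ L) (e : ℕ), Over Q P e → BV Q → BK P)
    {g : Fin k → ℕ} (hsep : ∀ i, SepX (x i) (BX i) (g i))
    (hdeg : ∀ i : Fin k, degF F K i < g i)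
    (hgen : IntermediateField.adjoin K (⋃ i : Fin k, (F i : Set L)) = ⊤)
    {η : (Fin N → Derivation ℂ L L) → L} (hη : IsPluri 1 η) (hη0 : η ≠ 0)
    (hreg : ∀ f : ∀ i, F i, (∀ i, f i ∈ HX (x i) (BX i)) →
      LogSec ℂ L N 1 BV (fun D => (∏ i, (f i : L)) * η D))
    (hz : LogGenusZero K N BK) : False := by
  have hK : Algebra.trdeg ℂ K = (N : ℕ) := Pool.Agent.Y184.NT.trdeg_below (K := L) hL
  have hessK : Algebra.EssFiniteType ℂ K := Pool.Agent.TH466.QG.ess_below (K := L)
  obtain ⟨y, G, hy, hG⟩ := exists_crd hK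
  choose G' hG' using fun i => exists_lift (L := L) hK (G i)
  have hyL : IsTranscendenceBasis ℂ (fun j => algebraMap K L (y j)) := hy.algebraMap_comp
  have hGL := lift_dual hG hG'
  have hh0 : η G' ≠ 0 := by
    intro h0
    apply hη0
    funext D
    rw [pluri_coord hyL hGL hη D, h0, mul_zero]
    rfl
  have hθE : ∀ t, trForm y t G = t := by
    intro t
    have h1 : (Matrix.of fun i j => G i (y j) : Matrix (Fin N) (Fin N) K) = 1 := by
      ext i j
      rw [Matrix.of_apply, hG, Matrix.one_apply]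
    rw [trForm, h1, Matrix.det_one, one_mul]
  -- the traces vanish
  have htr : ∀ f : ∀ i : Fin k, F i, (∀ i, f i ∈ HX (x i) (BX i)) →
      Algebra.trace K L (η G' * ∏ i : Fin k, algebraMap (F i) L (f i)) = 0 := by
    intro f hf
    have h1 := hreg f hf
    have h2 := hz (trForm y (Algebra.trace K L ((∏ i, (f i : L)) * η G'))) ?_ G
    · rw [hθE] at h2
      rw [← h2]
      congr 1
      rw [mul_comm]
      rfl
    · have h3 : ∀ P : Place ℂ K, Divisorial N P →
          SecAt BK P (trForm y (Algebra.trace K L ((∏ i, (f i : L)) * η G'))) := by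
        intro P hP
        exact Pool.Agent.R882.LT.trForm_sec hK hy hG hG' (fun D => (∏ i, (f i : L)) * η D) h1.1
          (BK := BV) hB (fun Q hQ => ⟨h1.2.1 Q hQ, fun hB' => h1.2.2 Q hQ hB'⟩) P hP
      exact ⟨trForm_pluri y _, fun P hP => (h3 P hP).1, fun P hP hB => (h3 P hP).2 hB⟩
  -- the relation
  obtain ⟨τ0⟩ : Nonempty (L →ₐ[K] AlgebraicClosure K) :=
    ⟨IsAlgClosed.lift (R := K) (M := AlgebraicClosure K) (S := L)⟩
  have h0 := Pool.Agent.N145.SX.Ch.rel_zero (F := F)
    (H := fun i => HX (x i) (BX i)) htr τ0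
  have h1 := Rl.chain h0 (g := g) (fun l A hA c hc => hsep l (AlgebraicClosure K) A hA c hc)
    (s := k) (fun l hl => by
      refine lt_of_le_of_lt (Pool.Agent.N145.SX.Ch.count_le
        (F := F) τ0 _ _) ?_
      have h3 := hdeg l
      unfold degF at h3
      rw [mf_img]
      exact h3)
  have h2 : Js k k = Finset.univ := by
    ext l
    rw [mem_Js]
    simp
  rw [h2] at h1
  exact hh0 (fin_rel τ0 hgen h1)

/-- **Images of families.** -/
theorem fam_main [Algebra.EssFiniteType ℂ L] {F : Fin k → IntermediateField ℂ L}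
    {n g : Fin k → ℕ} {N : ℕ} (hL : Algebra.trdeg ℂ L = N)
    (hn : ∀ i, Algebra.trdeg ℂ (F i) = n i)
    {x : ∀ i, Fin (n i) → F i} (hx : ∀ i, IsTranscendenceBasis ℂ (x i))
    {BX : ∀ i, Place ℂ (F i) → Prop} (hsep : ∀ i, SepX (x i) (BX i) (g i))
    {BV : Place ℂ L → Prop} {BK : Place ℂ K → Prop}
    (hB : ∀ (P : Place ℂ K) (Q : Place ℂ L) (e : ℕ), Over Q P e → (BK P ↔ BV Q))
    (hBX : ∀ (Q : Place ℂ L) (i : Fin k) (S : Place ℂ (F i)) (e : ℕ), Over Q S e → BX i S → BV Q)
    (hdeg : ∀ i : Fin k, degF F K i < g i)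
    (hgen : IntermediateField.adjoin K (⋃ i : Fin k, (F i : Set L)) = ⊤) :
    (IsA1Uniruled ℂ K N BK ↔ A1Over (⨆ i, F i) N BV) ∧
    (IsA1Uniruled ℂ L N BV ↔ A1Over (⨆ i, F i) N BV) ∧
    ((A1Over (⨆ i, F i) N BV ∨
      ∃ η : (Fin N → Derivation ℂ L L) → L, IsPluri 1 η ∧ η ≠ 0 ∧
        ∀ f : ∀ i, F i, (∀ i, f i ∈ HX (x i) (BX i)) →
          LogSec ℂ L N 1 BV (fun D => (∏ i, (f i : L)) * η D)) →
      [LogGenusZero K N BK, LogKodairaNeg ℂ K N BK, ¬ Psef ℂ K N BK,
        IsA1Uniruled ℂ K N BK].TFAE) := by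
  have hFe : ∀ i, Algebra.EssFiniteType ℂ (F i) := fun i => Pool.Agent.N999.SX.ess_any (F i)
  have hKe : Algebra.EssFiniteType ℂ K := Pool.Agent.TH466.QG.ess_below (K := L)
  have hK : Algebra.trdeg ℂ K = N := Pool.Agent.Y184.NT.trdeg_below (K := L) hL
  have h1 : IsA1Uniruled ℂ K N BK → A1Over (⨆ i, F i) N BV := by
    intro h
    have h2 := cover_a1 hK (F := F) hn hx (BX := BX) hsep hdeg
      (BK := BK) (fun P Q e hPQ i S e' hS hQS => (hB P Q e hPQ).2 (hBX Q i S e' hQS hS))
      hgen h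
    refine h2.mono fun Q _ hQ => ?_
    obtain ⟨P, e, hP⟩ := Pool.Agent.Y172.exists_below (K := K) Q
    exact ⟨P, e, hP, (hB P Q e hP).2 hQ⟩
  have h2 : A1Over (⨆ i, F i) N BV → IsA1Uniruled ℂ L N BV := fun h => h.uniruled
  have h3 : IsA1Uniruled ℂ L N BV → IsA1Uniruled ℂ K N BK := fun h =>
    a1_below (fun P Q e h hP => (hB P Q e h).1 hP) h
  refine ⟨⟨h1, fun h => h3 (h2 h)⟩, ⟨fun h => h1 (h3 h), h2⟩, fun h => ?_⟩
  have h4 : LogGenusZero K N BK → IsA1Uniruled ℂ K N BK := by
    intro hz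
    rcases h with h | ⟨η, hη, hη0, hreg⟩
    · exact h3 (h2 h)
    · exact (genus_fam hL (fun P Q e h hQ => (hB P Q e h).2 hQ) hsep hdeg hgen hη hη0 hreg
        hz).elim
  have h5 := Pool.Agent.N145.PL.tfaeL hK h4
  rw [kodGe_iff] at h5
  exact h5

end

end Pool.Agent.U393.LT
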