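import Pool.Agent.R882.LTr
import Pool.Agent.R882.UA

/-!
Top forms on a ruled variety which are regular on the affine lines of the ruling and have logarithmic
poles at infinity.
-/

set_option autoImplicit false
set_option linter.overlappingInstances false
set_option linter.unusedSectionVars false
set_option linter.unusedVariables false

open FF IntermediateField Polynomial IsDedekindDomain Pool.Agent.W619.PQ Pool.Agent.W619.PL
  Pool.Agent.W619.TW Pool.Agent.W603.LV Pool.Agent.W619.Y Pool.Agent.W721.PG.RULED
open Pool.Agent.W602.GT (Divisorial RegAt IsPluri DerReg DerLog LogAt)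
open Pool.Agent.Y184.NT (trForm trForm_pluri)

namespace Pool.Agent.U393.LT

section

variable {k L : Type} [Field k] [CharZero k] [Field L] [Algebra k L]

/-- regular functions at infinity -/
theorem ge_inf {M : IntermediateField k L} {t : L} {w : Place k L}
    (hcon : ∀ m : M, m ≠ 0 → w.ord (m : L) = 0) (hwt : w.ord t < 0) {p q : M[X]} (hp : p ≠ 0)
    (hpq : q.natDegree ≤ p.natDegree) : w.Reg (aeval t q / aeval t p) := by
  by_cases hq : q = 0
  · left
    rw [hq, map_zero, zero_div]
  · right
    obtain ⟨hp1, hp2⟩ := ord_poly w hcon hwt p hp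
    obtain ⟨hq1, hq2⟩ := ord_poly w hcon hwt q hq
    rw [w.ord_div hq1 hp1, hp2, hq2]
    have h1 : (q.natDegree : ℤ) ≤ p.natDegree := by exact_mod_cast hpq
    nlinarith

/-- logarithmic vector fields at infinity -/
theorem derLog_inf {M : IntermediateField k L} {t : L} (ht : Transcendental M t)
    (htop : IntermediateField.adjoin M {t} = ⊤) {w : Place k L}
    (hcon : ∀ m : M, m ≠ 0 → w.ord (m : L) = 0) (hwt : w.ord t < 0) {D : Derivation k L L}
    (hM : ∀ m : M, ∃ m' : M, D (m : L) = (m' : L)) {c : M} (ht' : D t = (c : L) * t) :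
    DerLog w D := by
  classical
  choose δ hδ using hM
  -- polynomials
  have hpoly : ∀ p : M[X], ∃ q : M[X], q.natDegree ≤ p.natDegree ∧
      D (aeval t p) = aeval t q := by
    intro p
    refine ⟨∑ i ∈ Finset.range (p.natDegree + 1), C (δ (p.coeff i) + c * i * p.coeff i) * X ^ i,
      ?_, ?_⟩
    · refine natDegree_sum_le_of_forall_le _ _ fun i hi => ?_
      exact (natDegree_C_mul_X_pow_le _ _).trans (Nat.lt_succ_iff.1 (Finset.mem_range.1 hi))
    · rw [aeval_eq_sum_range, map_sum, map_sum]
      refine Finset.sum_congr rfl fun i _ => ?_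
      rw [Algebra.smul_def, Derivation.leibniz, Derivation.leibniz_pow, ht', map_mul, aeval_C,
        map_pow, aeval_X]
      have h1 : D (algebraMap M L (p.coeff i)) = algebraMap M L (δ (p.coeff i)) := hδ _
      have h2 : algebraMap M L (δ (p.coeff i) + c * i * p.coeff i) =
          algebraMap M L (δ (p.coeff i)) + algebraMap M L c * i * algebraMap M L (p.coeff i) := by
        rw [map_add, map_mul, map_mul, map_natCast]
      have h3 : ((c : M) : L) = algebraMap M L c := rfl
      rw [h1, h2, h3]
      rcases i with _ | i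
      · simp
      · simp only [smul_eq_mul, nsmul_eq_mul, Nat.add_sub_cancel]
        ring
  have hreg : ∀ p : M[X], w.Reg (D (aeval t p) / aeval t p) := by
    intro p
    by_cases hp : p = 0
    · left
      rw [hp, map_zero, map_zero, zero_div]
    · obtain ⟨q, hq1, hq2⟩ := hpoly p
      rw [hq2]
      exact ge_inf hcon hwt hp hq1
  intro f
  by_cases hf : f = 0
  · left
    rw [hf, div_zero]
  obtain ⟨-, -, -, hfr⟩ := places (k := k) ht htop
  obtain ⟨a, b, hb, hab⟩ := hfr f
  have hb0 : aeval t b ≠ 0 := by
    intro h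
    exact hb ((transcendental_iff_injective.1 ht) (by rw [h, map_zero]))
  have ha0 : aeval t a ≠ 0 := by
    rw [← hab]
    exact mul_ne_zero hf hb0
  have h1 := congrArg D hab
  rw [Derivation.leibniz, smul_eq_mul, smul_eq_mul] at h1
  have h2 : D f / f = D (aeval t a) / aeval t a + -(D (aeval t b) / aeval t b) := by
    rw [← h1, ← hab]
    field_simp
    ring
  rw [h2]
  exact w.reg_add (hreg a) (w.reg_neg (hreg b))

/-- a frame on a ruled variety, with the places which are trivial on the base -/
theorem frameL {M : IntermediateField k L} {t : L} {n : ℕ} (hn : Algebra.trdeg k L = n)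
    (ht : Transcendental M t) (htop : IntermediateField.adjoin M {t} = ⊤) :
    ∃ (x : Fin n → L) (E : Fin n → Derivation k L L) (i0 : Fin n) (w : Place k L),
      IsTranscendenceBasis k x ∧ (∀ j i, E j (x i) = if i = j then 1 else 0) ∧ x i0 = t ∧
      (∀ m : M, E i0 (m : L) = 0) ∧ E i0 t = 1 ∧ w.ord t < 0 ∧ IsDivisorial w n ∧
      (∀ m : M, m ≠ 0 → w.ord (m : L) = 0) ∧
      (∀ f : L, (∀ p : M[X], aeval t p ≠ f) → ∃ w' : Place k L, IsDivisorial w' n ∧
        (∀ m : M, m ≠ 0 → w'.ord (m : L) = 0) ∧ w'.Reg t ∧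
        (∀ j, Pres w' (E j)) ∧ ¬ w'.Reg f) ∧
      (∀ j, DerLog w ((if j = i0 then t else 1) • E j)) ∧
      ∀ p : M[X], w.ord (aeval t p) ≤ 0 := by
  classical
  have ht0 : t ≠ 0 := by
    rintro rfl
    exact ht isAlgebraic_zero
  have hti : Transcendental M t⁻¹ := by
    intro h
    apply ht
    have := h.inv
    rwa [inv_inv] at this
  have htopi : IntermediateField.adjoin M {t⁻¹} = ⊤ := by
    rw [eq_top_iff, ← htop, IntermediateField.adjoin_le_iff]
    intro y hy
    rw [Set.mem_singleton_iff] at hy
    rw [hy]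
    have h1 : t⁻¹ ∈ IntermediateField.adjoin M {t⁻¹} :=
      IntermediateField.mem_adjoin_simple_self M t⁻¹
    have h2 := inv_mem h1
    rwa [inv_inv] at h2
  obtain ⟨hpl, -, htb, hfr⟩ := places (k := k) ht htop
  obtain ⟨-, ⟨w, hw, hwt⟩, -, -⟩ := places (k := k) hti htopi
  -- the transcendence bases
  obtain ⟨ι, z, hz⟩ := exists_isTranscendenceBasis' k M
  have hx' : IsTranscendenceBasis k (Sum.elim (fun _ : Unit => t) (algebraMap M L ∘ z)) :=
    hz.sumElim_comp htb
  have hcard : Nonempty (Fin n ≃ Unit ⊕ ι) := by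
    have h1 := hx'.lift_cardinalMk_eq_trdeg
    rw [hn] at h1
    have h2 : Cardinal.lift.{0} (Cardinal.mk (Fin n)) = Cardinal.lift.{0} (Cardinal.mk (Unit ⊕ ι)) := by
      rw [Cardinal.mk_fin, Cardinal.lift_natCast]
      have h3 : Cardinal.lift.{0} (Cardinal.mk (Unit ⊕ ι)) = Cardinal.mk (Unit ⊕ ι) :=
        Cardinal.lift_id'.{0, 0} _
      rw [h3]
      have h4 : Cardinal.lift.{0} (Cardinal.mk (Unit ⊕ ι)) = Cardinal.lift.{0} ((n : ℕ) : Cardinal.{0}) := h1
      exact (Cardinal.lift_injective h4).symm
    exact Cardinal.lift_mk_eq'.1 h2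
  obtain ⟨e⟩ := hcard
  have hfin : Finite (Unit ⊕ ι) := Finite.of_equiv _ e
  have hfinι : Finite ι := Finite.sum_right Unit
  have := Fintype.ofFinite ι
  have hcι : Fintype.card ι = n - 1 := by
    have h1 := Fintype.card_congr e
    rw [Fintype.card_fin, Fintype.card_sum, Fintype.card_unit] at h1
    omega
  let e' : Fin (n - 1) ≃ ι := (Fintype.equivFinOfCardEq hcι).symm
  let x : Fin n → L := Sum.elim (fun _ : Unit => t) (algebraMap M L ∘ z) ∘ e
  have hx : IsTranscendenceBasis k x := (isTranscendenceBasis_equiv e).2 hx'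
  choose E hE using fun j => exists_dual x hx j
  let i0 : Fin n := e.symm (Sum.inl ())
  have hxi0 : x i0 = t := by
    change Sum.elim (fun _ : Unit => t) (algebraMap M L ∘ z) (e (e.symm (Sum.inl ()))) = t
    rw [Equiv.apply_symm_apply]
    rfl
  have hxl : ∀ l : ι, x (e.symm (Sum.inr l)) = (z l : L) := by
    intro l
    change Sum.elim (fun _ : Unit => t) (algebraMap M L ∘ z) (e (e.symm (Sum.inr l))) = _
    rw [Equiv.apply_symm_apply]
    rfl
  have hEt : ∀ j, E j t = if i0 = j then 1 else 0 := by
    intro j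
    rw [← hE j i0, hxi0]
  have hEz : ∀ j l, E j (z l : L) = if e.symm (Sum.inr l) = j then 1 else 0 := by
    intro j l
    rw [← hE j, hxl]
  have hE0M : ∀ m : M, E i0 (m : L) = 0 := by
    intro m
    have h1 := der_zero ((E i0).compAlgebraMap M) z hz (fun l => by
      change E i0 (algebraMap M L (z l)) = 0
      have := hEz i0 l
      rw [if_neg] at this
      · exact this
      · intro h
        have h2 : Sum.inr l = (Sum.inl () : Unit ⊕ ι) := e.symm.injective h
        cases h2) m
    exact h1
  have hEM : ∀ (j : Fin n) (m : M), ∃ m' : M, E j (m : L) = (m' : L) := by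
    intro j m
    rcases he : e j with a | l
    · have hj : j = i0 := by
        change j = e.symm (Sum.inl ())
        rw [← e.symm_apply_apply j, he]
      rw [hj]
      exact ⟨0, by rw [hE0M]; rfl⟩
    · have hj : j = e.symm (Sum.inr l) := by
        rw [← he, e.symm_apply_apply]
      obtain ⟨δ, hδ⟩ := exists_dual z hz l
      refine ⟨δ m, ?_⟩
      have h1 := der_zero ((E j).compAlgebraMap M - (Algebra.linearMap M L).compDer δ) z hz
        (fun l' => by
          change E j (algebraMap M L (z l')) - algebraMap M L (δ (z l')) = 0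
          have h2 : E j (algebraMap M L (z l')) = if e.symm (Sum.inr l') = j then 1 else 0 :=
            hEz j l'
          rw [h2, hδ l', hj]
          by_cases hl : l' = l
          · rw [hl, if_pos rfl, if_pos rfl, map_one, sub_self]
          · rw [if_neg hl, if_neg, map_zero, sub_self]
            intro h
            apply hl
            have h3 := e.symm.injective h
            exact Sum.inr_injective h3) m
      exact sub_eq_zero.1 h1
  have hEt' : ∀ j, ∃ c : M, E j t = (c : L) := by
    intro j
    rw [hEt]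
    by_cases h : i0 = j
    · exact ⟨1, by rw [if_pos h]; rfl⟩
    · exact ⟨0, by rw [if_neg h]; rfl⟩
  have hwt' : w.ord t < 0 := by
    rw [w.ord_inv] at hwt
    omega
  have hdiv := divisorial w hw.con z hz.1 n e'
  refine ⟨x, E, i0, w, hx, hE, hxi0, hE0M, by rw [hEt, if_pos rfl], hwt', hdiv, hw.con, ?_, ?_, ?_⟩
  · intro f hf
    obtain ⟨w', hw', hnr⟩ := hpl _ hf
    refine ⟨w', divisorial w' hw'.con z hz.1 n e', hw'.con, ?_, fun l => hw'.pres (E l) (fun p =>
      der_poly (E l) (hEM l) (hEt' l) p), hnr⟩
    have h1 := hw'.reg X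
    rwa [aeval_X] at h1
  · intro l
    refine derLog_inf ht htop hw.con hwt' (fun m => ?_) (c := if l = i0 then 1 else 0) ?_
    · by_cases hl : l = i0
      · refine ⟨0, ?_⟩
        rw [if_pos hl, hl]
        change t * E i0 (m : L) = _
        rw [hE0M, mul_zero]
        rfl
      · rw [if_neg hl, one_smul]
        exact hEM l m
    · by_cases hl : l = i0
      · rw [if_pos hl, if_pos hl, hl]
        change t * E i0 t = _
        rw [hEt, if_pos rfl, mul_one, OneMemClass.coe_one, one_mul]
      · rw [if_neg hl, one_smul, if_neg hl, hEt, if_neg (Ne.symm hl), ZeroMemClass.coe_zero,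
          zero_mul]
  · intro p
    by_cases hp : p = 0
    · rw [hp, map_zero, w.ord_zero]
    · rw [(ord_poly w hw.con hwt' p hp).2]
      have h2 : (0 : ℤ) ≤ p.natDegree := Int.natCast_nonneg _
      nlinarith

end

section

variable {L : Type} [Field L] [Algebra ℂ L]

/-- **Vanishing.** A top form on a ruled variety, given in a frame, which is regular on the general
lines and has at most a logarithmic pole at infinity. -/
theorem top_zero {M : IntermediateField ℂ L} {t : L} {n : ℕ} {x : Fin n → L}
    {E : Fin n → Derivation ℂ L L} {i0 : Fin n} {w : Place ℂ L}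
    (hE : ∀ j i, E j (x i) = if i = j then 1 else 0) (ht : Transcendental M t)
    (hwt : w.ord t < 0)
    (hfin : ∀ f : L, (∀ p : M[X], aeval t p ≠ f) → ∃ w' : Place ℂ L, IsDivisorial w' n ∧
        (∀ m : M, m ≠ 0 → w'.ord (m : L) = 0) ∧ w'.Reg t ∧
        (∀ j, Pres w' (E j)) ∧ ¬ w'.Reg f)
    (hinf : ∀ j, DerLog w ((if j = i0 then t else 1) • E j))
    (hord : ∀ p : M[X], w.ord (aeval t p) ≤ 0) {T : L}
    (hreg : ∀ w' : Place ℂ L, Divisorial n w' → (∀ m : M, m ≠ 0 → w'.ord (m : L) = 0) →
      w'.Reg t → RegAt w' (trForm x T))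
    (hlog : LogAt w (trForm x T)) : T = 0 := by
  classical
  have ht0 : t ≠ 0 := by
    rintro rfl
    exact ht isAlgebraic_zero
  have hval : ∀ c : Fin n → L, trForm x T (fun j => c j • E j) = (∏ j, c j) * T := by
    intro c
    unfold trForm
    congr 1
    have h1 : (Matrix.of fun i j => (c i • E i) (x j) : Matrix (Fin n) (Fin n) L) =
        Matrix.diagonal c := by
      ext i j
      rw [Matrix.of_apply, Matrix.diagonal_apply]
      change c i * E i (x j) = _
      rw [hE]
      by_cases hij : i = j
      · rw [if_pos hij.symm, if_pos hij, mul_one]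
      · rw [if_neg (Ne.symm hij), if_neg hij, mul_zero]
    rw [h1, Matrix.det_diagonal]
  by_contra hT
  have hpoly : ∃ p : M[X], aeval t p = T := by
    by_contra hcon
    push Not at hcon
    obtain ⟨w', hw', hc, hr, hpres, hnr⟩ := hfin _ hcon
    apply hnr
    have h1 := hreg w' hw' hc hr (fun j => (1 : L) • E j) (fun j => by
      rw [one_smul]
      exact hpres j)
    rw [hval, Finset.prod_const_one, one_mul] at h1
    exact h1
  obtain ⟨p, hp⟩ := hpoly
  have h1 := hlog (fun j => (if j = i0 then t else (1 : L)) • E j) hinf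
  rw [hval, Finset.prod_ite_eq' Finset.univ i0 (fun _ => t), if_pos (Finset.mem_univ i0),
    w.reg_iff (mul_ne_zero ht0 hT), w.ord_mul ht0 hT] at h1
  have h2 := hord p
  rw [hp] at h2
  linarith

end

end Pool.Agent.U393.LT
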