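import Pool.Agent.U393.LT.Erase

/-!
Several factors: all the functions on the base are constant along the lines.
-/

set_option autoImplicit false
set_option linter.overlappingInstances false
set_option linter.unusedSectionVars false
set_option linter.unusedVariables false
set_option maxHeartbeats 4000000
set_option synthInstance.maxHeartbeats 400000

open FF IntermediateField Module Pool.Agent.W619.PQ Pool.Agent.W603.LV Pool.Agent.Y172
open Pool.Agent.W602.GT (Divisorial RegAt IsPluri DerReg DerLog LogAt)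
open Pool.Agent.N145.SX (HX SepX)
open Pool.Agent.U192.PT (der_eq_of_alg)

namespace Pool.Agent.U393.LT

section

variable {A B C : Type} [Field A] [Field B] [Field C] [Algebra ℂ A] [Algebra ℂ B] [Algebra ℂ C]
  [Algebra A B] [Algebra B C] [Algebra A C] [IsScalarTower A B C]

theorem over_mid {Q : Place ℂ C} {P : Place ℂ A} {w : Place ℂ B} {e e2 : ℕ} (h1 : Over Q P e)
    (h2 : Over Q w e2) : ∃ e3, Over w P e3 := by
  obtain ⟨u, -, hu⟩ := P.surj
  have h3 : ∀ f : A, (e2 : ℤ) * w.ord (algebraMap A B f) = e * P.ord f := by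
    intro f
    rw [← h1.2 f, ← h2.2, ← IsScalarTower.algebraMap_apply A B C]
  have h4 := h3 u
  rw [hu, mul_one] at h4
  have he2 : (0 : ℤ) < e2 := by exact_mod_cast h2.1
  have he : (0 : ℤ) < e := by exact_mod_cast h1.1
  have h5 : 0 < w.ord (algebraMap A B u) := by
    rw [← h4] at he
    exact (mul_pos_iff_of_pos_left he2).1 he
  obtain ⟨c, hc⟩ : ∃ c : ℕ, (c : ℤ) = w.ord (algebraMap A B u) :=
    ⟨_, Int.toNat_of_nonneg h5.le⟩
  refine ⟨c, by omega, fun f => ?_⟩
  have h6 := h3 f
  rw [← h4, ← hc, mul_assoc] at h6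
  exact mul_left_cancel₀ he2.ne' h6

theorem over_comp {Q : Place ℂ C} {P : Place ℂ A} {w : Place ℂ B} {e e2 : ℕ} (h1 : Over Q w e)
    (h2 : Over w P e2) : Over Q P (e * e2) := by
  refine ⟨Nat.mul_pos h1.1 h2.1, fun f => ?_⟩
  rw [IsScalarTower.algebraMap_apply A B C, h1.2, h2.2]
  push_cast
  ring

end

/-- the constants of a derivation -/
def Cf {Ω : Type} [Field Ω] [Algebra ℂ Ω] (D : Derivation ℂ Ω Ω) : IntermediateField ℂ Ω where
  carrier := {f | D f = 0}
  mul_mem' := fun {f g} hf hg => by
    change D (f * g) = 0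
    rw [D.leibniz, show D f = 0 from hf, show D g = 0 from hg]
    simp
  add_mem' := fun {f g} hf hg => by
    change D (f + g) = 0
    rw [map_add, show D f = 0 from hf, show D g = 0 from hg, add_zero]
  algebraMap_mem' := fun c => D.map_algebraMap c
  inv_mem' := fun f hf => by
    change D f⁻¹ = 0
    rw [D.leibniz_inv, show D f = 0 from hf, smul_zero]

theorem mem_Cf {Ω : Type} [Field Ω] [Algebra ℂ Ω] {D : Derivation ℂ Ω Ω} {f : Ω} :
    f ∈ Cf D ↔ D f = 0 := Iff.rfl

theorem trans_Cf {Ω : Type} [Field Ω] [Algebra ℂ Ω] {D : Derivation ℂ Ω Ω} {t : Ω}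
    (ht : D t = 1) : Transcendental (Cf D) t := by
  intro halg
  have h1 := Pool.Agent.R882.WR.der_alg (E := Cf D) D (fun c hc => hc) halg
  have h2 : D t = 0 := h1
  rw [ht] at h2
  exact one_ne_zero h2

/-- the functions on a ruled variety as functions of `t` over the constants -/
theorem mem_ruled {R Ω : Type} [Field R] [Field Ω] [Algebra ℂ R] [Algebra ℂ Ω] [Algebra R Ω]
    [IsScalarTower ℂ R Ω] {M : IntermediateField ℂ R} {t : R}
    (htop : IntermediateField.adjoin M {t} = ⊤) {C0 : IntermediateField ℂ Ω}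
    (hC : ∀ m : M, algebraMap R Ω m ∈ C0) (z : R) :
    algebraMap R Ω z ∈ IntermediateField.adjoin C0 {algebraMap R Ω t} := by
  have h1 : z ∈ IntermediateField.adjoin M {t} := by
    rw [htop]
    trivial
  obtain ⟨p, q, hpq⟩ := (mem_adjoin_simple_iff (F := M) _).1 h1
  have h4 : ∀ P : Polynomial M, algebraMap R Ω (Polynomial.aeval t P) ∈
      IntermediateField.adjoin C0 {algebraMap R Ω t} := by
    intro P
    rw [Polynomial.aeval_eq_sum_range, map_sum]
    refine sum_mem fun i _ => ?_
    rw [Algebra.smul_def, map_mul, map_pow]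
    refine mul_mem ?_ (pow_mem (mem_adjoin_simple_self C0 _) i)
    exact (IntermediateField.adjoin C0 {algebraMap R Ω t}).algebraMap_mem ⟨_, hC _⟩
  rw [hpq, map_div₀]
  exact div_mem (h4 p) (h4 q)

/-- The function field of the image of `V` in the product of `W` and the first `i` factors: here `L`
and `K` are the function fields of `V` and `W`, and `F l` is the function field of the `l`-th factor. -/
noncomputable def ImgF {L : Type} [Field L] [Algebra ℂ L] {k : ℕ}
    (F : Fin k → IntermediateField ℂ L) (K : Type) [Field K] [Algebra K L] (i : ℕ) :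
    IntermediateField K L :=
  IntermediateField.adjoin K {z | ∃ l : Fin k, l.val < i ∧ z ∈ F l}

/-- the degree over the `i`-th image -/
noncomputable def degF {L : Type} [Field L] [Algebra ℂ L] {k : ℕ}
    (F : Fin k → IntermediateField ℂ L) (K : Type) [Field K] [Algebra K L] (i : Fin k) : ℕ :=
  finrank (ImgF F K i) (IntermediateField.adjoin (ImgF F K i) (F i : Set L))

section

variable {K L R Ω : Type} [Field K] [Field L] [Field R] [Field Ω] [Algebra ℂ K] [Algebra ℂ L]
  [Algebra ℂ R] [Algebra ℂ Ω] [Algebra K L] [Algebra K R] [Algebra K Ω] [Algebra L Ω] [Algebra R Ω]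
  [IsScalarTower ℂ K L] [IsScalarTower ℂ K R] [IsScalarTower ℂ K Ω] [IsScalarTower ℂ L Ω]
  [IsScalarTower ℂ R Ω] [IsScalarTower K L Ω] [IsScalarTower K R Ω] [FiniteDimensional K Ω]

/-- the degree does not increase -/
theorem deg_le {k : ℕ} (F : Fin k → IntermediateField ℂ L) (i : Fin k)
    [FiniteDimensional K L] [FiniteDimensional R Ω] {R' : IntermediateField R Ω}
    (hR' : ∀ l : Fin k, l.val < i.val → ∀ z ∈ F l, algebraMap L Ω z ∈ R') :
    finrank R' (IntermediateField.adjoin R' (Set.range (algebraMap (F i) Ω))) ≤ degF F K i := by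
  classical
  obtain ⟨Ki, hKi⟩ : ∃ Ki, Ki = ImgF F K i := ⟨_, rfl⟩
  have hmem : ∀ z ∈ Ki, algebraMap L Ω z ∈ R' := by
    intro z hz
    rw [hKi] at hz
    refine IntermediateField.adjoin_induction K (p := fun z _ => algebraMap L Ω z ∈ R')
      ?_ ?_ ?_ ?_ ?_ hz
    · rintro z ⟨l, hl, hz⟩
      exact hR' l hl z hz
    · intro c
      rw [← IsScalarTower.algebraMap_apply K L Ω, IsScalarTower.algebraMap_apply K R Ω]
      exact R'.algebraMap_mem _
    · intro a b _ _ ha hb
      rw [map_add]
      exact add_mem ha hb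
    · intro a _ ha
      rw [map_inv₀]
      exact inv_mem ha
    · intro a b _ _ ha hb
      rw [map_mul]
      exact mul_mem ha hb
  let iA : Algebra Ki R' := ({ toFun := fun z => ⟨algebraMap L Ω z, hmem z z.2⟩
                               map_one' := Subtype.ext (map_one (algebraMap L Ω))
                               map_mul' := fun _ _ => Subtype.ext (map_mul (algebraMap L Ω) _ _)
                               map_zero' := Subtype.ext (map_zero (algebraMap L Ω))
                               map_add' := fun _ _ => Subtype.ext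
                                 (map_add (algebraMap L Ω) _ _) } : Ki →+* R').toAlgebra
  have tA : IsScalarTower Ki R' Ω := IsScalarTower.of_algebraMap_eq fun _ => rfl
  have tL : IsScalarTower Ki L Ω := IsScalarTower.of_algebraMap_eq fun _ => rfl
  obtain ⟨N, hN⟩ : ∃ N, N = IntermediateField.adjoin Ki (F i : Set L) := ⟨_, rfl⟩
  let N' : IntermediateField Ki Ω := N.map (IsScalarTower.toAlgHom Ki L Ω)
  have hfin1 : FiniteDimensional Ki L := inferInstance
  have hfinN : FiniteDimensional Ki N := inferInstance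
  have e : N ≃ₐ[Ki] N' := N.equivMap (IsScalarTower.toAlgHom Ki L Ω)
  have hfinN' : FiniteDimensional Ki N' := Module.Finite.equiv e.toLinearEquiv
  have h1 : Module.rank R' (IntermediateField.adjoin R' (N' : Set Ω)) ≤ Module.rank Ki N' :=
    IntermediateField.adjoin_rank_le_of_isAlgebraic_right R' N'
  have hfinR : FiniteDimensional R' (IntermediateField.adjoin R' (N' : Set Ω)) := inferInstance
  have h2 : finrank R' (IntermediateField.adjoin R' (N' : Set Ω)) ≤ finrank Ki N' := by
    rw [← Module.finrank_eq_rank, ← Module.finrank_eq_rank] at h1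
    exact_mod_cast h1
  have h3 : IntermediateField.adjoin R' (Set.range (algebraMap (F i) Ω)) ≤
      IntermediateField.adjoin R' (N' : Set Ω) := by
    refine IntermediateField.adjoin.mono _ _ _ ?_
    rintro _ ⟨u, rfl⟩
    refine ⟨(u : L), ?_, rfl⟩
    rw [hN]
    exact IntermediateField.subset_adjoin _ _ u.2
  refine (IntermediateField.finrank_le_of_le_right h3).trans (h2.trans ?_)
  rw [← e.toLinearEquiv.finrank_eq, hN]
  unfold degF
  rw [← hKi]

/-- **Several factors.** -/
theorem tower_const [IsGalois K Ω] [Algebra.EssFiniteType ℂ K] [FiniteDimensional K L] {k n : ℕ}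
    {F : Fin k → IntermediateField ℂ L} {m g : Fin k → ℕ} (hn : Algebra.trdeg ℂ K = n)
    [∀ i, Algebra.EssFiniteType ℂ (F i)] (hm : ∀ i, Algebra.trdeg ℂ (F i) = m i)
    {x : ∀ i, Fin (m i) → F i} (hx : ∀ i, IsTranscendenceBasis ℂ (x i))
    {BX : ∀ i, Place ℂ (F i) → Prop} (hsep : ∀ i, SepX (x i) (BX i) (g i))
    (hdeg : ∀ i, degF F K i < g i) {BK : Place ℂ K → Prop}
    (hcomp : ∀ (P : Place ℂ K) (Q : Place ℂ L) (e : ℕ), Over Q P e →
      ∀ i (S : Place ℂ (F i)) (e' : ℕ), BX i S → Over Q S e' → BK P)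
    {M : IntermediateField ℂ R} {t : R} (ht : Transcendental M t)
    (htop : IntermediateField.adjoin M {t} = ⊤)
    (hA : ∀ w : Place ℂ R, (∀ m : M, m ≠ 0 → w.ord (m : R) = 0) → w.Reg t →
      ∀ (P : Place ℂ K) (e : ℕ), Over w P e → ¬ BK P)
    {D0 : Derivation ℂ R R} (hDt : D0 t = 1) (hDM : ∀ μ : M, D0 (μ : R) = 0)
    {DΩ : Derivation ℂ Ω Ω} (hDΩ : ∀ z, DΩ (algebraMap R Ω z) = algebraMap R Ω (D0 z))
    (i : Fin k) (u : L) (hu : u ∈ F i) : DΩ (algebraMap L Ω u) = 0 := by
  classical
  have hfR : FiniteDimensional R Ω := FiniteDimensional.right K R Ω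
  have hfL : FiniteDimensional L Ω := FiniteDimensional.right K L Ω
  have hfKR : FiniteDimensional K R := FiniteDimensional.left K R Ω
  have hgR : IsGalois R Ω := IsGalois.tower_top_of_isGalois K R Ω
  have hnR : Algebra.trdeg ℂ R = n := trdeg_up (K := K) hn
  have hRe : Algebra.EssFiniteType ℂ R := Algebra.EssFiniteType.comp ℂ K R
  suffices key : ∀ N : ℕ, ∀ i : Fin k, i.val = N → ∀ u ∈ F i, DΩ (algebraMap L Ω u) = 0 from
    key _ i rfl u hu
  intro N
  induction N using Nat.strong_induction_on with
  | _ N ih =>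
    intro i hi u hu
    obtain ⟨S, hS⟩ : ∃ S : Set Ω, S = {v | ∃ l : Fin k, l.val < i.val ∧ ∃ z ∈ F l,
      algebraMap L Ω z = v} := ⟨_, rfl⟩
    have hSD : ∀ v ∈ S, DΩ v = 0 := by
      intro v hv
      rw [hS] at hv
      obtain ⟨l, hl, z, hz, rfl⟩ := hv
      exact ih l.val (by omega) l rfl z hz
    let R' : IntermediateField R Ω := IntermediateField.adjoin R S
    have hgR' : IsGalois R' Ω := inferInstance
    have tR' : IsScalarTower ℂ R R' := inferInstance
    have tR'Ω : IsScalarTower ℂ R' Ω := IsScalarTower.of_algebraMap_eq fun c => by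
      rw [IsScalarTower.algebraMap_apply ℂ R R', ← IsScalarTower.algebraMap_apply R R' Ω,
        ← IsScalarTower.algebraMap_apply ℂ R Ω]
    have hR'e : Algebra.EssFiniteType ℂ R' := Algebra.EssFiniteType.comp ℂ R R'
    have hnR' : Algebra.trdeg ℂ R' = n := trdeg_up (K := R) hnR
    obtain ⟨D', hD'⟩ := exists_lift (K := R) (L := R') hnR D0
    have hDΩ' : ∀ z : R', DΩ (algebraMap R' Ω z) = algebraMap R' Ω (D' z) := by
      obtain ⟨D'', hD''⟩ := exists_lift (K := R') (L := Ω) hnR' D'
      have h1 : DΩ = D'' := der_eq_of_alg (K := R) hnR fun z => by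
        rw [hDΩ, IsScalarTower.algebraMap_apply R R' Ω z, hD'', hD',
          ← IsScalarTower.algebraMap_apply R R' Ω]
      rw [h1]
      exact hD''
    have hDt' : D' (algebraMap R R' t) = 1 := by rw [hD', hDt, map_one]
    have htop' : IntermediateField.adjoin (Cf D') {algebraMap R R' t} = ⊤ := by
      rw [eq_top_iff]
      rintro ⟨z, hz⟩ -
      refine IntermediateField.adjoin_induction R
        (p := fun z hz => (⟨z, hz⟩ : R') ∈
          IntermediateField.adjoin (Cf D') {algebraMap R R' t}) ?_ ?_ ?_ ?_ ?_ hz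
      · intro v hv
        refine (IntermediateField.adjoin (Cf D') {algebraMap R R' t}).algebraMap_mem
          (⟨⟨v, IntermediateField.subset_adjoin _ _ hv⟩, ?_⟩ : Cf D')
        rw [mem_Cf]
        have h1 := hDΩ' ⟨v, IntermediateField.subset_adjoin _ _ hv⟩
        have h2 : DΩ v = 0 := hSD v hv
        change DΩ v = _ at h1
        rw [h2] at h1
        exact ((map_eq_zero _).1 h1.symm)
      · intro c
        exact mem_ruled htop (C0 := Cf D') (fun m => by
          rw [mem_Cf, hD', hDM, map_zero]) c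
      · intro a b _ _ ha hb
        exact add_mem ha hb
      · intro a _ ha
        exact inv_mem ha
      · intro a b _ _ ha hb
        exact mul_mem ha hb
    let iU : Algebra (F i) Ω := inferInstance
    have tU : IsScalarTower ℂ (F i) Ω := IsScalarTower.of_algebraMap_eq fun c => by
      change algebraMap ℂ Ω c = algebraMap L Ω (algebraMap ℂ L c)
      rw [← IsScalarTower.algebraMap_apply ℂ L Ω]
    have tUL : IsScalarTower (F i) L Ω := inferInstance
    refine const_of_sep (U := F i) (R := R') (Ω := Ω) hnR' (hm i) (hx i) (hsep i)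
      (trans_Cf hDt') htop' (lt_of_le_of_lt (deg_le F i fun l hl z hz => ?_) (hdeg i))
      (fun w hw hwt Q e hQ => ?_) hDt' (fun μ => μ.2) hDΩ' ⟨u, hu⟩
    · refine IntermediateField.subset_adjoin _ _ ?_
      rw [hS]
      exact ⟨l, hl, z, hz, rfl⟩
    · rintro ⟨P, e', hP, hQP⟩
      obtain ⟨w0, e0, hw0⟩ := exists_below (K := R) w
      obtain ⟨QL, eL, hQL⟩ := exists_below (K := L) Q
      have hfKL : FiniteDimensional K L := inferInstance
      obtain ⟨PK, eK, hPK⟩ := exists_below (K := K) QL
      have h1 : Over Q PK (eL * eK) := over_comp hQL hPK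
      have h2 : Over Q w0 (e * e0) := over_comp (A := R) (B := R') (C := Ω) hQ hw0
      obtain ⟨e3, h3⟩ := over_mid (A := K) (B := R) (C := Ω) h1 h2
      obtain ⟨e4, h4⟩ := over_mid (A := F i) (B := L) (C := Ω) hQP hQL
      refine hA w0 (fun m hm0 => ?_) ?_ PK e3 h3 (hcomp PK QL eK hPK i P e4 hP h4)
      · have h5 := hw ⟨algebraMap R R' m, by rw [mem_Cf, hD', hDM, map_zero]⟩ (fun h6 => hm0 (by
          have h7 := congrArg (fun z : Cf D' => (z : R')) h6
          have h8 : algebraMap R R' (m : R) = 0 := h7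
          exact Subtype.ext ((map_eq_zero _).1 h8)))
        have h6 : w.ord (algebraMap R R' (m : R)) = 0 := h5
        rw [hw0.2] at h6
        rcases mul_eq_zero.1 h6 with h7 | h7
        · have := hw0.1
          have h8 : e0 = 0 := by exact_mod_cast h7
          omega
        · exact h7
      · exact hw0.reg.1 hwt

end

end Pool.Agent.U393.LT
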