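import Pool.Agent.N145.SX.Multi2
import Pool.Agent.U393.LT.Tower

/-!
The geometric genus of the images of products, without a condition on the last factor.
-/

set_option autoImplicit false
set_option linter.overlappingInstances false
set_option linter.unusedSectionVars false
set_option linter.unusedVariables false
set_option maxHeartbeats 4000000
set_option synthInstance.maxHeartbeats 400000

open FF IntermediateField Module Pool.Agent.W603.LV Pool.Agent.N145.PC
open Pool.Agent.W602.GT (Divisorial RegAt IsPluri DerReg DerLog LogAt LogSec)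
open Pool.Agent.Y184.NT (trForm trForm_pluri)
open Pool.Agent.Y172 (exists_crd exists_lift lift_dual pluri_coord)
open Pool.Agent.R882.LT (SecAt LogGenusZero)
open Pool.Agent.N145.SX (HX SepX sec2 prods alg_of_basis le_algCl basis_zS ess_iSup trdeg_basis zS BdS)

namespace Pool.Agent.U393.LT

open scoped Classical

section

variable {L : Type} [Field L] [Algebra ℂ L] {k : ℕ}

/-- the coordinates are independent -/
theorem ind_gen {F : Fin k → IntermediateField ℂ L} {m : Fin k → ℕ} (hsup : ⨆ i, F i = ⊤)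
    (hL : Algebra.trdeg ℂ L = (∑ i, m i : ℕ)) {x : ∀ i : Fin k, Fin (m i) → F i}
    (hx : ∀ i, IsTranscendenceBasis ℂ (x i)) :
    IsTranscendenceBasis ℂ fun p : (i : Fin k) × Fin (m i) => (x p.1 p.2 : L) := by
  obtain ⟨S, hS⟩ : ∃ S, S = IntermediateField.adjoin ℂ
    (Set.range fun p : (i : Fin k) × Fin (m i) => (x p.1 p.2 : L)) := ⟨_, rfl⟩
  have h3 : ∀ i, ∀ v ∈ F i, IsAlgebraic S v := by
    intro i v hv
    refine alg_of_basis (hx i) (fun j => ?_) hv
    rw [hS]
    exact IntermediateField.subset_adjoin _ _ ⟨⟨i, j⟩, rfl⟩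
  have h4 := le_algCl h3 (T := ⊤) hsup.symm
  have h5 : Algebra.IsAlgebraic (Algebra.adjoin ℂ
      (Set.range fun p : (i : Fin k) × Fin (m i) => (x p.1 p.2 : L))) L := by
    refine Pool.Agent.W619.PQ.alg_adjoin fun z => ?_
    have h6 := h4 (IntermediateField.mem_top (x := z))
    rw [mem_restrictScalars, mem_algebraicClosure_iff, hS] at h6
    exact h6
  refine Algebra.IsAlgebraic.isTranscendenceBasis_of_lift_le_trdeg_of_finite ℂ _ ?_
  rw [hL]
  simp

variable {K : Type} [Field K] [Algebra ℂ K] [Algebra K L] [IsScalarTower ℂ K L]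
  [FiniteDimensional K L]

theorem mf_img (F : Fin k → IntermediateField ℂ L) (i : ℕ) :
    MF F K (Js k i) = ImgF F K i := by
  have h : (⋃ l ∈ Js k i, Set.range (algebraMap (F l) L)) =
      {z | ∃ l : Fin k, l.val < i ∧ z ∈ F l} := by
    ext z
    simp only [Set.mem_iUnion, Set.mem_range, Set.mem_ofPred_eq, exists_prop]
    constructor
    · rintro ⟨l, hl, z, rfl⟩
      exact ⟨l, mem_Js.1 hl, z.2⟩
    · rintro ⟨l, hl, hz⟩
      exact ⟨l, mem_Js.2 hl, ⟨z, hz⟩, rfl⟩
  unfold MF MJ ImgF
  rw [h]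

theorem mf_top (F : Fin k → IntermediateField ℂ L)
    (hgen : IntermediateField.adjoin K (⋃ i, (F i : Set L)) = ⊤) :
    MF F K Finset.univ = ⊤ := by
  rw [eq_top_iff, ← hgen]
  unfold MF MJ
  refine IntermediateField.adjoin.mono _ _ _ ?_
  intro z hz
  obtain ⟨i, hi⟩ := Set.mem_iUnion.1 hz
  exact Set.mem_biUnion (Finset.mem_univ i) ⟨⟨z, hi⟩, rfl⟩

/-- **The geometric genus.** -/
theorem genus_core [Algebra.EssFiniteType ℂ L] {F : Fin (k + 1) → IntermediateField ℂ L}
    [∀ i, Algebra.EssFiniteType ℂ (F i)] (hsup : ⨆ i, F i = ⊤) {m : Fin (k + 1) → ℕ}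
    (hm : ∀ i, Algebra.trdeg ℂ (F i) = m i) (hL : Algebra.trdeg ℂ L = (∑ i, m i : ℕ))
    {x : ∀ i, Fin (m i) → F i} (hx : ∀ i, IsTranscendenceBasis ℂ (x i))
    {BX : ∀ i, Place ℂ (F i) → Prop} {BK : Place ℂ K → Prop}
    (hB : ∀ (P : Place ℂ K) (Q : Place ℂ L) (e : ℕ), Over Q P e →
      (∃ (i : Fin (k + 1)) (S : Place ℂ (F i)) (e' : ℕ), BX i S ∧ Over Q S e') → BK P)
    {g : Fin k → ℕ} (hsep : ∀ i : Fin k, SepX (x i.castSucc) (BX i.castSucc) (g i))
    (hdeg : ∀ i : Fin k, degF (fun i : Fin k => F i.castSucc) K i < g i)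
    (hgen : IntermediateField.adjoin K (⋃ i : Fin k, (F i.castSucc : Set L)) = ⊤)
    {ψ : F (Fin.last k)} (hψ : ψ ∈ HX (x (Fin.last k)) (BX (Fin.last k))) (hψ0 : ψ ≠ 0)
    (hz : LogGenusZero K (∑ i, m i) BK) : False := by
  have hK : Algebra.trdeg ℂ K = (∑ i, m i : ℕ) := Pool.Agent.Y184.NT.trdeg_below (K := L) hL
  have hessK : Algebra.EssFiniteType ℂ K := Pool.Agent.TH466.QG.ess_below (K := L)
  have hbas := ind_gen hsup hL hx
  -- the product of the first factors
  obtain ⟨E, hE⟩ : ∃ E, E = ⨆ i : Fin k, F i.castSucc := ⟨_, rfl⟩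
  have hle : ∀ i : Fin k, F i.castSucc ≤ E := fun i => by
    rw [hE]
    exact le_iSup (fun i : Fin k => F i.castSucc) i
  obtain ⟨N, hN⟩ : ∃ N, N = ∑ i : Fin k, m i.castSucc := ⟨_, rfl⟩
  obtain ⟨e⟩ : Nonempty (Fin N ≃ (i : Fin k) × Fin (m i.castSucc)) := by
    rw [hN]
    exact ⟨finSigmaFinEquiv.symm⟩
  have hinj : Function.Injective (fun p : (i : Fin k) × Fin (m i.castSucc) =>
      (⟨p.1.castSucc, p.2⟩ : (i : Fin (k + 1)) × Fin (m i))) := by
    rintro ⟨i, j⟩ ⟨i', j'⟩ h
    simp only [Sigma.mk.injEq] at h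
    obtain ⟨h1, h2⟩ := h
    have h3 := Fin.castSucc_injective k h1
    subst h3
    rw [eq_of_heq h2]
  have hind' : AlgebraicIndependent ℂ fun p : (i : Fin k) × Fin (m i.castSucc) =>
      (x p.1.castSucc p.2 : L) := hbas.1.comp _ hinj
  have hessE : Algebra.EssFiniteType ℂ E := ess_iSup (F := fun i : Fin k => F i.castSucc) hE
  have hzE := basis_zS (fun i : Fin k => x i.castSucc) hle e (fun i => hx _) hind' hE
  have hnN : ∑ i, m i = N + m (Fin.last k) := by
    rw [Fin.sum_univ_castSucc, hN]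
  rw [hnN] at hK hL hz
  -- the coordinates on `V`
  obtain ⟨z, hzdef⟩ : ∃ z : Fin (N + m (Fin.last k)) → L, z = Fin.append
    (fun i => algebraMap E L (zS (fun i : Fin k => x i.castSucc) hle e i))
    (fun j => algebraMap (F (Fin.last k)) L (x (Fin.last k) j)) := ⟨_, rfl⟩
  have hzb : IsTranscendenceBasis ℂ z := by
    have h1 : AlgebraicIndependent ℂ z := by
      have h2 : z = (fun p : (i : Fin (k + 1)) × Fin (m i) => (x p.1 p.2 : L)) ∘
          (Fin.append (fun i => (⟨(e i).1.castSucc, (e i).2⟩ : (i : Fin (k + 1)) × Fin (m i)))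
            (fun j => ⟨Fin.last k, j⟩)) := by
        funext l
        rw [hzdef]
        refine Fin.addCases (fun i => ?_) (fun j => ?_) l
        · rw [Function.comp_apply, Fin.append_left, Fin.append_left]
          rfl
        · rw [Function.comp_apply, Fin.append_right, Fin.append_right]
          rfl
      rw [h2]
      refine hbas.1.comp _ ?_
      rw [Fin.append_injective_iff]
      refine ⟨fun a b hab => e.injective (hinj hab), fun a b hab => ?_, fun a b hab => ?_⟩
      · simpa using hab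
      · simp only [Sigma.mk.injEq] at hab
        exact absurd hab.1 (Fin.castSucc_ne_last _)
    refine h1.isTranscendenceBasis_of_lift_trdeg_le_of_finite ?_
    rw [hL]
    simp
  -- the frame
  obtain ⟨y, G, hy, hG⟩ := exists_crd hK
  choose G' hG' using fun i => exists_lift (L := L) hK (G i)
  have hyL : IsTranscendenceBasis ℂ (fun j => algebraMap K L (y j)) := hy.algebraMap_comp
  have hGL := lift_dual hG hG'
  obtain ⟨h, hdef⟩ : ∃ h, h = (Matrix.of fun i j => G' i (z j) :
    Matrix (Fin (N + m (Fin.last k))) (Fin (N + m (Fin.last k))) L).det := ⟨_, rfl⟩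
  have hval : ∀ g : L, trForm z g G' = h * g := by
    intro g
    rw [trForm, hdef]
  have hh0 : h ≠ 0 := by
    intro h0
    choose Z hZ using fun i : Fin (N + m (Fin.last k)) => Pool.Agent.W602.GT.exists_der _ hzb
      fun j => if i = j then (1 : L) else 0
    have h1 := pluri_coord hyL hGL (trForm_pluri z (1 : L)) Z
    rw [hval, h0, zero_mul, mul_zero] at h1
    have h2 : (Matrix.of fun i j => Z i (z j) :
        Matrix (Fin (N + m (Fin.last k))) (Fin (N + m (Fin.last k))) L) = 1 := by
      ext i j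
      rw [Matrix.of_apply, hZ, Matrix.one_apply]
    rw [trForm, h2, Matrix.det_one, one_mul] at h1
    exact one_ne_zero h1
  have hθE : ∀ t, trForm y t G = t := by
    intro t
    have h1 : (Matrix.of fun i j => G i (y j) :
        Matrix (Fin (N + m (Fin.last k))) (Fin (N + m (Fin.last k))) K) = 1 := by
      ext i j
      rw [Matrix.of_apply, hG, Matrix.one_apply]
    rw [trForm, h1, Matrix.det_one, one_mul]
  -- the traces vanish
  have htr : ∀ f : ∀ i : Fin k, F i.castSucc,
      (∀ i, f i ∈ HX (x i.castSucc) (BX i.castSucc)) →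
      Algebra.trace K L ((h * algebraMap (F (Fin.last k)) L ψ) *
        ∏ i : Fin k, algebraMap (F i.castSucc) L (f i)) = 0 := by
    intro f hf
    obtain ⟨p, hp1, hp2⟩ := prods sec2 k (fun i => F i.castSucc) (fun i => m i.castSucc)
      (fun i => hm _) (fun i => x i.castSucc) (fun i => hx _) hind' (fun i => BX i.castSucc) E hE
      hle N e f hf
    have h1 := sec2 L E (F (Fin.last k)) N (m (Fin.last k)) (trdeg_basis hzE) (hm _) hL _ hzE _
      (hx (Fin.last k)) _ (BX (Fin.last k)) p hp2 ψ hψ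
    rw [← hzdef] at h1
    have h2 := hz (trForm y (Algebra.trace K L (trForm z (algebraMap E L p *
      algebraMap (F (Fin.last k)) L ψ) G'))) ?_ G
    · rw [hθE, hval] at h2
      have h3 : algebraMap E L p = ∏ i : Fin k, algebraMap (F i.castSucc) L (f i) := hp1
      rw [h3] at h2
      rw [← h2]
      congr 1
      ring
    · have h3 : ∀ P : Place ℂ K, Divisorial (N + m (Fin.last k)) P →
          SecAt BK P (trForm y (Algebra.trace K L (trForm z (algebraMap E L p *
            algebraMap (F (Fin.last k)) L ψ) G'))) := by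
        intro P hP
        refine Pool.Agent.R882.LT.trForm_sec hK hy hG hG' _ (trForm_pluri _ _)
          (BK := fun Q : Place ℂ L => (∃ (P : Place ℂ E) (e_1 : ℕ),
            BdS hle (fun i => BX i.castSucc) P ∧ Over Q P e_1) ∨
            ∃ (P : Place ℂ (F (Fin.last k))) (e : ℕ), BX (Fin.last k) P ∧ Over Q P e)
          (fun P Q c hQ hBQ => hB P Q c hQ ?_) (fun Q hQ => h1 Q hQ) P hP
        rcases hBQ with ⟨S, a, ⟨i, P', b, h5, h6, h7⟩, ha⟩ | ⟨S, a, h5, ha⟩
        · refine ⟨i.castSucc, P', a * b, h5, Nat.mul_pos ha.1 h6, fun v => ?_⟩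
          have h8 := ha.2 (⟨(v : L), hle i v.2⟩ : E)
          rw [h7 v] at h8
          have h9 : algebraMap E L (⟨(v : L), hle i v.2⟩ : E) =
            algebraMap (F i.castSucc) L v := rfl
          rw [h9] at h8
          rw [h8]
          push_cast
          ring
        · exact ⟨_, S, a, h5, ha⟩
      exact ⟨trForm_pluri y _, fun P hP => (h3 P hP).1, fun P hP hB => (h3 P hP).2 hB⟩
  -- the relation
  obtain ⟨τ0⟩ : Nonempty (L →ₐ[K] AlgebraicClosure K) :=
    ⟨IsAlgClosed.lift (R := K) (M := AlgebraicClosure K) (S := L)⟩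
  have h0 := Pool.Agent.N145.SX.Ch.rel_zero (F := fun i : Fin k => F i.castSucc)
    (H := fun i => HX (x i.castSucc) (BX i.castSucc)) htr τ0
  have h1 := Rl.chain h0 (g := g) (fun l A hA c hc => hsep l (AlgebraicClosure K) A hA c hc)
    (s := k) (fun l hl => by
      refine lt_of_le_of_lt (Pool.Agent.N145.SX.Ch.count_le
        (F := fun i : Fin k => F i.castSucc) τ0 _ _) ?_
      have h3 := hdeg l
      unfold degF at h3
      rw [mf_img]
      exact h3)
  have h2 : Js k k = Finset.univ := by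
    ext l
    rw [mem_Js]
    simp
  rw [h2] at h1
  -- all coordinates are fixed
  have h3 := h1 (fun _ => 0) (fun i hi => absurd (Finset.mem_univ i) hi)
  rw [Finset.compl_univ] at h3
  have h4 : ∀ τ ∈ SJ (fun i => res (K := L) (L := K) (Ω := AlgebraicClosure K)
      (F (Fin.castSucc i))) τ0 Finset.univ,
      τ (h * algebraMap (F (Fin.last k)) L ψ) * ∏ i ∈ (∅ : Finset (Fin k)),
        ev (AlgebraicClosure K) (fun i : Fin k => F i.castSucc) i 0
          (res (K := L) (L := K) (F i.castSucc) τ) =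
      τ0 (h * algebraMap (F (Fin.last k)) L ψ) := by
    intro τ hτ
    rw [Finset.prod_empty, mul_one]
    refine (mem_iff (E := fun i : Fin k => F i.castSucc) τ0 _ τ).1 hτ _ ?_
    have h5 := mf_top (K := K) (fun i : Fin k => F i.castSucc) hgen
    unfold MF at h5
    rw [h5]
    exact IntermediateField.mem_top
  rw [Finset.sum_congr rfl h4, Finset.sum_const, nsmul_eq_mul] at h3
  have hchar : CharZero (AlgebraicClosure K) :=
    charZero_of_injective_algebraMap (algebraMap ℂ _).injective
  rcases mul_eq_zero.1 h3 with h4 | h4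
  · rw [Nat.cast_eq_zero, Finset.card_eq_zero] at h4
    exact absurd (self_SJ (p := fun i : Fin k => res (K := L) (L := K)
      (Ω := AlgebraicClosure K) (F i.castSucc)) (τ0 := τ0)
      Finset.univ) (by rw [h4]; exact Finset.notMem_empty _)
  · rw [map_eq_zero] at h4
    rcases mul_eq_zero.1 h4 with h5 | h5
    · exact hh0 h5
    · exact hψ0 ((map_eq_zero _).1 h5)

end

end Pool.Agent.U393.LT
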