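import Pool.Agent.U393.LT.Cover
import Pool.Agent.U393.LT.Genus
import Pool.Agent.U393.UT.Down
import Pool.Agent.U393.UT.Neg
import Pool.Agent.N162.BC.Defs

/-!
Varieties dominated by the product of varieties whose canonical forms separate points and an
arbitrary variety.
-/

set_option autoImplicit false
set_option linter.overlappingInstances false
set_option linter.unusedSectionVars false
set_option linter.unusedVariables false
set_option maxHeartbeats 4000000
set_option synthInstance.maxHeartbeats 400000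

open FF IntermediateField Module Pool.Agent.W603.LV
open Pool.Agent.W602.GT (Divisorial RegAt IsPluri DerReg DerLog LogAt LogSec KodGe Psef)
open Pool.Agent.Y184.NT (trForm trForm_pluri)
open Pool.Agent.Y172 (exists_crd exists_lift lift_dual pluri_coord)
open Pool.Agent.R882.LT (SecAt LogGenusZero)
open Pool.Agent.N145.SX (HX SepX basis_zS trdeg_basis)
open Pool.Agent.W619.PQ (IsUniruled KodairaNeg)
open Pool.Agent.W619.PL (IsA1Uniruled)
open Pool.Agent.N162.BC (GlobalForm)

namespace Pool.Agent.U393.LT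

section

variable {V : Type} [Field V] [Algebra ℂ V] {k : ℕ}

/-- the dimension of the product of the first factors -/
theorem trdeg_sup {F : Fin (k + 1) → IntermediateField ℂ V} (hsup : ⨆ i, F i = ⊤)
    {m : Fin (k + 1) → ℕ} (hV : Algebra.trdeg ℂ V = (∑ i, m i : ℕ))
    {x : ∀ i, Fin (m i) → F i} (hx : ∀ i, IsTranscendenceBasis ℂ (x i)) :
    Algebra.trdeg ℂ (⨆ i : Fin k, F i.castSucc : IntermediateField ℂ V) =
      (∑ i : Fin k, m i.castSucc : ℕ) := by
  have hbas := ind_gen hsup hV hx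
  obtain ⟨E, hE⟩ : ∃ E, E = ⨆ i : Fin k, F i.castSucc := ⟨_, rfl⟩
  have hle : ∀ i : Fin k, F i.castSucc ≤ E := fun i => by
    rw [hE]
    exact le_iSup (fun i : Fin k => F i.castSucc) i
  obtain ⟨N, hN⟩ : ∃ N, N = ∑ i : Fin k, m i.castSucc := ⟨_, rfl⟩
  obtain ⟨e⟩ : Nonempty (Fin N ≃ (i : Fin k) × Fin (m i.castSucc)) := by
    rw [hN]
    exact ⟨finSigmaFinEquiv.symm⟩
  have hinj : Function.Injective (fun p : (i : Fin k) × Fin (m i.castSucc) =>
      (⟨p.1.castSucc, p.2⟩ : (i : Fin (k + 1)) × Fin (m i))) := by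
    rintro ⟨i, j⟩ ⟨i', j'⟩ h
    simp only [Sigma.mk.injEq] at h
    obtain ⟨h1, h2⟩ := h
    have h3 := Fin.castSucc_injective k h1
    subst h3
    rw [eq_of_heq h2]
  have hind' : AlgebraicIndependent ℂ fun p : (i : Fin k) × Fin (m i.castSucc) =>
      (x p.1.castSucc p.2 : V) := hbas.1.comp _ hinj
  have hzE := basis_zS (fun i : Fin k => x i.castSucc) hle e (fun i => hx _) hind' hE
  rw [← hN, ← hE]
  exact trdeg_basis hzE

theorem sup_last (F : Fin (k + 1) → IntermediateField ℂ V) (hsup : ⨆ i, F i = ⊤) :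
    (⨆ i : Fin k, F i.castSucc) ⊔ F (Fin.last k) = ⊤ := by
  rw [eq_top_iff, ← hsup]
  refine iSup_le fun i => ?_
  induction i using Fin.lastCases with
  | last => exact le_sup_right
  | cast i => exact (le_iSup (fun i : Fin k => F i.castSucc) i).trans le_sup_left

theorem a1_false {n : ℕ} : IsA1Uniruled ℂ V n (fun _ => False) ↔ IsUniruled ℂ V n := by
  constructor
  · rintro ⟨M, i1, i2, φ, h1, h2, -⟩
    exact ⟨M, i1, i2, h1, h2, ⟨φ⟩⟩
  · rintro ⟨M, i1, i2, h1, h2, ⟨φ⟩⟩
    exact ⟨M, i1, i2, φ, h1, h2, fun _ _ _ _ _ _ => id⟩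

/-- canonical forms -/
theorem hx_of_global {n : ℕ} {ω : (Fin n → Derivation ℂ V V) → V} (hω : GlobalForm n ω)
    {x : Fin n → V} {E : Fin n → Derivation ℂ V V} (hx : IsTranscendenceBasis ℂ x)
    (hE : ∀ i j, E i (x j) = if i = j then 1 else 0) :
    ω E ∈ HX x (fun _ => False) := by
  have h1 : trForm x (ω E) = ω := by
    funext D
    have h2 := pluri_coord hx hE hω.1 D
    rw [h2, pow_one, trForm]
  intro P hP
  rw [h1]
  exact ⟨fun D hD => hω.2 P hP D fun i => Pool.Agent.TH466.QG.derReg_of_log (hD i),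
    fun _ => hω.2 P hP⟩

/-- **Varieties dominated by products with an arbitrary variety.** -/
theorem prodvar [Algebra.EssFiniteType ℂ V] {n g : Fin k → ℕ}
    {F : Fin (k + 1) → IntermediateField ℂ V} {r : ℕ}
    (hn : ∀ i : Fin k, Algebra.trdeg ℂ (F i.castSucc) = n i)
    (hE : ∀ i : Fin k, ∃ x : Fin (n i) → F i.castSucc, IsTranscendenceBasis ℂ x ∧
      SepX x (fun _ => False) (g i))
    (hY : Algebra.trdeg ℂ (F (Fin.last k)) = (r + 1 : ℕ)) (hF : ⨆ i, F i = ⊤)
    (hV : Algebra.trdeg ℂ V = ((∑ i, n i) + (r + 1) : ℕ)) {W : Type} [Field W] [Algebra ℂ W]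
    [Algebra W V] [IsScalarTower ℂ W V] [FiniteDimensional W V]
    (hgen : IntermediateField.adjoin W (⋃ i : Fin k, (F i.castSucc : Set V)) = ⊤)
    (hdeg : ∀ i : Fin k, degF (fun i : Fin k => F i.castSucc) W i < g i) :
    (IsUniruled ℂ W ((∑ i, n i) + (r + 1)) ↔ IsUniruled ℂ (F (Fin.last k)) (r + 1)) ∧
    (KodairaNeg ℂ (F (Fin.last k)) (r + 1) → KodairaNeg ℂ W ((∑ i, n i) + (r + 1))) ∧
    ((IsUniruled ℂ (F (Fin.last k)) (r + 1) ∨
      ∃ ω : (Fin (r + 1) → Derivation ℂ (F (Fin.last k)) (F (Fin.last k))) → F (Fin.last k),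
        GlobalForm (r + 1) ω ∧ ω ≠ 0) →
      [∀ ω : (Fin ((∑ i, n i) + (r + 1)) → Derivation ℂ W W) → W,
          GlobalForm ((∑ i, n i) + (r + 1)) ω → ∀ D, ω D = 0,
        KodairaNeg ℂ W ((∑ i, n i) + (r + 1)),
        ¬ Psef ℂ W ((∑ i, n i) + (r + 1)) (fun _ => False),
        IsUniruled ℂ W ((∑ i, n i) + (r + 1))].TFAE) := by
  classical
  have hFe : ∀ i, Algebra.EssFiniteType ℂ (F i) := fun i => Pool.Agent.N999.SX.ess_any (F i)
  have hUe : Algebra.EssFiniteType ℂ (⨆ i : Fin k, F i.castSucc : IntermediateField ℂ V) :=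
    Pool.Agent.N999.SX.ess_any _
  have hWe : Algebra.EssFiniteType ℂ W := Pool.Agent.TH466.QG.ess_below (K := V)
  have hW : Algebra.trdeg ℂ W = ((∑ i, n i) + (r + 1) : ℕ) :=
    Pool.Agent.Y184.NT.trdeg_below (K := V) hV
  obtain ⟨m, hm1, hm2⟩ : ∃ m : Fin (k + 1) → ℕ, (∀ i : Fin k, m i.castSucc = n i) ∧
      m (Fin.last k) = r + 1 :=
    ⟨fun i => Fin.lastCases (motive := fun _ => ℕ) (r + 1) n i,
      fun i => Fin.lastCases_castSucc (motive := fun _ => ℕ) i,
      Fin.lastCases_last (motive := fun _ => ℕ)⟩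
  have hm : ∀ i, Algebra.trdeg ℂ (F i) = m i := by
    intro i
    induction i using Fin.lastCases with
    | last => rw [hm2, hY]
    | cast i => rw [hm1, hn i]
  have hsum : ∑ i, m i = (∑ i, n i) + (r + 1) := by
    rw [Fin.sum_univ_castSucc, hm2]
    congr 1
    exact Finset.sum_congr rfl fun i _ => hm1 i
  have hV' : Algebra.trdeg ℂ V = (∑ i, m i : ℕ) := by rw [hsum, hV]
  have hall : ∀ i : Fin (k + 1), ∃ (x : Fin (m i) → F i) (E : Fin (m i) → Derivation ℂ (F i) (F i)),
      IsTranscendenceBasis ℂ x ∧ (∀ a b, E a (x b) = if a = b then 1 else 0) ∧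
      ∀ j : Fin k, j.castSucc = i → SepX x (fun _ => False) (g j) := by
    intro i
    induction i using Fin.lastCases with
    | last =>
      obtain ⟨x, E, hx, hEx⟩ := exists_crd (hm (Fin.last k))
      exact ⟨x, E, hx, hEx, fun j hj => absurd hj (Fin.castSucc_ne_last _)⟩
    | cast i =>
      have h1 : ∃ x : Fin (m i.castSucc) → F i.castSucc, IsTranscendenceBasis ℂ x ∧
          SepX x (fun _ => False) (g i) := by
        rw [hm1]
        exact hE i
      obtain ⟨x, hx, hs⟩ := h1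
      choose E hEx using fun a => Pool.Agent.W602.GT.exists_der x hx
        fun b => if a = b then (1 : F i.castSucc) else 0
      refine ⟨x, E, hx, hEx, fun j hj => ?_⟩
      rw [Fin.castSucc_inj.1 hj]
      exact hs
  choose x Ex hx hEx hsep0 using hall
  have hU := trdeg_sup hF hV' hx
  have hUn : Algebra.trdeg ℂ (⨆ i : Fin k, F i.castSucc : IntermediateField ℂ V) =
      (∑ i, n i : ℕ) := by
    rw [hU]
    congr 1
    exact Finset.sum_congr rfl fun i _ => hm1 i
  have hsep : ∀ i : Fin k, SepX (x i.castSucc) (fun _ => False) (g i) := fun i =>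
    hsep0 _ i rfl
  have h1 : IsUniruled ℂ W ((∑ i, n i) + (r + 1)) → IsUniruled ℂ (F (Fin.last k)) (r + 1) := by
    intro h
    obtain ⟨M, i1, i2, φ, a1, a2, a3, -⟩ := cover_a1 hW (F := fun i : Fin k => F i.castSucc)
      (fun i => hm i.castSucc) (fun i => hx i.castSucc) (BX := fun _ _ => False) hsep hdeg
      (BK := fun _ => False) (fun _ _ _ _ _ _ _ h => h.elim) hgen (a1_false.2 h)
    exact Pool.Agent.U393.UT.product_down _ (F (Fin.last k)) (sup_last F hF) hUn hY hV
      ⟨M, i1, i2, a1, a2, φ, a3⟩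
  have h2 : IsUniruled ℂ (F (Fin.last k)) (r + 1) → IsUniruled ℂ W ((∑ i, n i) + (r + 1)) := by
    intro h
    obtain ⟨M, i1, i2, a1, a2, φ, -⟩ := Pool.Agent.U393.UT.prod_uniruled _ (F (Fin.last k))
      (sup_last F hF) hUn hY hV h
    exact Pool.Agent.U192.TD.uniruled_below (IsScalarTower.toAlgHom ℂ W V)
      ⟨M, i1, i2, a1, a2, ⟨φ⟩⟩
  refine ⟨⟨h1, h2⟩, ?_, ?_⟩
  · rw [Pool.Agent.U393.UT.neg_iff, Pool.Agent.U393.UT.neg_iff]
    intro h3 h4
    apply h3
    obtain ⟨N, hN, hi⟩ := Pool.Agent.U192.PT.kod_zero.1 h4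
    obtain ⟨ST, h5, hST⟩ := Pool.Agent.U192.PT.sec_down (K := W) (sup_last F hF) hUn hY hV
      (δ := fun _ => 0) (δV := fun _ => 0) Pool.Agent.U393.UT.pull_zero (δT := fun _ => 0)
      (fun _ => le_refl _) (Pool.Agent.U393.UT.prod_zero _ _) {1}
    rw [h5 rfl] at hST
    exact Pool.Agent.U192.PT.kod_zero.2 ⟨N, hN, hST N hi⟩
  · intro h3
    have h4 : LogGenusZero W ((∑ i, n i) + (r + 1)) (fun _ => False) →
        IsA1Uniruled ℂ W ((∑ i, n i) + (r + 1)) (fun _ => False) := by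
      intro hz
      rw [a1_false]
      rcases h3 with h3 | ⟨ω, hω, hne⟩
      · exact h2 h3
      exfalso
      obtain ⟨m', hm', hm''⟩ : ∃ m', m' = m (Fin.last k) ∧ m' = r + 1 := ⟨_, rfl, hm2⟩
      have hωm : ∃ ω' : (Fin (m (Fin.last k)) → Derivation ℂ (F (Fin.last k)) (F (Fin.last k))) →
          F (Fin.last k), GlobalForm (m (Fin.last k)) ω' ∧ ω' ≠ 0 := by
        rw [hm2]
        exact ⟨ω, hω, hne⟩
      obtain ⟨ω', hω', hne'⟩ := hωm
      have hψ := hx_of_global hω' (hx (Fin.last k)) (hEx (Fin.last k))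
      refine genus_core (K := W) hF hm hV' hx (BX := fun _ _ => False) (BK := fun _ => False)
        (fun P Q e _ h => by obtain ⟨_, _, _, h, -⟩ := h; exact h) hsep hdeg hgen hψ ?_
        (by rw [hsum]; exact hz)
      intro h0
      apply hne'
      funext D
      rw [pluri_coord (hx (Fin.last k)) (hEx (Fin.last k)) hω'.1 D, h0, mul_zero]
      rfl
    have h5 := Pool.Agent.N145.PL.tfaeL hW h4
    rw [a1_false] at h5
    have e1 : LogGenusZero W ((∑ i, n i) + (r + 1)) (fun _ => False) ↔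
        ∀ ω : (Fin ((∑ i, n i) + (r + 1)) → Derivation ℂ W W) → W,
          GlobalForm ((∑ i, n i) + (r + 1)) ω → ∀ D, ω D = 0 := by
      constructor
      · intro h ω hω
        exact h ω ⟨hω.1, fun P hP D hD => hω.2 P hP D fun i =>
          Pool.Agent.TH466.QG.derReg_of_log (hD i), fun P hP _ => hω.2 P hP⟩
      · intro h ω hω
        exact h ω ⟨hω.1, fun P hP => hω.2.2 P hP id⟩
    have e2 : ¬ KodGe ℂ W ((∑ i, n i) + (r + 1)) (fun _ => False) 0 ↔
        KodairaNeg ℂ W ((∑ i, n i) + (r + 1)) := by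
      constructor
      · intro h
        rw [Pool.Agent.U393.UT.neg_iff]
        exact fun h' => h (Pool.Agent.U192.TD.kodGe_of_pair h')
      · intro h h'
        exact Pool.Agent.U192.TD.not_neg_of_kodGe h' h
    rw [e1, e2] at h5
    exact h5

end

end Pool.Agent.U393.LT
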